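import Pool.Agent.H57.AVG.C2a

/-!
# The closed gradient of the second place below the target: the inputs

The moved place is `v`, the place `v + 1` is known to the depth of the moved place only, the target is
`v + 2`. `VfP`: the places `v`, `v + 1` are full, given the record of `x` and the jets of `v + 1` of all
orders. `nt2`: the digits of the lower places. `C2R`: the inputs at the standard digits.
-/

set_option autoImplicit false

namespace Pool.AVG57

open Finset Real MvPolynomial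
open Pool.Agent.H49.Ent Pool.Agent.H32.Dense Pool.STK Pool.KA Pool.KSAT Pool.K2S Pool.PB Pool.S6C
open Pool.GEN Pool.CHT Pool.RCD Pool.LA91 Pool.AVG96
open Pool.GRD (LbP)

variable {m : ℕ} {γ : ∀ J : ℕ, Fam m J → Type}

/-- **The places `v` and `v + 1` are full**: the digits `Na, …, Nb` of the height of `v` and the digits
`Mu, …, Mb` of the height of `v + 1` over labels of `w`, given the velocity of `v`, the jets of `v + 1`
of all orders `j' ≤ K + 2` to the digits `Mu - j' w`, the records of `w` and `x`, the lower places of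
the chain and `y`. -/
def VfP (S : PCl m) (y : ∀ (J : ℕ) (F : Fam m J), F.Ω → γ J F) (c : ℕ → Fin m) (r₀ v K : ℕ)
    (w x : ℝ) (p n n' : ℕ → ℝ) (Na Nb Nd Mu Mb θ : ℝ) : Prop :=
  ∃ k : ℝ, 0 < k ∧ ∃ e₀ : ℝ, 0 < e₀ ∧ ∀ K₀ : ℕ, Bas S (fun J F A =>
    ∀ (V₁ V₂ : Type) (z : F.Ω → V₁) (zx : F.Ω → V₂),
      Mx (fun J F => ptr F J) (vg w) k F A z → Mx (fun J F => ptr F J) (vg x) k F A zx →
      ∀ u₀ a b d g bu, (jetQ m c r₀ v w p (nd n n' w)).P K₀ e₀ J F A u₀ →
      (qJet m ((range v).image c) (c v) 0 w (p v) Na).P K₀ e₀ J F A a →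
      (qJet m ((range v).image c) (c v) 0 w (p v) Nb).P K₀ e₀ J F A b →
      (qJet m ((range v).image c) (c v) 1 w (p v) Nd).P K₀ e₀ J F A d →
      (qJets m c (v + 1) (v + 2) (K + 2) (fun _ _ => w) (fun l _ => p l)
        (fun _ j' => Mu - (j' : ℝ) * w)).P K₀ e₀ J F A g →
      (qJet m ((range (v + 1)).image c) (c (v + 1)) 0 w (p (v + 1)) Mb).P K₀ e₀ J F A bu →
      (((Nb - Na) + (Mb - Mu)) * Real.log 2 - θ) * J ≤
        CH (Pool.Agent.H49.Ent.cond F.p A True) (fun ω => (b ω, bu ω))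
        (fun ω => (a ω, (d ω, (g ω, (zx ω, (z ω, (u₀ ω, y J F ω))))))))

/-- The digits of the lower places for the own path of the target: near digits of `v`, `v + 1`. -/
noncomputable def nt2 (s n : ℕ → ℝ) (q ν : ℝ) (v l : ℕ) : ℝ :=
  if l < v then n l else if l = v then s v + (q - ν / 4) else s (v + 1) + (q - ν / 2)

/-- The digits of the heights in the rows. -/
noncomputable def nr2 (s n : ℕ → ℝ) (d : ℝ) (v l : ℕ) : ℝ := if l < v then n l else s l + d

/-- The near digits: `d` digits beyond the level at the places `v`, `v + 1`. -/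
noncomputable def dn2 (s n n' : ℕ → ℝ) (w d : ℝ) (v l j' : ℕ) : ℝ :=
  if l < v then nd n n' w l j' else s l - (j' : ℝ) * w + d

/-- **The inputs** at the standard digits, besides the numbers and the two mutual informations. -/
structure C2R (S : PCl m) (y : ∀ (J : ℕ) (F : Fam m J), F.Ω → γ J F) (c : ℕ → Fin m)
    (r₀ v K : ℕ) (sn : ℝ → ℕ → ℝ) (a : ℕ → ℝ) (w x q ξ μ ν : ℝ) (p s n n' : ℕ → ℝ)
    (h lo hi η : ℝ) : Prop where
  yW : ∀ (J : ℕ) (F : Fam m J), ∃ φ : γ J F → F.ζ × ℕ, ∀ ω, φ (y J F ω) = (F.Z ω, F.T ω)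
  yf : YfC S y c r₀ w p n n' η
  y0 : ∀ l < r₀, CdC S y c l K 0 w w (p l) (n l) η (Qt.fn fun _ _ _ => ())
  y1 : ∀ l < r₀, CdC S y c l K 1 w w (p l) (n' l) η (Qt.fn fun _ _ _ => ())
  cd : ∀ l, r₀ ≤ l → l ≤ v + 1 → CdC S y c l K 2 w w (p l) (n' l) η
    (jetQ m c r₀ l w p (nd n n' w))
  dj : CdC S y c (v + 2) K 1 w w (p (v + 2)) (s (v + 2) + q + ξ) η
    (jetQ m c r₀ (v + 2) w p (ddN sn a n n' w (v + 1)))
  jt : CdC S y c (v + 2) K 0 w x (p (v + 2)) (s (v + 2) + q - ν) η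
    (qJets m c r₀ (v + 2) (K + 2) (fun _ _ => w) (fun l _ => p l)
      (fun l j' => nt2 s n q ν v l - (j' : ℝ) * w))
  vf : VfP S y c r₀ v K w x p n n' (s v + q) (s v + q + ξ) (s v + (q + ξ + μ + ν) - w)
    (s (v + 1) + q) (s (v + 1) + q + ξ) η
  row : ∀ P₁ P₂ : ℝ, lo ≤ P₁ → P₁ ≤ P₂ → P₂ ≤ hi →
    RwC S y c r₀ (v + 1) w p (nr2 s n (q + ξ) v) P₁ P₂ h η

end Pool.AVG57
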