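import Pool.Agent.H57.AVN.Asm
import Pool.Agent.H66.JT.Jtu
import Pool.Agent.H31.AVN.Net

/-!
# The closed gradient of the second place below the target, final form

`asm2_fin`: the closed gradient in the direction of the place `v`, the spectator `v + 1` is above it;
from the labels near `g`, the fullness of the place `v + 1` and the fullness of the pair.
-/

set_option autoImplicit false

namespace Pool.AVG50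

open Finset Real MvPolynomial MeasureTheory Filter
open Pool.Agent.H49.Ent Pool.Agent.H32.Dense Pool.STK Pool.KA Pool.KSAT Pool.K2S Pool.PB Pool.GEN
open Pool.S6C Pool.RCD Pool.LA91 Pool.AVG96 Pool.AVG57 Pool.OWN68 Pool.OWN83 Pool.CDX

variable {m : ℕ} {S : PCl m} {c : ℕ → Fin m} {r₀ v K : ℕ} {s₀ : ℝ} {sn : ℝ → ℕ → ℝ}
  {G : Set ℝ} {g : ℝ} {Sl : ℕ → ℝ} {Lb Lb' : ℝ → ℝ → ℝ → Prop}

/-- Stronger labels. -/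
theorem codU_lb (h : CodU S c r₀ v K s₀ sn G g Sl Lb')
    (hLb : ∀ Cm κ R : ℝ, Lb Cm κ R → Lb' Cm κ R) : CodU S c r₀ v K s₀ sn G g Sl Lb := by
  intro e C ν₀ γ₀ he hC hν hγ
  obtain ⟨D, D1, D2, Cm, κ, b1, b2, D3, H⟩ := h e C ν₀ γ₀ he hC hν hγ
  refine ⟨D, D1, D2, Cm, κ, b1, b2, D3, fun γ y A B Λ hg hA hB => ?_⟩
  obtain ⟨ρ, hρ, H⟩ := H γ y A B Λ hg hA hB
  exact ⟨ρ, hρ, fun R hR hRρ hl => H R hR hRρ (hLb _ _ _ hl)⟩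

/-- Stronger labels. -/
theorem jtU_lb (h : JtU S c r₀ v K s₀ sn G g Sl Lb')
    (hLb : ∀ Cm κ R : ℝ, Lb Cm κ R → Lb' Cm κ R) : JtU S c r₀ v K s₀ sn G g Sl Lb := by
  intro e C ν₀ he hC hν
  obtain ⟨Cn, κ, b1, b2, H⟩ := h e C ν₀ he hC hν
  refine ⟨Cn, κ, b1, b2, fun γ y A B Λ hg hA hB => ?_⟩
  obtain ⟨ρ, hρ, H⟩ := H γ y A B Λ hg hA hB
  exact ⟨ρ, hρ, fun R hR hRρ hl => H R hR hRρ (hLb _ _ _ hl)⟩

/-- **The closed gradient in the direction of the place `v`**, the spectator `v + 1` above it, in all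
small boxes with labels, at almost every `g`; the base is one place. Box A has the scale `R'`, box B
the scale `R`. -/
theorem asm2_fin (v K : ℕ) {hd ε : ℝ} (hh : 0 < hd) (hh1 : hd ≤ 1) (hε : 0 < ε) :
    ∃ (κ₁ κ₂ ι θ : ℝ) (k₁ : ℕ), 0 < κ₁ ∧ κ₁ ≤ 1 ∧ 0 < κ₂ ∧ κ₂ ≤ 1 ∧ 0 < ι ∧ 0 < θ ∧ θ ≤ 1 ∧
      ∀ {m : ℕ} {S : PCl m} {c : ℕ → Fin m} {s₀ A B Λ : ℝ} {sn : ℝ → ℕ → ℝ} {G : Set ℝ}
        (_ : AsmC S c 1 (v + 1) s₀ A B Λ sn G) (_ : 1 ≤ v),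
      ∀ᵐ g : ℝ, A < g → g < B → ∀ Sl : ℕ → ℝ, SlpG sn 1 (v + 2) G g Sl → 1 < Sl (v + 2) →
        (∀ l, 1 ≤ l → l ≤ v + 1 → Sl l < 2 ∨ AfG S c sn G g l) →
        AtTg S c (v + 2) sn G g → RawG S c sn G g hd (v + 2) →
        VfG S c 1 (v + 1) A B Λ sn G g Sl →
        ∀ C₁ : ℝ, VfPG S c 1 v (2 * K + 1) C₁ A B Λ sn G g Sl →
        ∀ ξ₁ ν₁ C' : ℝ, 0 < ξ₁ → 0 < ν₁ → 0 < C' → ∃ Q₁ : ℝ, 0 < Q₁ ∧
        ∀ ξ₀ ν₀ C Nn : ℝ, 0 < ξ₀ → 0 < ν₀ → 0 < C → 0 < Nn →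
          ∃ Cm κ φ ρ : ℝ, 0 < Cm ∧ 0 < κ ∧ 0 < φ ∧ 0 < ρ ∧
          ∀ R : ℝ, 0 < R → R < ρ → LbR S c 1 K sn G g (Cm * R) (Cm * R) (κ * R) (v + 2) →
            ∀ w ∈ G, ∀ R' j' x' j x : ℝ, R' ≤ R →
            R ≤ Nn * R' → g - R' ≤ w → j' ≤ g + R' → x' ≤ g + R' → j ≤ g + R → x ≤ g + R →
            ∀ (δW q' ξ' μ' ν' q ξ μ ν φ' : ℝ) (p s : ℕ → ℝ),
            Bx2 sn 1 (v + 1) Sl w j' x' δW q' ξ' μ' ν' φ' (C' * R') p s →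
            Bx2 sn 1 (v + 1) Sl w j x δW q ξ μ ν φ' (C * R) p s → φ' ≤ φ * R →
            ξ₁ * R' ≤ ξ' → ν₁ * R' ≤ ν' → μ' ≤ θ * ξ' → ν' ≤ θ * ξ' → θ * ξ' + ν' ≤ q' →
            ξ₀ * R ≤ ξ → ν₀ * R ≤ ν → μ ≤ θ * ξ → ν ≤ θ * ξ → θ * ξ + ν ≤ q →
            (∀ l, 1 ≤ l → l ≤ v + 1 → Sl l * (x - w) + C₁ * (ξ + μ + ν) ≤ q) →
            Q₁ * R' ≤ q → q' + ξ' + μ' ≤ q → q' + ξ' + ν ≤ q → ξ < κ₁ * ξ' → μ ≤ μ' →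
            CGs S c v K w δW j' x' j x p s q' ξ' q ξ μ κ₂ ι k₁ ε := by
  obtain ⟨κ₁, κ₂, ι, θ, k₁, a1, a2, a3, a4, a5, a6, a7, HB⟩ := asm2_v v K hh hh1 hε
  refine ⟨κ₁, κ₂, ι, θ, k₁, a1, a2, a3, a4, a5, a6, a7, ?_⟩
  intro m S c s₀ A B Λ sn G X hv
  filter_upwards [HB X hv] with g hg hgA hgB Sl hSl hσ haf hT hraw hvf C₁ hvfp
  have hK : K ≤ 2 * K + 1 := by omega
  exact hg hgA hgB Sl hSl hσ hT hraw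
    (fun Cm κ R => LbR S c 1 K sn G g (Cm * R) (Cm * R) (κ * R) (v + 2))
    (fun _ _ _ _ _ _ h1 h2 h3 => h3.mono h1 h1 h2)
    (codU_of (v := v + 1) hSl (by omega) hσ.le hh hh1 hraw haf)
    (codU_lb (codU_of (v := v + 1) (K := 2 * K + 1) hSl (by omega) hσ.le hh hh1 hraw haf)
      fun _ _ _ h => h.deg hK)
    (jtU_lb (Pool.JTY.jtU_any (K := 2 * K + 1) hSl hv hσ.le hh hh1 hraw) fun _ _ _ h => h.deg hK)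
    hvf C₁ hvfp

end Pool.AVG50
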