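import Pool.Agent.H57.AVN.Lit
import Pool.Agent.H57.AVG.C2b

/-!
# The closed gradient of the second place below the target: the conclusion

`CGs`: the gradient of the target `v + 2` in the direction of the place `v` is closed; the place
`v + 1` is a spectator above `v`, its gradient is closed at the larger ball (box A).
-/

set_option autoImplicit false

namespace Pool.AVG57

open Finset Real MvPolynomial MeasureTheory Filter Topology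
open Pool.Agent.H49.Ent Pool.Agent.H32.Dense Pool.STK Pool.KA Pool.KSAT Pool.K2S Pool.PB Pool.S6C
open Pool.GEN Pool.CHT Pool.CHX Pool.ISO Pool.RCD Pool.LA91 Pool.AVG96
open Pool.PB.Trl (rt rt_mem t_rt)
open Pool.D2R (hgt gnh GrdE chs)
open Pool.BFL (Pb)

variable {m : ℕ} {γ : ∀ J : ℕ, Fam m J → Type}

/-- **The gradient in the direction of the place `v` is closed**, for the target `v + 2` and the
spectator `v + 1` above `v`, at a window between `w` and `w + δW`. The balls `j'`, `x'` and the numbers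
`q'`, `ξ'` belong to the first step (the gradient in the direction of `v + 1`), `j`, `x`, `q`, `ξ` to
the second. -/
def CGs (S : PCl m) (c : ℕ → Fin m) (v K : ℕ) (w δW j' x' j x : ℝ) (p s : ℕ → ℝ)
    (q' ξ' q ξ μ κ₂ ι : ℝ) (k₁ : ℕ) (ε : ℝ) : Prop :=
  ∀ E : ℝ, Bas S (fun J F B => ∀ (ks' nn' ks nn : ℕ) (gm : ℕ → ℕ)
    (G : ℕ → PtT F → ℕ → MvPolynomial (Option (Fin m)) ℝ)
    (H : LnT F → ℕ → MvPolynomial (Option (Fin m)) ℝ) (U : ℝ),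
    LbsE F c (v + 1) K w p s E gm B (G 0) H →
    ClU F (v + 3) ks' ⌊j' * J⌋₊ B G → ClU F (v + 3) nn' ⌊x' * J⌋₊ B G → ks' ≤ nn' →
    ClU F (v + 3) ks ⌊j * J⌋₊ B G → ClU F (v + 3) nn ⌊x * J⌋₊ B G → ks ≤ nn →
    GrdE F c 0 (v + 2) ks' nn' ⌊q' * J⌋₊ ⌊ξ' * J⌋₊ gm U B G →
    GrdE F c 0 (v + 2) ks nn ⌊q * J⌋₊ ⌊ξ * J⌋₊ gm U B G →
    (∀ ω, B ω → |gnh F c (v + 2) gm (G 0) (G nn) ω (v + 1) -
      gnh F c (v + 2) gm (G 0) (G nn') ω (v + 1)| ≤ U / 2 ^ ⌊ξ * J⌋₊) →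
    U ≤ 2 ^ (μ / 2 * J) →
    ∃ W : ℕ, ⌊w * J⌋₊ ≤ W ∧ (W : ℝ) ≤ (w + δW) * J ∧ ∃ mu : LnT F → Polynomial ℝ,
      (∀ s, (mu s).natDegree ≤ 2 * K + 2) ∧
      (∀ s (u : ℝ), |(mu s).eval u| ≤ ((2 * K + 2 : ℕ) + 1) * (2 ^ k₁ * (|u| + 1)) ^ (2 * K + 2) *
        (2 : ℝ) ^ (ι * ⌊ξ * J⌋₊)) ∧
      Pb (Pool.Agent.H49.Ent.cond F.p B True) (fun ω => (2 : ℝ) ^ (-(κ₂ * ⌊ξ * J⌋₊)) <
        |gnh F c (v + 2) gm (G 0) (G nn) ω v -
          (mu (slam F W ω)).eval (rt F W ω)|) ≤ ε)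

end Pool.AVG57
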