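import Pool.Agent.H57.AVN.Lit

/-!
# The closed gradient of the second place below the target: the inputs in a class

`C2N`: the numbers, `C2C`: the inputs, at general digits. `C2X`: the numbers and the two mutual
informations at the standard digits. `C2X.cc`: `C2C` from `C2X` and `C2R`.
-/

set_option autoImplicit false

namespace Pool.AVG57

open Finset Real MvPolynomial
open Pool.Agent.H49.Ent Pool.Agent.H32.Dense Pool.STK Pool.KA Pool.KSAT Pool.K2S Pool.PB Pool.S6C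
open Pool.GEN Pool.CHT Pool.RCD Pool.LA91 Pool.AVG96
open Pool.GRD (LbP)

variable {m : ℕ} {γ : ∀ J : ℕ, Fam m J → Type}

/-- **The numbers**: the moved place `v`, the near place `v + 1`, the target `v + 2`. -/
structure C2N (r₀ v : ℕ) (w δW : ℝ) (p s n n' nt nr : ℕ → ℝ) (qr ξ μ Nd Nt nb nbu Mu : ℝ)
    (Df Dn Dx Dd : ℕ → ℕ → ℝ) (Ef En Nv : ℕ → ℝ) : Prop where
  rv : r₀ ≤ v
  ps : ∀ l ≤ v + 2, 0 ≤ p l ∧ p l ≤ s l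
  w0 : 0 ≤ w
  δ0 : 0 < δW
  w1 : w + δW + ξ < 1
  q0 : 0 < qr
  ξ0 : 0 < ξ
  μ0 : 0 < μ
  n0 : Dn v 0 < p v + qr
  n1 : Dn v 1 + w + δW < p v + qr + ξ + μ
  ns : ∀ l, r₀ ≤ l → l < v → ∀ j' ≤ 1, Dn l j' = nd n n' w l j'
  nu0 : Dn (v + 1) 0 ≤ p (v + 1) + qr
  nu1 : Dn (v + 1) 1 + w ≤ p (v + 1) + qr
  x0 : Dx v 0 < p v + qr
  x1 : Dx v 1 + w + δW < p v + qr + ξ + μ
  xs : ∀ l, r₀ ≤ l → l < v → ∀ j' ≤ 1, Dx l j' = nd n n' w l j'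
  xu : ∀ j' ≤ 1, Dx (v + 1) j' = Dn (v + 1) j'
  t0 : 0 ≤ nt v
  u0 : nt v < p v + qr
  u1 : nt v + δW < p v + qr + ξ + μ
  us : ∀ l, r₀ ≤ l → l < v → nt l ≤ n l
  uu : nt (v + 1) ≤ p (v + 1) + qr
  tx0 : nt v ≤ Dx v 0
  tx1 : nt v ≤ Dx v 1 + w
  m0 : En 0 < p (v + 2) + qr
  m1 : En 1 + w + δW < p (v + 2) + qr
  mf : s (v + 2) + qr + ξ ≤ Ef 0
  f0 : s v + qr + ξ + μ ≤ Df v 0
  f1 : s v + qr + ξ + μ < Df v 1 + w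
  fv : ∀ j' ≤ 1, nd n n' w v j' ≤ Df v j'
  g0 : s (v + 1) + qr + ξ + μ ≤ Df (v + 1) 0
  g1 : s (v + 1) + qr + ξ + μ < Df (v + 1) 1 + w
  v0 : s v + qr ≤ Nv 0
  v1 : s v + qr + ξ + μ < Nv 1 + w
  b0 : s v + qr + ξ ≤ nb
  b1 : nb < p v + qr + ξ + μ
  b2 : Nv 0 + ξ ≤ nb
  bu : s (v + 1) + qr + ξ ≤ nbu
  mu0 : s (v + 1) + qr ≤ Mu
  c0 : ∀ l ≤ v + 1, s l + qr + ξ + μ < n l
  c1 : ∀ l < r₀, n l ≤ n' l
  c2 : ∀ l, r₀ ≤ l → l ≤ v + 1 → n' l = n l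
  d0 : s (v + 2) + qr + ξ ≤ Nd
  ds : ∀ l, r₀ ≤ l → l ≤ v → ∀ j' ≤ 1, Dd l j' = nd n n' w l j'
  du : ∀ j' ≤ 1, Dd (v + 1) j' = Df (v + 1) j'
  r0 : ∀ l < v, nr l = n l
  rv' : nr v = nb
  ru : nr (v + 1) = nbu

/-- **The inputs in the class**, with the error `η`. -/
structure C2C (S : PCl m) (y : ∀ (J : ℕ) (F : Fam m J), F.Ω → γ J F) (c : ℕ → Fin m)
    (r₀ v K : ℕ) (w j x : ℝ) (p n n' nt nr : ℕ → ℝ) (Nd Nt nb nbu Mu : ℝ)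
    (Df Dn Dx Dd : ℕ → ℕ → ℝ) (Ef En Nv : ℕ → ℝ) (h lo hi η : ℝ) : Prop where
  tm : ∃ C₀, TmC S C₀
  wj : w ≤ j
  j1 : j ≤ 1
  wx : w ≤ x
  x1 : x ≤ 1
  yW : ∀ (J : ℕ) (F : Fam m J), ∃ φ : γ J F → F.ζ × ℕ, ∀ ω, φ (y J F ω) = (F.Z ω, F.T ω)
  yf : YfC S y c r₀ w p n n' η
  y0 : ∀ l < r₀, CdC S y c l K 0 w w (p l) (n l) η (Qt.fn fun _ _ _ => ())
  y1 : ∀ l < r₀, CdC S y c l K 1 w w (p l) (n' l) η (Qt.fn fun _ _ _ => ())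
  mj : MIw S (fun J F => ptr F J) y w j
    ((jetQ m c r₀ (v + 2) w p Df).prod (prQ m c (v + 2) w (p (v + 2)) Ef))
    ((jetQ m c r₀ (v + 2) w p Dn).prod (prQ m c (v + 2) w (p (v + 2)) En)) η
  mx : MIw S (fun J F => ptr F J) y w x (jetQ m c r₀ (v + 2) w p Df)
    (jetQ m c r₀ (v + 2) w p Dx) η
  cd : ∀ l, r₀ ≤ l → l ≤ v + 1 → CdC S y c l K 2 w w (p l) (n' l) η
    (jetQ m c r₀ l w p (nd n n' w))
  dj : CdC S y c (v + 2) K 1 w w (p (v + 2)) Nd η (jetQ m c r₀ (v + 2) w p Dd)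
  jt : CdC S y c (v + 2) K 0 w x (p (v + 2)) Nt η
    (qJets m c r₀ (v + 2) (K + 2) (fun _ _ => w) (fun l _ => p l) (fun l j' => nt l - (j' : ℝ) * w))
  vf : VfP S y c r₀ v K w x p n n' (Nv 0) nb (Nv 1) Mu nbu η
  row : ∀ P₁ P₂ : ℝ, lo ≤ P₁ → P₁ ≤ P₂ → P₂ ≤ hi →
    RwC S y c r₀ (v + 1) w p nr P₁ P₂ h η

/-- **The numbers, the windows and the mutual informations** at the standard digits. -/
structure C2X (S : PCl m) (y : ∀ (J : ℕ) (F : Fam m J), F.Ω → γ J F) (c : ℕ → Fin m)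
    (r₀ v : ℕ) (sn : ℝ → ℕ → ℝ) (a : ℕ → ℝ) (w j x δW q ξ μ ν : ℝ) (p s n n' : ℕ → ℝ)
    (η : ℝ) : Prop where
  num : C2N r₀ v w δW p s n n' (nt2 s n q ν v) (nr2 s n (q + ξ) v) q ξ μ (s (v + 2) + q + ξ)
    (s (v + 2) + q - ν) (s v + q + ξ) (s (v + 1) + q + ξ) (s (v + 1) + q) (nD sn a)
    (dn2 s n n' w (q - ν / 4) v) (dn2 s n n' w (q - ν / 4) v) (ddN sn a n n' w (v + 1))
    (nD sn a (v + 2)) (enN s w (q - ν / 2) (v + 1)) (nvN s w q (q + ξ + μ + ν) v)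
  tm : ∃ C₀, TmC S C₀
  wj : w ≤ j
  j1 : j ≤ 1
  wx : w ≤ x
  x1 : x ≤ 1
  mj : MIw S (fun J F => ptr F J) y w j
    ((jetQ m c r₀ (v + 2) w p (nD sn a)).prod (prQ m c (v + 2) w (p (v + 2)) (nD sn a (v + 2))))
    ((jetQ m c r₀ (v + 2) w p (dn2 s n n' w (q - ν / 4) v)).prod
      (prQ m c (v + 2) w (p (v + 2)) (enN s w (q - ν / 2) (v + 1)))) η
  mx : MIw S (fun J F => ptr F J) y w x (jetQ m c r₀ (v + 2) w p (nD sn a))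
    (jetQ m c r₀ (v + 2) w p (dn2 s n n' w (q - ν / 4) v)) η

/-- All the inputs. -/
theorem C2X.cc {S : PCl m} {y : ∀ (J : ℕ) (F : Fam m J), F.Ω → γ J F} {c : ℕ → Fin m}
    {r₀ v K : ℕ} {sn : ℝ → ℕ → ℝ} {a : ℕ → ℝ} {w j x δW q ξ μ ν h lo hi η : ℝ}
    {p s n n' : ℕ → ℝ} (X : C2X S y c r₀ v sn a w j x δW q ξ μ ν p s n n' η)
    (R : C2R S y c r₀ v K sn a w x q ξ μ ν p s n n' h lo hi η) :
    C2C S y c r₀ v K w j x p n n' (nt2 s n q ν v) (nr2 s n (q + ξ) v) (s (v + 2) + q + ξ)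
      (s (v + 2) + q - ν) (s v + q + ξ) (s (v + 1) + q + ξ) (s (v + 1) + q) (nD sn a)
      (dn2 s n n' w (q - ν / 4) v) (dn2 s n n' w (q - ν / 4) v) (ddN sn a n n' w (v + 1))
      (nD sn a (v + 2)) (enN s w (q - ν / 2) (v + 1)) (nvN s w q (q + ξ + μ + ν) v)
      h lo hi η where
  tm := X.tm
  wj := X.wj
  j1 := X.j1
  wx := X.wx
  x1 := X.x1
  yW := R.yW
  yf := R.yf
  y0 := R.y0
  y1 := R.y1
  mj := X.mj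
  mx := X.mx
  cd := R.cd
  dj := R.dj
  jt := R.jt
  vf := R.vf
  row := R.row

end Pool.AVG57
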