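import Pool.Agent.H57.AVN.C2c

/-!
# The closed gradient of the second place below the target, at the standard digits

`c2_box`: box A gives the gradient in the direction of the place `v + 1`, box B the gradient in the
direction of the place `v`.
-/

set_option autoImplicit false

namespace Pool.AVG57

open Finset Real MvPolynomial
open Pool.Agent.H49.Ent Pool.Agent.H32.Dense Pool.STK Pool.KA Pool.KSAT Pool.K2S Pool.PB Pool.S6C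
open Pool.GEN Pool.CHT Pool.CHX Pool.ISO Pool.RCD Pool.LA91 Pool.AVG96

/-- **The closed gradient at the two boxes.** `κ₁` is the accuracy of the first step. -/
theorem c2_box (v K : ℕ) {h ε : ℝ} (hh : 0 < h) (hh1 : h ≤ 1) (hε : 0 < ε) :
    ∃ (κ₁ κ₂ ι θ : ℝ) (k₁ : ℕ), 0 < κ₁ ∧ κ₁ ≤ 1 ∧ 0 < κ₂ ∧ κ₂ ≤ 1 ∧ 0 < ι ∧ 0 < θ ∧ θ ≤ 1 ∧
      ∀ {m : ℕ} {γ₁ γ₂ : ∀ J : ℕ, Fam m J → Type} {S : PCl m}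
        {y₁ : ∀ (J : ℕ) (F : Fam m J), F.Ω → γ₁ J F} {y₂ : ∀ (J : ℕ) (F : Fam m J), F.Ω → γ₂ J F}
        {c : ℕ → Fin m} {r₁ r₀ : ℕ} {sn₁ sn₂ : ℝ → ℕ → ℝ} {a₁ a₂ : ℕ → ℝ}
        {w δW j' x' j x q' ξ' μ' ν' q ξ μ ν : ℝ} {p s n₁ n₁' n n' : ℕ → ℝ}
        {lo₁ hi₁ η₁ lo hi η : ℝ}
        (_ : C1X S y₁ c r₁ (v + 1) sn₁ a₁ w j' x' δW q' ξ' μ' ν' p s n₁ n₁' η₁)
        (_ : C1R S y₁ c r₁ (v + 1) K sn₁ a₁ w x' q' ξ' μ' ν' p s n₁ n₁' h lo₁ hi₁ η₁)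
        (_ : C2X S y₂ c r₀ v sn₂ a₂ w j x δW q ξ μ ν p s n n' η)
        (_ : C2R S y₂ c r₀ v (2 * K + 1) sn₂ a₂ w x q ξ μ ν p s n n' h lo hi η),
        0 ≤ η₁ → η₁ ≤ θ * ξ' → μ' ≤ θ * ξ' → ν' ≤ θ * ξ' → lo₁ + θ * ξ' ≤ p (v + 2) + q' →
        s (v + 2) + q' + ξ' + θ * ξ' ≤ hi₁ →
        0 ≤ η → η ≤ θ * ξ → μ ≤ θ * ξ → ν ≤ θ * ξ → lo + θ * ξ ≤ p (v + 2) + q →
        s (v + 2) + q + ξ + θ * ξ ≤ hi → s (v + 1) ≤ p (v + 1) + θ * ξ →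
        μ ≤ μ' → ξ < κ₁ * ξ' → q' + ξ' + μ' ≤ q → q' + ξ' + ν ≤ q →
        (∀ l < v, n₁ l ≤ n l ∧ n₁' l ≤ n' l) → n₁ v ≤ s v + (q - ν / 4) →
        n₁' v ≤ s v + (q - ν / 4) → n₁' (v + 1) ≤ p (v + 1) + q →
        CGs S c v K w δW j' x' j x p s q' ξ' q ξ μ κ₂ ι k₁ ε := by
  obtain ⟨κ₁, κ₂, ι, θ, k₁, h1, h2, h3, h4, h5, h6, h7, H⟩ := c2_cls v K hh hh1 hε
  refine ⟨κ₁, κ₂, ι, θ, k₁, h1, h2, h3, h4, h5, h6, h7, ?_⟩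
  intro m γ₁ γ₂ S y₁ y₂ c r₁ r₀ sn₁ sn₂ a₁ a₂ w δW j' x' j x q' ξ' μ' ν' q ξ μ ν p s n₁ n₁' n n'
    lo₁ hi₁ η₁ lo hi η X1 R1 X2 R2 hη₁0 hη₁ hμ' hν' hlo₁ hhi₁ hη0 hη hμ hν hlo hhi hsp hμμ hξξ
    hqq hqν hn1 hn2 hn3 hn4
  have e1 : nt2 s n q ν v v = s v + (q - ν / 4) := by
    unfold nt2
    rw [if_neg (lt_irrefl v), if_pos rfl]
  refine H X1.num (X1.cc R1) X2.num (X2.cc R2) hη₁0 hη₁ hμ' (by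
    show s (v + 2) + q' ≤ s (v + 1 + 1) + q' - ν' + θ * ξ'
    linarith) hlo₁ hhi₁ hη0 hη hμ (by linarith) hlo hhi (by linarith) hμμ hξξ hqq (by linarith)
    hn1 ?_ ?_ hn4
  · rw [e1]
    exact hn2
  · rw [e1]
    exact hn3

end Pool.AVG57
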