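import Pool.Agent.H50.AVN.Ntb
import Pool.Agent.H50.AVN.Ntc
import Pool.Agent.H50.AVN.Vfp
import Pool.Agent.H57.AVN.C2x

/-!
# The closed gradient of the second place below the target in a class at almost every `g`

`asm2_pt`: the inputs `C2X` and `C2R` in all boxes at a point. `asm2_v`: the closed gradient in the
direction of the place `v`, the spectator `v + 1` is above it, the target is `v + 2`; from the codes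
and the fullness of the place `v + 1` (box A, scale `R'`) and of the pair `v`, `v + 1` (box B, scale
`R`).
-/

set_option autoImplicit false

namespace Pool.AVG50

open Finset Real MvPolynomial MeasureTheory Filter
open Pool.Agent.H49.Ent Pool.Agent.H32.Dense Pool.STK Pool.KA Pool.KSAT Pool.K2S Pool.PB Pool.GEN
open Pool.S6C Pool.RCD Pool.LA91 Pool.AVG96 Pool.AVG57 Pool.OWN68 Pool.OWN83 Pool.CDX

section pt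

variable {m : ℕ} {γ : ∀ J : ℕ, Fam m J → Type} {S : PCl m}
  {y : ∀ (J : ℕ) (F : Fam m J), F.Ω → γ J F} {c : ℕ → Fin m} {r₀ v K : ℕ}
  {s₀ A B Λ : ℝ} {sn : ℝ → ℕ → ℝ} {G : Set ℝ} {g : ℝ} {Sl : ℕ → ℝ}

/-- **The inputs of the second step in all boxes at a point**, for given digits `D` of the chain. -/
theorem asm2_pt (h : GCh S (fun J F => ptr F J) y c r₀ (v + 2) s₀ A B Λ sn G) (hr : r₀ ≤ v)
    (hV : ∀ w ∈ G, A ≤ w → w < B → AtV S c r₀ w) (hgA : A < g) (hgB : g < B)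
    (hSl : SlpG sn r₀ (v + 2) G g Sl) (hσ : 1 < Sl (v + 2)) (hT : AtTg S c (v + 2) sn G g)
    (hyW : ∀ (J : ℕ) (F : Fam m J), ∃ ψ : γ J F → F.ζ × ℕ, ∀ ω, ψ (y J F ω) = (F.Z ω, F.T ω))
    {hd : ℝ} (hd1 : hd ≤ 1) (hraw : RawG S c sn G g hd (v + 2)) {b lam : ℝ} (hb : B ≤ b)
    (hbl : b ≤ A + lam)
    (hbase : ∀ (e w : ℝ) (p n n' : ℕ → ℝ), 0 < e → A ≤ w → w ≤ 1 → (∀ l < r₀, n l = b) →
      (∀ l < r₀, n' l = lam + w) → YfC S y c r₀ w p n n' e ∧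
      (∀ l < r₀, CdC S y c l K 0 w w (p l) (n l) e (Qt.fn fun _ _ _ => ())) ∧
      ∀ l < r₀, CdC S y c l K 1 w w (p l) (n' l) e (Qt.fn fun _ _ _ => ()))
    (HX : ∀ e ν₀ C δ : ℝ, 0 < e → 0 < ν₀ → 0 < C → 0 < δ → ∃ φ : ℝ, 0 < φ ∧ ∃ a : ℕ → ℝ,
        (∀ l, r₀ ≤ l → l ≤ v + 2 → a l ∈ G ∧ g < a l ∧ a l < g + δ ∧ a l < B) ∧
        ∃ ρ : ℝ, 0 < ρ ∧ ∃ (lv : ℕ → ℝ) (σ₀ : ℝ),
          FarR sn G r₀ (v + 2) a Λ (g - ρ) (g + ρ) lv σ₀ ∧ C * ρ ≤ σ₀ / 2 ∧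
          C * ρ + σ₀ / 2 ≤ Λ ∧
          ∀ R : ℝ, 0 < R → R < ρ → ∀ w ∈ G, ∀ j x : ℝ, g - R ≤ w → j ≤ g + R → x ≤ g + R →
            ∀ (δW q ξ μ ν φ' : ℝ) (p s n n' : ℕ → ℝ), ν₀ * R ≤ ν → φ' ≤ φ * R →
            Bx1 sn r₀ (v + 1) Sl w j x δW q ξ μ ν φ' (C * R) p s n n' →
            C2X S y c r₀ v sn a w j x δW q ξ μ ν p s n n' (e * R))
    {ξ₀ ν₀ C C₁ θ Cm κ : ℝ} (hξ : 0 < ξ₀) (hν : 0 < ν₀) (hC : 0 < C) (hθ : 0 < θ)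
    (hθ1 : θ ≤ 1) {D : ℕ → ℝ} (hC₁ : C + 1 ≤ C₁) (D1 : ∀ l, r₀ ≤ l → l ≤ v + 1 → C + 1 ≤ D l)
    (D3 : ∀ l, r₀ ≤ l → l ≤ v + 1 → D l ≤ Cm) (hCm : 0 < Cm) (hκ : 0 < κ) {Lb : ℝ → Prop}
    (hcod : ∃ ρ : ℝ, 0 < ρ ∧ ∀ R : ℝ, 0 < R → R < ρ →
      Lb R → CodB S y c r₀ (v + 1) K sn G g Sl (θ * ξ₀) C₁ ν₀ D Cm κ R)
    {Cn κ₁ : ℝ} (hκ₁ : 0 < κ₁) (D4 : ∀ l, r₀ ≤ l → l < v → Cn ≤ D l)
    (hjt : ∃ ρ : ℝ, 0 < ρ ∧ ∀ R : ℝ, 0 < R → R < ρ →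
      Lb R → JtB S y c r₀ v K sn G g Sl (θ * ξ₀) C ν₀ Cn κ₁ R) :
    ∃ φ ρ : ℝ, 0 < φ ∧ 0 < ρ ∧ ∃ a : ℕ → ℝ,
      ∀ R : ℝ, 0 < R → R < ρ → Lb R → ∀ w ∈ G, ∀ j x : ℝ, g - R ≤ w → j ≤ g + R →
        x ≤ g + R → ∀ (δW q ξ μ ν φ' : ℝ) (p s : ℕ → ℝ),
        Bx2 sn r₀ (v + 1) Sl w j x δW q ξ μ ν φ' (C * R) p s → φ' ≤ φ * R → ξ₀ * R ≤ ξ →
        ν₀ * R ≤ ν →
        VfP S y c r₀ v K w x p (nB r₀ b sn w D R) (nB r₀ (lam + w) sn w D R) (s v + q)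
          (s v + q + ξ) (s v + (q + ξ + μ + ν) - w) (s (v + 1) + q) (s (v + 1) + q + ξ)
          (θ * ξ) →
        C2X S y c r₀ v sn a w j x δW q ξ μ ν p s (nB r₀ b sn w D R)
          (nB r₀ (lam + w) sn w D R) (θ * ξ) ∧
        C2R S y c r₀ v K sn a w x q ξ μ ν p s (nB r₀ b sn w D R) (nB r₀ (lam + w) sn w D R) hd
          (s (v + 2)) (s (v + 2) + q + ξ + θ * ξ) (θ * ξ) := by
  obtain ⟨C₂, hC₂⟩ : ∃ C₂, C₂ = C + Cm := ⟨_, rfl⟩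
  have hC₂0 : 0 < C₂ := by rw [hC₂]; linarith
  obtain ⟨φ₂, hφ₂, a, -, ρ₂, hρ₂, lv, σ₀, hF, hC1, -, H2⟩ := HX (θ * ξ₀) ν₀ C₂ 1 (by positivity)
    hν hC₂0 one_pos
  obtain ⟨φ₃, ρ₃, hφ₃, hρ₃, H3⟩ := c2r_pt h hr hV hgA hgB hSl hσ hT hyW hd1 hraw hb hbl hbase hξ
    hC hθ hθ1 hρ₂ hF (by rw [← hC₂]; exact hC1) hC₁ D1 D3 hCm hκ hcod hκ₁ D4 hjt
  obtain ⟨ρ₄, hρ₄, q1, q2⟩ : ∃ ρ₄ : ℝ, 0 < ρ₄ ∧ (1 + C + C) * ρ₄ ≤ B - g ∧ ρ₄ ≤ g - A := by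
    have q1 : 0 < B - g := by linarith
    refine ⟨min ((B - g) / (1 + C + C)) (g - A), lt_min (by positivity) (by linarith), ?_,
      min_le_right _ _⟩
    have h2 := mul_le_mul_of_nonneg_left (min_le_left ((B - g) / (1 + C + C)) (g - A))
      (show (0 : ℝ) ≤ 1 + C + C by linarith)
    have h3 : (1 + C + C) * ((B - g) / (1 + C + C)) = B - g := by field_simp
    linarith
  refine ⟨min φ₂ φ₃, min ρ₂ (min ρ₃ ρ₄), lt_min hφ₂ hφ₃, lt_min hρ₂ (lt_min hρ₃ hρ₄), a, ?_⟩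
  intro R hR hRρ hLb w hw j x w1 j2 x2 δW q ξ μ ν φ' p s N hφ' hξR hνR hvf
  have r2 := hRρ.trans_le (min_le_left _ _)
  have r3 := hRρ.trans_le ((min_le_right _ _).trans (min_le_left _ _))
  have r4 := hRρ.trans_le ((min_le_right _ _).trans (min_le_right _ _))
  have hφ2 : φ' ≤ φ₂ * R := hφ'.trans (mul_le_mul_of_nonneg_right (min_le_left _ _) hR.le)
  have hφ3 : φ' ≤ φ₃ * R := hφ'.trans (mul_le_mul_of_nonneg_right (min_le_right _ _) hR.le)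
  have hwx := N.wx
  have hCR : 0 < C * R := by positivity
  have e1 : (1 + C + C) * R < (1 + C + C) * ρ₄ := mul_lt_mul_of_pos_left r4 (by linarith)
  have e2 : (1 + C + C) * R = R + C * R + C * R := by ring
  have hAw : A ≤ w := by linarith
  have eC2 : C₂ * R = C * R + Cm * R := by rw [hC₂]; ring
  have hCmR : 0 < Cm * R := by positivity
  have hD1 : ∀ l, r₀ ≤ l → l ≤ v + 1 → C * R < D l * R := fun l l0 l1 =>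
    mul_lt_mul_of_pos_right (by linarith [D1 l l0 l1]) hR
  have hD3 : ∀ l, r₀ ≤ l → l ≤ v + 1 → D l * R ≤ C₂ * R := fun l l0 l1 => by
    have := mul_le_mul_of_nonneg_right (D3 l l0 l1) hR.le
    linarith
  have N1 : Bx1 sn r₀ (v + 1) Sl w j x δW q ξ μ ν φ' (C₂ * R) p s (nB r₀ b sn w D R)
      (nB r₀ (lam + w) sn w D R) := N.bx1 (by linarith) (by linarith) hD1 (by linarith) hD3
  have hη : θ * ξ₀ * R ≤ θ * ξ := by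
    rw [mul_assoc]
    exact mul_le_mul_of_nonneg_left hξR hθ.le
  exact ⟨c2x_mono (H2 R hR r2 w hw j x w1 j2 x2 δW q ξ μ ν φ' p s _ _ hνR hφ2 N1) hη,
    H3 R hR r3 hLb w hw j x w1 j2 x2 δW q ξ μ ν φ' p s N hφ3 hξR hνR hvf⟩

end pt

/-- **The closed gradient in the direction of the place `v`**, the spectator `v + 1` above it, in all
small boxes at almost every `g`; the base is one place. The constants of the gradient depend on `v`,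
`K`, `hd`, `ε` only. -/
theorem asm2_v (v K : ℕ) {hd ε : ℝ} (hh : 0 < hd) (hh1 : hd ≤ 1) (hε : 0 < ε) :
    ∃ (κ₁ κ₂ ι θ : ℝ) (k₁ : ℕ), 0 < κ₁ ∧ κ₁ ≤ 1 ∧ 0 < κ₂ ∧ κ₂ ≤ 1 ∧ 0 < ι ∧ 0 < θ ∧ θ ≤ 1 ∧
      ∀ {m : ℕ} {S : PCl m} {c : ℕ → Fin m} {s₀ A B Λ : ℝ} {sn : ℝ → ℕ → ℝ} {G : Set ℝ}
        (_ : AsmC S c 1 (v + 1) s₀ A B Λ sn G) (_ : 1 ≤ v),
      ∀ᵐ g : ℝ, A < g → g < B → ∀ Sl : ℕ → ℝ, SlpG sn 1 (v + 2) G g Sl → 1 < Sl (v + 2) →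
        AtTg S c (v + 2) sn G g → RawG S c sn G g hd (v + 2) →
        ∀ Lb : ℝ → ℝ → ℝ → Prop, (∀ Cm κ R Cm' κ' R' : ℝ, Cm' * R' ≤ Cm * R →
          κ * R ≤ κ' * R' → Lb Cm κ R → Lb Cm' κ' R') →
        CodU S c 1 (v + 1) K s₀ sn G g Sl Lb → CodU S c 1 (v + 1) (2 * K + 1) s₀ sn G g Sl Lb →
        JtU S c 1 v (2 * K + 1) s₀ sn G g Sl Lb → VfG S c 1 (v + 1) A B Λ sn G g Sl →
        ∀ C₁ : ℝ, VfPG S c 1 v (2 * K + 1) C₁ A B Λ sn G g Sl →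
        ∀ ξ₁ ν₁ C' : ℝ, 0 < ξ₁ → 0 < ν₁ → 0 < C' → ∃ Q₁ : ℝ, 0 < Q₁ ∧
        ∀ ξ₀ ν₀ C Nn : ℝ, 0 < ξ₀ → 0 < ν₀ → 0 < C → 0 < Nn →
          ∃ Cm κ φ ρ : ℝ, 0 < Cm ∧ 0 < κ ∧ 0 < φ ∧ 0 < ρ ∧
          ∀ R : ℝ, 0 < R → R < ρ → Lb Cm κ R → ∀ w ∈ G, ∀ R' j' x' j x : ℝ, R' ≤ R →
            R ≤ Nn * R' → g - R' ≤ w → j' ≤ g + R' → x' ≤ g + R' → j ≤ g + R → x ≤ g + R →
            ∀ (δW q' ξ' μ' ν' q ξ μ ν φ' : ℝ) (p s : ℕ → ℝ),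
            Bx2 sn 1 (v + 1) Sl w j' x' δW q' ξ' μ' ν' φ' (C' * R') p s →
            Bx2 sn 1 (v + 1) Sl w j x δW q ξ μ ν φ' (C * R) p s → φ' ≤ φ * R →
            ξ₁ * R' ≤ ξ' → ν₁ * R' ≤ ν' → μ' ≤ θ * ξ' → ν' ≤ θ * ξ' → θ * ξ' + ν' ≤ q' →
            ξ₀ * R ≤ ξ → ν₀ * R ≤ ν → μ ≤ θ * ξ → ν ≤ θ * ξ → θ * ξ + ν ≤ q →
            (∀ l, 1 ≤ l → l ≤ v + 1 → Sl l * (x - w) + C₁ * (ξ + μ + ν) ≤ q) →
            Q₁ * R' ≤ q → q' + ξ' + μ' ≤ q → q' + ξ' + ν ≤ q → ξ < κ₁ * ξ' → μ ≤ μ' →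
            CGs S c v K w δW j' x' j x p s q' ξ' q ξ μ κ₂ ι k₁ ε := by
  obtain ⟨κ₁, κ₂, ι, θ, k₁, a1, a2, a3, a4, a5, a6, a7, HB⟩ := c2_box v K hh hh1 hε
  refine ⟨κ₁, κ₂, ι, θ, k₁, a1, a2, a3, a4, a5, a6, a7, ?_⟩
  intro m S c s₀ A B Λ sn G X hv
  obtain ⟨γ, y, h⟩ := X.gch
  have hr1 : (1 : ℕ) ≤ v + 1 := by omega
  have key1 : ∀ᵐ g : ℝ, ∀ x : {x : ℚ × ℚ × ℚ × ℚ × ℚ //
      IxV A B Λ x.1 x.2.1 x.2.2.1 x.2.2.2.1 x.2.2.2.2}, (x.1.1 : ℝ) < g → g < x.1.2.1 →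
      ∀ Sl : ℕ → ℝ, SlpG sn 1 (v + 2) G g Sl → 1 < Sl (v + 2) →
      ∀ e ν₀ C δ : ℝ, 0 < e → 0 < ν₀ → 0 < C → 0 < δ → ∃ φ : ℝ, 0 < φ ∧ ∃ a : ℕ → ℝ,
        (∀ l, 1 ≤ l → l ≤ v + 2 → a l ∈ G ∧ g < a l ∧ a l < g + δ ∧ a l < (x.1.2.1 : ℝ)) ∧
        ∃ ρ : ℝ, 0 < ρ ∧ ∃ (lv : ℕ → ℝ) (σ₀ : ℝ),
          FarR sn G 1 (v + 2) a (x.1.2.2.1 : ℝ) (g - ρ) (g + ρ) lv σ₀ ∧ C * ρ ≤ σ₀ / 2 ∧
          C * ρ + σ₀ / 2 ≤ (x.1.2.2.1 : ℝ) ∧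
          ∀ R : ℝ, 0 < R → R < ρ → ∀ w ∈ G, ∀ j x' : ℝ, g - R ≤ w → j ≤ g + R → x' ≤ g + R →
            ∀ (δW q ξ μ ν φ' : ℝ) (p s n n' : ℕ → ℝ), ν₀ * R ≤ ν → φ' ≤ φ * R →
            Bx1 sn 1 (v + 1) Sl w j x' δW q ξ μ ν φ' (C * R) p s n n' →
            C1X S (yZT ((range 1).image c) x.1.2.2.2.1 x.1.2.2.2.2) c 1 (v + 1) sn a w j x' δW
              q ξ μ ν p s n n' (e * R) := by
    rw [ae_all_iff]
    intro x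
    exact c1x_ae (gch_ix h x.2 kn_yZT) (X.hnum _ _ _ _ _ x.2) hr1
  have key2 : ∀ᵐ g : ℝ, ∀ x : {x : ℚ × ℚ × ℚ × ℚ × ℚ //
      IxV A B Λ x.1 x.2.1 x.2.2.1 x.2.2.2.1 x.2.2.2.2}, (x.1.1 : ℝ) < g → g < x.1.2.1 →
      ∀ Sl : ℕ → ℝ, SlpG sn 1 (v + 2) G g Sl → 1 < Sl (v + 2) →
      ∀ e ν₀ C δ : ℝ, 0 < e → 0 < ν₀ → 0 < C → 0 < δ → ∃ φ : ℝ, 0 < φ ∧ ∃ a : ℕ → ℝ,
        (∀ l, 1 ≤ l → l ≤ v + 2 → a l ∈ G ∧ g < a l ∧ a l < g + δ ∧ a l < (x.1.2.1 : ℝ)) ∧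
        ∃ ρ : ℝ, 0 < ρ ∧ ∃ (lv : ℕ → ℝ) (σ₀ : ℝ),
          FarR sn G 1 (v + 2) a (x.1.2.2.1 : ℝ) (g - ρ) (g + ρ) lv σ₀ ∧ C * ρ ≤ σ₀ / 2 ∧
          C * ρ + σ₀ / 2 ≤ (x.1.2.2.1 : ℝ) ∧
          ∀ R : ℝ, 0 < R → R < ρ → ∀ w ∈ G, ∀ j x' : ℝ, g - R ≤ w → j ≤ g + R → x' ≤ g + R →
            ∀ (δW q ξ μ ν φ' : ℝ) (p s n n' : ℕ → ℝ), ν₀ * R ≤ ν → φ' ≤ φ * R →
            Bx1 sn 1 (v + 1) Sl w j x' δW q ξ μ ν φ' (C * R) p s n n' →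
            C2X S (yZT ((range 1).image c) x.1.2.2.2.1 x.1.2.2.2.2) c 1 v sn a w j x' δW
              q ξ μ ν p s n n' (e * R) := by
    rw [ae_all_iff]
    intro x
    exact c2x_ae (gch_ix h x.2 kn_yZT) (X.hnum _ _ _ _ _ x.2) hv
  filter_upwards [key1, key2] with g hg1 hg2 hgA hgB Sl hSl hσ hT hraw Lb hLbm hcodA hcodB hjt hvf
    C₁ hvfp ξ₁ ν₁ C' hξ₁ hν₁ hC'
  obtain ⟨D', D1', D2', CmA, κA, hCmA, hκA, D3', hcodA⟩ := hcodA (θ * ξ₁) (2 * C' + 1) ν₁ 1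
    (by positivity) (by positivity) hν₁ one_pos
  obtain ⟨kA, φA, hφA, hkA⟩ := hvf (θ * ξ₁) C' CmA (by positivity) hC' hCmA
  refine ⟨2 * CmA, by positivity, ?_⟩
  intro ξ₀ ν₀ C Nn hξ hν hC hNn
  obtain ⟨Cn, κn, hCn, hκn, hjt⟩ := hjt (θ * ξ₀) C ν₀ (by positivity) hC hν
  obtain ⟨D, D1, D2, CmB, κB, hCmB, hκB, D3, hcodB⟩ := hcodB (θ * ξ₀)
    (2 * C + 1 + Cn + CmA) ν₀ 1 (by positivity) (by positivity) hν one_pos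
  obtain ⟨kB, φB, hφB, hkB⟩ := hvfp (θ * ξ₀) C CmB ν₀ (by positivity) hC hCmB hν
  obtain ⟨A₁, B₁, Λ₁, p₀, lam, hx, g1, g2, hlam⟩ := prm_ex (Λ := Λ) hgA hgB h.B1 h.Λ0
    (show (0 : ℝ) < (1 / 8) ^ (max kA kB) by positivity)
  have hlamA : (lam : ℝ) ≤ (1 / 8) ^ kA :=
    hlam.trans (pow_le_pow_of_le_one (by norm_num) (by norm_num) (le_max_left _ _))
  have hlamB : (lam : ℝ) ≤ (1 / 8) ^ kB :=
    hlam.trans (pow_le_pow_of_le_one (by norm_num) (by norm_num) (le_max_right _ _))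
  have hc := gch_ix h hx (y' := yZT ((range 1).image c) (p₀ : ℝ) lam) kn_yZT
  have hp0 := hx.p0
  have hΛ1 := hx.h0
  have hpm := hx.pm
  have hA0 := hc.A0
  have hVx : ∀ w ∈ G, (A₁ : ℝ) ≤ w → w < B₁ → AtV S c 1 w := fun w hw w1 w2 =>
    X.atv w hw (hx.hA.trans w1) (w2.trans_le hx.hB)
  obtain ⟨ρ₁, hρ₁, H1⟩ := hkA A₁ B₁ Λ₁ p₀ lam hx g1 g2 hlamA
  obtain ⟨ρ₂, hρ₂, H2⟩ := hkB A₁ B₁ Λ₁ p₀ lam hx g1 g2 hlamB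
  -- box A
  obtain ⟨φ₃, ρ₃, hφ₃, hρ₃, aA, H3⟩ := asm_pt (v := v + 1) hc hr1 hVx g1 g2 hSl hσ hT
    (fun J F => yZT_W J F) hh1 hraw (b := (p₀ : ℝ)) (lam := (lam : ℝ)) (by linarith) hx.pl
    (base_one h.pos kn_yZT ykZ_yZT hA0 (by linarith) (by linarith) hx.pl K)
    (hg1 ⟨(A₁, B₁, Λ₁, p₀, lam), hx⟩ g1 g2 Sl hSl hσ) hξ₁ hν₁ hC' a6 a7
    (show C' + 1 ≤ 2 * C' + 1 by linarith) (fun l _ l1 => by linarith [D1' l l1])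
    (fun l _ l1 => D3' l l1) hCmA hκA (Lb := fun R => Lb CmA κA R) (hcodA _ _ _ _ _ hc g1 g2)
  -- box B
  have hcodB' := hcodB _ _ _ _ _ hc g1 g2
  have hjt' := hjt _ _ _ _ _ hc g1 g2
  obtain ⟨Cm, hCm0, hCm1, hCm2, hCm3⟩ : ∃ Cm : ℝ, 0 < Cm ∧ CmA ≤ Cm ∧ CmB ≤ Cm ∧ Cn ≤ Cm :=
    ⟨CmA + CmB + Cn, by positivity, by linarith, by linarith, by linarith⟩
  obtain ⟨κ, hκ0, hκ1, hκ2, hκ3⟩ : ∃ κ : ℝ, 0 < κ ∧ κ ≤ κA / Nn ∧ κ ≤ κB ∧ κ ≤ κn :=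
    ⟨min (κA / Nn) (min κB κn), by positivity, min_le_left _ _,
      (min_le_right _ _).trans (min_le_left _ _), (min_le_right _ _).trans (min_le_right _ _)⟩
  obtain ⟨φ₄, ρ₄, hφ₄, hρ₄, aB, H4⟩ := asm2_pt hc hv hVx g1 g2 hSl hσ hT
    (fun J F => yZT_W J F) hh1 hraw (b := (p₀ : ℝ)) (lam := (lam : ℝ)) (by linarith) hx.pl
    (base_one h.pos kn_yZT ykZ_yZT hA0 (by linarith) (by linarith) hx.pl (2 * K + 1))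
    (hg2 ⟨(A₁, B₁, Λ₁, p₀, lam), hx⟩ g1 g2 Sl hSl hσ) hξ hν hC a6 a7
    (show C + 1 ≤ 2 * C + 1 + Cn + CmA by linarith) (fun l _ l1 => by linarith [D1 l l1])
    (fun l _ l1 => D3 l l1) hCmB hκB (Lb := fun R => Lb Cm κ R) (Cn := Cn) (by
      obtain ⟨ρ, hρ, H⟩ := hcodB'
      refine ⟨ρ, hρ, fun R hR hRρ hLb => H R hR hRρ (hLbm _ _ _ _ _ _ ?_ ?_ hLb)⟩
      · exact mul_le_mul_of_nonneg_right hCm2 hR.le
      · exact mul_le_mul_of_nonneg_right hκ2 hR.le) hκn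
    (fun l _ l1 => by linarith [D1 l (by omega)]) (by
      obtain ⟨ρ, hρ, H⟩ := hjt'
      refine ⟨ρ, hρ, fun R hR hRρ hLb => H R hR hRρ (hLbm _ _ _ _ _ _ ?_ ?_ hLb)⟩
      · exact mul_le_mul_of_nonneg_right hCm3 hR.le
      · exact mul_le_mul_of_nonneg_right hκ3 hR.le)
  obtain ⟨φ, hφ0, f1, f2, f3, f4, f5⟩ : ∃ φ : ℝ, 0 < φ ∧ φ ≤ φA / Nn ∧ φ ≤ φ₃ / Nn ∧ φ ≤ φB ∧
      φ ≤ φ₄ ∧ φ ≤ θ * ξ₀ := by
    refine ⟨min (min (φA / Nn) (φ₃ / Nn)) (min φB (min φ₄ (θ * ξ₀))), by positivity, ?_, ?_, ?_,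
      ?_, ?_⟩
    · exact (min_le_left _ _).trans (min_le_left _ _)
    · exact (min_le_left _ _).trans (min_le_right _ _)
    · exact (min_le_right _ _).trans (min_le_left _ _)
    · exact (min_le_right _ _).trans ((min_le_right _ _).trans (min_le_left _ _))
    · exact (min_le_right _ _).trans ((min_le_right _ _).trans (min_le_right _ _))
  refine ⟨Cm, κ, φ, min (min ρ₁ ρ₂) (min ρ₃ ρ₄), hCm0, hκ0, hφ0,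
    lt_min (lt_min hρ₁ hρ₂) (lt_min hρ₃ hρ₄), ?_⟩
  intro R hR hRρ hLb w hw R' j' x' j x hRR hRN w1 j2' x2' j2 x2 δW q' ξ' μ' ν' q ξ μ ν φ' p s N' N
    hφ' hξR' hνR' hμ' hν' hθq' hξR hνR hμ hν hθq hxC hQ hqq hqν hξξ hμμ
  have hR' : 0 < R' := by
    by_contra hc
    rw [not_lt] at hc
    have := mul_nonpos_of_nonneg_of_nonpos hNn.le hc
    linarith
  have r1 := hRρ.trans_le ((min_le_left _ _).trans (min_le_left _ _))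
  have r2 := hRρ.trans_le ((min_le_left _ _).trans (min_le_right _ _))
  have r3 := hRρ.trans_le ((min_le_right _ _).trans (min_le_left _ _))
  have r4 := hRρ.trans_le ((min_le_right _ _).trans (min_le_right _ _))
  have sc : ∀ {z a : ℝ}, 0 < z → a ≤ z / Nn → a * R ≤ z * R' := by
    intro z a hz ha
    have h1 : a * R ≤ z / Nn * R := mul_le_mul_of_nonneg_right ha hR.le
    have h2 : z / Nn * R ≤ z / Nn * (Nn * R') := mul_le_mul_of_nonneg_left hRN (by positivity)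
    have h3 : z / Nn * (Nn * R') = z * R' := by field_simp
    linarith
  have fA : φ' ≤ φA * R' := hφ'.trans (sc hφA f1)
  have f3' : φ' ≤ φ₃ * R' := hφ'.trans (sc hφ₃ f2)
  have fB : φ' ≤ φB * R := hφ'.trans (mul_le_mul_of_nonneg_right f3 hR.le)
  have f4' : φ' ≤ φ₄ * R := hφ'.trans (mul_le_mul_of_nonneg_right f4 hR.le)
  have fθ : φ' ≤ θ * ξ := by
    have h1 : φ' ≤ θ * ξ₀ * R := hφ'.trans (mul_le_mul_of_nonneg_right f5 hR.le)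
    have h2 := mul_le_mul_of_nonneg_left hξR a6.le
    linarith [mul_assoc θ ξ₀ R]
  have hLbA : Lb CmA κA R' := by
    refine hLbm _ _ _ _ _ _ ?_ (sc hκA hκ1) hLb
    have h1 : CmA * R' ≤ CmA * R := mul_le_mul_of_nonneg_left hRR hCmA.le
    have h2 : CmA * R ≤ Cm * R := mul_le_mul_of_nonneg_right hCm1 hR.le
    linarith
  have hvA : VfC S (yZT ((range 1).image c) (p₀ : ℝ) lam) c 1 (v + 1) w x' p
      (nB 1 p₀ sn w D' R') (nB 1 (lam + w) sn w D' R') (s (v + 1) + q') (s (v + 1) + q' + ξ')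
      (s (v + 1) + (q' + ξ' + μ' + ν') - w) (θ * ξ') := by
    refine vfC_mono (H1 R' hR' (hRR.trans_lt r1) w hw j' x' w1 x2' δW q' ξ' μ' ν' φ' p s D'
      (fun l _ l1 => ⟨D1' l l1.le, D3' l l1.le, D2' l l1⟩) N' fA) ?_
    rw [mul_assoc]
    exact mul_le_mul_of_nonneg_left hξR' a6.le
  have hvB : VfP S (yZT ((range 1).image c) (p₀ : ℝ) lam) c 1 v (2 * K + 1) w x p
      (nB 1 p₀ sn w D R) (nB 1 (lam + w) sn w D R) (s v + q) (s v + q + ξ)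
      (s v + (q + ξ + μ + ν) - w) (s (v + 1) + q) (s (v + 1) + q + ξ) (θ * ξ) := by
    refine vfP_mono (H2 R hR r2 w hw j x (by linarith) x2 δW q ξ μ ν φ' p s D
      (fun l _ l1 => ⟨by linarith [D1 l (by omega)], D3 l (by omega), D2 l (by omega)⟩) N fB hνR
      hxC) ?_
    rw [mul_assoc]
    exact mul_le_mul_of_nonneg_left hξR a6.le
  obtain ⟨X1, Y1⟩ := H3 R' hR' (hRR.trans_lt r3) hLbA w hw j' x' w1 j2' x2' δW q' ξ' μ' ν' φ' p s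
    N' f3' hξR' hνR' hvA
  obtain ⟨X2, Y2⟩ := H4 R hR r4 hLb w hw j x (by linarith) j2 x2 δW q ξ μ ν φ' p s
    N f4' hξR hνR hvB
  have hξ0' := N'.ξ0
  have hξ0 := N.ξ0
  have hq0 := N.q0
  have hν0 := N.ν0
  have hpv2 := (N.pc (v + 2) (by omega) le_rfl).1
  have hsv2 := N.sc (v + 2) (by omega) le_rfl
  have hpv1 := (N.pc (v + 1) (by omega) (by omega)).1
  have hsv1 := N.sc (v + 1) (by omega) (by omega)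
  have hsv := N.sc v hv (by omega)
  have hφν := N.φν
  have hφν' := N'.φν
  have hν0' := N'.ν0
  have hθξ := mul_pos a6 hξ0
  have hνq : ν ≤ q := by linarith
  have hDA : ∀ l, l ≤ v + 1 → D' l * R' ≤ CmA * R' := fun l l1 =>
    mul_le_mul_of_nonneg_right (D3' l l1) hR'.le
  have eQ : 2 * CmA * R' = CmA * R' + CmA * R' := by ring
  have hCR' : 0 < CmA * R' := by positivity
  refine HB X1 Y1 X2 Y2 (by positivity) le_rfl hμ' hν' ?_ le_rfl hθξ.le le_rfl hμ hν ?_ le_rfl ?_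
    hμμ hξξ hqq hqν ?_ ?_ ?_ ?_
  · show s (v + 2) + θ * ξ' ≤ p (v + 2) + q'
    linarith
  · linarith
  · linarith
  · intro l l1
    rcases Nat.eq_zero_or_pos l with rfl | l0
    · rw [nB_lt one_pos, nB_lt one_pos, nB_lt one_pos, nB_lt one_pos]
      exact ⟨le_rfl, le_rfl⟩
    · rw [nB_ge l0, nB_ge l0, nB_ge l0, nB_ge l0]
      have h1 := hDA l (by omega)
      have h2 : CmA * R' ≤ CmA * R := mul_le_mul_of_nonneg_left hRR hCmA.le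
      have h3 : CmA * R ≤ D l * R := mul_le_mul_of_nonneg_right (by linarith [D1 l (by omega)])
        hR.le
      constructor <;> linarith
  · rw [nB_ge hv, hsv]
    have h1 := hDA v (by omega)
    linarith
  · rw [nB_ge hv, hsv]
    have h1 := hDA v (by omega)
    linarith
  · rw [nB_ge (show 1 ≤ v + 1 by omega)]
    have h1 := hDA (v + 1) le_rfl
    linarith

end Pool.AVG50
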