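import Pool.Agent.H57.AVN.C2o
import Pool.Agent.H57.AVN.Cgs
import Pool.Agent.H6.STAT.RateC

/-!
# The closed gradient of the second place below the target, in a class

`c2_cls`: from the inputs of the two steps the conclusion `CGs`.
-/

set_option autoImplicit false

namespace Pool.AVG57

open Finset Real MvPolynomial
open Pool.Agent.H49.Ent Pool.Agent.H32.Dense Pool.STK Pool.KA Pool.KSAT Pool.K2S Pool.PB Pool.S6C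
open Pool.GEN Pool.CHT Pool.CHX Pool.ISO Pool.RCD Pool.LA91 Pool.AVG71 Pool.AVG5 Pool.D2F2
open Pool.PB.Trl (rt rt_mem t_rt)
open Pool.D2R (hgt gnh GrdE chs)
open Pool.KVA (MI)
open Pool.KAF (rs Pr)
open Pool.BFL (Pb)
open Pool.AVG66 (cRU cRU_nonneg cN cN_nonneg plW plW_eval plW_deg plW_coeff plW_of)

/-- **The closed gradient of the second place below the target**, in a class. -/
theorem c2_cls (v K : ℕ) {h ε : ℝ} (hh : 0 < h) (hh1 : h ≤ 1) (hε : 0 < ε) :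
    ∃ (κ₁ κ₂ ι θ : ℝ) (k₁ : ℕ), 0 < κ₁ ∧ κ₁ ≤ 1 ∧ 0 < κ₂ ∧ κ₂ ≤ 1 ∧ 0 < ι ∧ 0 < θ ∧ θ ≤ 1 ∧
      ∀ {m : ℕ} {γ₁ γ₂ : ∀ J : ℕ, Fam m J → Type} {S : PCl m}
        {y₁ : ∀ (J : ℕ) (F : Fam m J), F.Ω → γ₁ J F} {y₂ : ∀ (J : ℕ) (F : Fam m J), F.Ω → γ₂ J F}
        {c : ℕ → Fin m} {r₁ r₀ : ℕ} {w δW j' x' j x : ℝ}
        {p s n₁ n₁' nt₁ n n' nt nr : ℕ → ℝ} {q' ξ' μ' Nd₁ Nt₁ nb₁ : ℝ}
        {Df₁ Dn₁ Dx₁ Dd₁ : ℕ → ℕ → ℝ} {Ef₁ En₁ Nv₁ : ℕ → ℝ} {lo₁ hi₁ η₁ : ℝ}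
        {q ξ μ Nd Nt nb nbu Mu : ℝ} {Df Dn Dx Dd : ℕ → ℕ → ℝ} {Ef En Nv : ℕ → ℝ} {lo hi η : ℝ}
        (_ : C1N r₁ (v + 1) w δW p s n₁ n₁' nt₁ q' ξ' μ' Nd₁ Nt₁ nb₁ Df₁ Dn₁ Dx₁ Dd₁ Ef₁ En₁
          Nv₁)
        (_ : C1C S y₁ c r₁ (v + 1) K w j' x' p n₁ n₁' nt₁ Nd₁ Nt₁ nb₁ Df₁ Dn₁ Dx₁ Dd₁ Ef₁ En₁
          Nv₁ h lo₁ hi₁ η₁)
        (_ : C2N r₀ v w δW p s n n' nt nr q ξ μ Nd Nt nb nbu Mu Df Dn Dx Dd Ef En Nv)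
        (_ : C2C S y₂ c r₀ v (2 * K + 1) w j x p n n' nt nr Nd Nt nb nbu Mu Df Dn Dx Dd Ef En Nv
          h lo hi η),
        0 ≤ η₁ → η₁ ≤ θ * ξ' → μ' ≤ θ * ξ' → s (v + 2) + q' ≤ Nt₁ + θ * ξ' →
        lo₁ + θ * ξ' ≤ p (v + 2) + q' → s (v + 2) + q' + ξ' + θ * ξ' ≤ hi₁ →
        0 ≤ η → η ≤ θ * ξ → μ ≤ θ * ξ → s (v + 2) + q ≤ Nt + θ * ξ →
        lo + θ * ξ ≤ p (v + 2) + q → s (v + 2) + q + ξ + θ * ξ ≤ hi →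
        Mu ≤ p (v + 1) + q + θ * ξ → μ ≤ μ' → ξ < κ₁ * ξ' → q' + ξ' + μ' ≤ q →
        s (v + 2) + q' + ξ' ≤ Nt → (∀ l < v, n₁ l ≤ n l ∧ n₁' l ≤ n' l) → n₁ v ≤ nt v →
        n₁' v ≤ nt v → n₁' (v + 1) ≤ p (v + 1) + q →
        CGs S c v K w δW j' x' j x p s q' ξ' q ξ μ κ₂ ι k₁ ε := by
  -- the constants of the two steps
  obtain ⟨ε₁, hε₁⟩ : ∃ ε₁ : ℝ, ε₁ = min (ε / 2) (1 / 2) := ⟨_, rfl⟩
  have hε₁0 : 0 < ε₁ := by rw [hε₁]; exact lt_min (by positivity) (by norm_num)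
  have hε₁1 : ε₁ ≤ ε / 2 := by rw [hε₁]; exact min_le_left _ _
  have hε₁2 : ε₁ ≤ 1 / 2 := by rw [hε₁]; exact min_le_right _ _
  obtain ⟨κ₁, θ₁, k₁', c1, c2, c3, c4, H1⟩ := c1_clsL (v + 1) K hh hh1 hε₁0
  obtain ⟨κ₂, κ, π₀, ι, ε₀, k₁, j₀, X₀, a1, a2, a3, a4, a5, a6, a7, Hm⟩ :=
    n2_ev (2 * K + 2) (h / 2) (ε / 2) (by positivity) (by positivity)
  obtain ⟨A, hA⟩ : ∃ A : ℝ, A = aN v (2 * K + 2) := ⟨_, rfl⟩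
  have hA0 : 0 ≤ A := by rw [hA]; exact aN_nonneg v _
  obtain ⟨θ, hθ⟩ : ∃ θ : ℝ, θ = min θ₁ (min (min 1 (ι / 4)) (min (ι / (24 * (A + 2)))
    (h * κ / (32 * (3 + (3 + 4 * A) / π₀))))) := ⟨_, rfl⟩
  have hθ0 : 0 < θ := by
    rw [hθ]
    exact lt_min c3 (lt_min (lt_min one_pos (by positivity))
      (lt_min (by positivity) (by positivity)))
  have hθθ : θ ≤ θ₁ := by rw [hθ]; exact min_le_left _ _
  have hθr : θ ≤ min (min 1 (ι / 4)) (min (ι / (24 * (A + 2)))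
    (h * κ / (32 * (3 + (3 + 4 * A) / π₀)))) := by rw [hθ]; exact min_le_right _ _
  have hθ1 : θ ≤ 1 := hθr.trans ((min_le_left _ _).trans (min_le_left _ _))
  have hθ2 : θ ≤ ι / 4 := hθr.trans ((min_le_left _ _).trans (min_le_right _ _))
  have hθ3 : θ ≤ ι / (24 * (A + 2)) := hθr.trans ((min_le_right _ _).trans (min_le_left _ _))
  have hθ4 : θ ≤ h * κ / (32 * (3 + (3 + 4 * A) / π₀)) :=
    hθr.trans ((min_le_right _ _).trans (min_le_right _ _))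
  refine ⟨κ₁, κ₂, ι, θ, k₁, c1, c2, a1, a2, a6, hθ0, hθ1, ?_⟩
  intro m γ₁ γ₂ S y₁ y₂ c r₁ r₀ w δW j' x' j x p s n₁ n₁' nt₁ n n' nt nr q' ξ' μ' Nd₁ Nt₁ nb₁
    Df₁ Dn₁ Dx₁ Dd₁ Ef₁ En₁ Nv₁ lo₁ hi₁ η₁ q ξ μ Nd Nt nb nbu Mu Df Dn Dx Dd Ef En Nv lo hi η
    N1 C1 N C hη₁0 hη₁ hμ' hNt₁ hlo₁ hhi₁ hη0 hη hμ hNt hlo hhi hMu hμμ hκξ hqq hNR hn1 hn2 hn3
    hn4 E
  have S1 := H1 hθ0 hθθ N1.half C1 hη₁0 hη₁ hμ' hNt₁ hlo₁ hhi₁ E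
  have hξ := N.ξ0
  have hξ' := N1.ξ0
  have hw0 := N.w0
  have hδ := N.δ0
  have hμ0 := N.μ0
  have hμ0' := N1.μ0
  have hqr := N.q0
  have hqr' := N1.q0
  obtain ⟨t, ht⟩ : ∃ t : ℝ, t = θ * ξ := ⟨_, rfl⟩
  have ht0 : 0 < t := by rw [ht]; positivity
  rw [← ht] at hη hμ hNt hlo hhi hMu
  have hw1 : w + δW < 1 := by linarith [N.w1]
  obtain ⟨C₀, hC₀⟩ := C.tm
  -- the grid of the rows
  obtain ⟨Kg, hKg⟩ : ∃ Kg : ℕ, Kg = ⌈hi / (t / 2)⌉₊ + 1 := ⟨_, rfl⟩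
  obtain ⟨R, hR⟩ := exists_bdR2 v (2 * K + 1 + 2) w n n' nt nr nb nbu Mu Df Dn Dx Dd Ef En Nv
    (t / 2) Kg
  -- constants
  obtain ⟨Cc, hCc⟩ : ∃ Cc : ℝ, Cc = ((K + 1 : ℕ) + 1) * 2 ^ (K + 1) * (((K + 1 : ℕ) + 1) *
    2 ^ ((k₁' + 1) * (K + 1))) := ⟨_, rfl⟩
  have hCc0 : 0 ≤ Cc := by rw [hCc]; positivity
  obtain ⟨Cm, hCm⟩ : ∃ Cm : ℝ, Cm = Cc * (8 * (v + 2) + 2) := ⟨_, rfl⟩
  have hCm0 : 0 ≤ Cm := by rw [hCm]; positivity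
  obtain ⟨C₅, hC₅0, hC₅⟩ := n2_num v (K + 1) (2 * K + 2) (2 * K + 3) (eL := cP (v + 1) (K + 1))
    (Cm := Cm) (cP_nonneg _ _) hCm0
  obtain ⟨C₉, hC₉⟩ : ∃ C₉ : ℝ, C₉ = 2 * v * cS (2 * K + 2) / π₀ + cRw2 v (2 * K + 2) :=
    ⟨_, rfl⟩
  -- the second step on all large events
  obtain ⟨τ, hτ, S2⟩ := Pool.GEN.Bas.her ((alive_cls hC₀ j₀ (ε₀ := ε₀) (δ := δW / 4) (ψ := t) a7
    (by positivity) ht0).and (C.bas (kq R E (2 * K + 1 + 2) (2 * K + 1)) Kg E (η₁ := t)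
      (τ := t / 2) (π₀ := π₀) ht0 a5))
  -- large resolutions
  obtain ⟨J₀, bJ⟩ := N.big K
  obtain ⟨J₁, b1⟩ := big 2 (b := ξ / 2) (by positivity)
  obtain ⟨J₂, b2⟩ := big (X₀ : ℝ) (b := ξ / 2) (by positivity)
  obtain ⟨J₃, b3⟩ := big (24 * C₅) (b := ι * ξ) (by positivity)
  obtain ⟨J₄, b4⟩ := big (C₉ + C₅ + (4 * C₅ + 1) / π₀) (b := h * κ * ξ / 32) (by positivity)
  obtain ⟨J₅, b5⟩ := big 1 (b := κ * ξ / 4) (by positivity)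
  obtain ⟨J₆, b6⟩ := big 1 (b := τ) hτ
  obtain ⟨J₇, b7⟩ := big 2 (b := δW / 12) (by positivity)
  obtain ⟨J₈, b8⟩ := big (j₀ : ℝ) (b := 1 - (w + δW)) (by linarith)
  obtain ⟨J₉, b9⟩ := big 2 (b := t / 2) (by positivity)
  obtain ⟨I₁, d1⟩ := big 1 (b := κ₁ * ξ' - ξ) (by linarith)
  obtain ⟨Jm, hJm⟩ : ∃ Jm : ℕ, Jm = 1 + J₀ + J₁ + J₂ + J₃ + J₄ + J₅ + J₆ + J₇ + J₈ + J₉ + I₁ :=
    ⟨_, rfl⟩
  refine Bas.mono Jm (S1.and S2) ?_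
  rintro J hJ F B ⟨T1, her⟩ ks' nn' ks nn gm G H U Lb hGj' hGx' hks' hGj hGx hks grd' grd hgg hU
  have hJ1 : 1 ≤ J := by omega
  have hJ0 : (0 : ℝ) ≤ J := Nat.cast_nonneg J
  have Jn := bJ J (by omega)
  replace b1 := b1 J (by omega)
  replace b2 := b2 J (by omega)
  replace b3 := b3 J (by omega)
  replace b4 := b4 J (by omega)
  replace b5 := b5 J (by omega)
  replace b6 := b6 J (by omega)
  replace b7 := b7 J (by omega)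
  replace b8 := b8 J (by omega)
  replace b9 := b9 J (by omega)
  replace d1 := d1 J (by omega)
  have hU0 := grd.U0
  have hPB : 0 < Pe F.p B := by
    refine (her B (fun _ h => h) ?_).1.1
    have h1 : Real.exp (-(τ * J)) ≤ 1 := Real.exp_le_one_iff.2 (by
      have : 0 ≤ τ * J := by positivity
      linarith)
    have h2 := mul_le_mul_of_nonneg_right h1 (Pe_nonneg F.isLaw B)
    linarith
  -- the first step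
  have hUμ : U ≤ 2 ^ (μ' / 2 * J) := hU.trans (Real.rpow_le_rpow_of_exponent_le one_le_two
    (mul_le_mul_of_nonneg_right (by linarith) hJ0))
  obtain ⟨W₁, wW₁, W₁2, V₁, z₁, z₁c, mu₁, o1, o2, o3⟩ :=
    T1 ks' nn' gm G H U Lb hGj' hGx' hks' grd' hUμ
  obtain ⟨Lp, hLp⟩ : ∃ Lp, Lp = ncL F c (v + 1) ⌊q' * J⌋₊ ⌊w * J⌋₊ W₁ ⌊ξ' * J⌋₊ ⌊μ' * J⌋₊
    (K + 1) gm H z₁ (fun l => ⌊n₁ l * J⌋₊) (fun l => ⌊n₁' l * J⌋₊) := ⟨_, rfl⟩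
  rw [← hLp] at o3
  obtain ⟨Q, hQ⟩ : ∃ Q : F.Ω → Prop, Q = fun ω => (2 : ℝ) ^ (-(κ₁ * ⌊ξ' * J⌋₊)) <
    |gnh F c (v + 2) gm (G 0) (G nn') ω (v + 1) - (mu₁ (Lp ω)).eval (rt F W₁ ω)| := ⟨_, rfl⟩
  have o3' : Pb (Pool.Agent.H49.Ent.cond F.p B True) Q ≤ ε₁ := by
    rw [hQ]
    exact o3
  obtain ⟨B', hB'⟩ : ∃ B' : F.Ω → Prop, B' = fun ω => B ω ∧ ¬ Q ω := ⟨_, rfl⟩
  have hsub : Sub B' B := fun ω hω => by
    rw [hB'] at hω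
    exact hω.1
  have hPe : 1 / 2 * Pe F.p B ≤ Pe F.p B' := by
    rw [hB']
    exact pe_left hPB o3' hε₁2
  have hPB' : 0 < Pe F.p B' := lt_of_lt_of_le (by positivity) hPe
  have hexp : Real.exp (-(τ * J)) ≤ 1 / 2 := by
    have h1 : Real.exp (-(τ * J)) ≤ Real.exp (-1) := Real.exp_le_exp.2 (by linarith)
    have h2 : Real.exp (-1) ≤ 1 / 2 := by
      rw [Real.exp_neg, inv_le_comm₀ (Real.exp_pos 1) (by norm_num)]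
      have := Real.add_one_le_exp (1 : ℝ)
      linarith
    exact h1.trans h2
  obtain ⟨⟨-, hal⟩, CH1⟩ := her B' hsub
    ((mul_le_mul_of_nonneg_right hexp hPB.le).trans hPe)
  -- restrictions
  have Lb' := Lb.sub hsub
  have gj := clU_sub hGj hsub
  have gx := clU_sub hGx hsub
  have gr := grdE_sub grd hsub
  have z₁c' := z₁c.sub hsub
  -- floors
  have w1 : ((⌊w * J⌋₊ : ℕ) : ℝ) ≤ w * J := Nat.floor_le (by positivity)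
  have w2 : w * J ≤ (⌊w * J⌋₊ : ℕ) + 1 := (Nat.lt_floor_add_one _).le
  have q1 : ((⌊q * J⌋₊ : ℕ) : ℝ) ≤ q * J := Nat.floor_le (by positivity)
  have q2 : q * J ≤ (⌊q * J⌋₊ : ℕ) + 1 := (Nat.lt_floor_add_one _).le
  have q1' : ((⌊q' * J⌋₊ : ℕ) : ℝ) ≤ q' * J := Nat.floor_le (by positivity)
  have x1 : ((⌊ξ * J⌋₊ : ℕ) : ℝ) ≤ ξ * J := Nat.floor_le (by positivity)
  have x2 : ξ * J ≤ (⌊ξ * J⌋₊ : ℕ) + 1 := (Nat.lt_floor_add_one _).le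
  have x1' : ((⌊ξ' * J⌋₊ : ℕ) : ℝ) ≤ ξ' * J := Nat.floor_le (by positivity)
  have x2' : ξ' * J ≤ (⌊ξ' * J⌋₊ : ℕ) + 1 := (Nat.lt_floor_add_one _).le
  have m1 : ((⌊μ * J⌋₊ : ℕ) : ℝ) ≤ μ * J := Nat.floor_le (by positivity)
  have m2 : μ * J ≤ (⌊μ * J⌋₊ : ℕ) + 1 := (Nat.lt_floor_add_one _).le
  have m1' : ((⌊μ' * J⌋₊ : ℕ) : ℝ) ≤ μ' * J := Nat.floor_le (by positivity)
  have X2 : ξ * J / 2 ≤ (⌊ξ * J⌋₊ : ℕ) := by linarith only [b1, x2]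
  have tJ0 : 0 ≤ t * J := by positivity
  have mt : ((⌊μ * J⌋₊ : ℕ) : ℝ) ≤ t * J := by
    have := mul_le_mul_of_nonneg_right hμ hJ0
    linarith only [this, m1]
  have y1 : ∀ l ≤ v + 2, p l * J ≤ gm l + 1 := fun l hl => by
    have h1 := (Nat.lt_floor_add_one (p l * J)).le
    have h2 : ((⌊p l * J⌋₊ : ℕ) : ℝ) ≤ gm l := by exact_mod_cast Lb.lo l hl
    linarith only [h1, h2]
  have y2 : ∀ l ≤ v + 2, (gm l : ℝ) ≤ s l * J := fun l hl => Lb.hi l hl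
  have yv1 := y1 v (by omega)
  have yv2 := y2 v (by omega)
  have yu1 := y1 (v + 1) (by omega)
  have yu2 := y2 (v + 1) (by omega)
  have yt1 := y1 (v + 2) le_rfl
  have yt2 := y2 (v + 2) le_rfl
  -- the window
  obtain ⟨I₀, hI₀⟩ : ∃ I : ℕ, I = ⌊δW / 2 * J⌋₊ := ⟨_, rfl⟩
  have i01 : (I₀ : ℝ) ≤ δW / 2 * J := by rw [hI₀]; exact Nat.floor_le (by positivity)
  have i02 : δW / 2 * J ≤ I₀ + 1 := by rw [hI₀]; exact (Nat.lt_floor_add_one _).le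
  obtain ⟨I, hI⟩ : ∃ I : ℕ, I = ⌊δW / 3 * J⌋₊ := ⟨_, rfl⟩
  have i1 : (I : ℝ) ≤ δW / 3 * J := by rw [hI]; exact Nat.floor_le (by positivity)
  have i2 : δW / 3 * J ≤ I + 1 := by rw [hI]; exact (Nat.lt_floor_add_one _).le
  obtain ⟨i, hi', hT⟩ := hal (⌊w * J⌋₊ + I₀ + 2) I (by linarith only [b7, i2]) (by
    have : ((⌊w * J⌋₊ + I₀ + 2 + I + j₀ : ℕ) : ℝ) ≤ J := by
      push_cast
      linarith only [w1, i01, i1, b8, b7]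
    exact_mod_cast this)
  obtain ⟨W, hW⟩ : ∃ W : ℕ, W = ⌊w * J⌋₊ + I₀ + 2 + i := ⟨_, rfl⟩
  rw [← hW] at hT
  have wW : ⌊w * J⌋₊ ≤ W := by omega
  have W2 : (W : ℝ) ≤ (w + δW) * J := by
    have h1 : (i : ℝ) ≤ I := by exact_mod_cast hi'.le
    rw [hW]
    push_cast
    linarith only [h1, w1, i1, i01, b7]
  have WX : W + ⌊ξ * J⌋₊ ≤ J := by
    have h1 : (w + δW + ξ) * J ≤ 1 * J := mul_le_mul_of_nonneg_right N.w1.le hJ0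
    have : ((W + ⌊ξ * J⌋₊ : ℕ) : ℝ) ≤ J := by
      push_cast
      linarith only [h1, W2, x1]
    exact_mod_cast this
  have WJ : W ≤ J := by omega
  have W₁W : W₁ ≤ W := by
    have : (W₁ : ℝ) ≤ W := by
      have h1 : (0 : ℝ) ≤ i := Nat.cast_nonneg i
      rw [hW]
      push_cast
      linarith only [h1, W₁2, w2, i02]
    exact_mod_cast this
  -- the records
  obtain ⟨Vw, zw, zw1, zw2⟩ := mx0 (ptr F J) (vg w J F) B'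
  obtain ⟨Vj, zj, zj1, zj2⟩ := mx0 (ptr F J) (vg j J F) B'
  obtain ⟨Vx, zx, zx1, zx2⟩ := mx0 (ptr F J) (vg x J F) B'
  refine ⟨W, wW, W2, ?_⟩
  have hcl := isLaw_cond F.isLaw hPB'
  have hsup : ∀ ω, 0 < Pool.Agent.H49.Ent.cond F.p B' True ω → B' ω := fun ω hω => by
    have h1 := ((cond_pos_iff F.isLaw.nonneg B' True ω).mp hω).2
    exact of_eq_true h1
  -- the gradient of the first step
  obtain ⟨Um, hUm⟩ : ∃ Um : ℝ, Um = Cc * (U + 8 * ((v + 1) + 1 : ℕ) * U + 1) := ⟨_, rfl⟩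
  have hUm0 : 0 ≤ Um := by rw [hUm]; positivity
  have hUm1 : Um ≤ Cm * 2 ^ (μ / 2 * J) := by
    have k1 : (1 : ℝ) ≤ 2 ^ (μ / 2 * J) := Real.one_le_rpow (by norm_num) (by positivity)
    have k3 := mul_le_mul_of_nonneg_left hU (show (0 : ℝ) ≤ 8 * (v + 2) + 1 by positivity)
    have k4 : Cc * (8 * (v + 2) + 2) * (2 : ℝ) ^ (μ / 2 * J) =
        Cc * ((8 * (v + 2) + 2) * (2 : ℝ) ^ (μ / 2 * J)) := by ring
    rw [hUm, hCm, k4]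
    refine mul_le_mul_of_nonneg_left ?_ hCc0
    push_cast
    linarith only [k1, k3]
  have hXX' : ((⌊ξ * J⌋₊ : ℕ) : ℝ) ≤ κ₁ * (⌊ξ' * J⌋₊ : ℕ) := by
    have k1 := mul_le_mul_of_nonneg_left x2' c1.le
    linarith only [k1, x1, d1, c2]
  have hqX : ⌊q' * J⌋₊ + (⌊ξ' * J⌋₊ + ⌊μ' * J⌋₊) ≤ ⌊q * J⌋₊ := by
    refine Nat.le_floor ?_
    have := mul_le_mul_of_nonneg_right hqq hJ0
    push_cast
    linarith only [this, q1', x1', m1']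
  have hmg : ∀ ω, B' ω → |gnh F c (v + 2) gm (G 0) (G nn) ω (v + 1) -
      (plW F W₁ W (mu₁ (Lp ω)) ω).eval (rt F W ω)| ≤ (U + 1) / 2 ^ ⌊ξ * J⌋₊ := fun ω hω => by
    refine mg_le W₁W WJ _ ω (hgg ω (hsub ω hω)) ?_ hXX'
    rw [hB'] at hω
    have h1 := hω.2
    rw [hQ] at h1
    exact not_lt.1 h1
  have hLf := fun (𝓦 : Type) (Z : F.Ω → 𝓦) => ncL_lf (K := K) (v := v) (gm := gm) (c := c)
    (H := H) (q' := ⌊q' * J⌋₊) (X' := ⌊ξ' * J⌋₊) (mm' := ⌊μ' * J⌋₊) (q := ⌊q * J⌋₊)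
    (NV := ⌊nt v * J⌋₊) hcl wW₁ (W₁W.trans WJ) Lb.deg (nc := fun l => ⌊n l * J⌋₊)
    (nc' := fun l => ⌊n' l * J⌋₊) (nc₁ := fun l => ⌊n₁ l * J⌋₊)
    (nc₁' := fun l => ⌊n₁' l * J⌋₊) (z₁ := z₁) (zw := zw) (zw2 _ z₁ z₁c')
    (fun l hl => ⟨Nat.floor_le_floor (mul_le_mul_of_nonneg_right (hn1 l hl).1 hJ0),
      Nat.floor_le_floor (mul_le_mul_of_nonneg_right (hn1 l hl).2 hJ0)⟩)
    (Nat.floor_le_floor (mul_le_mul_of_nonneg_right hn2 hJ0))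
    (Nat.floor_le_floor (mul_le_mul_of_nonneg_right hn3 hJ0)) (by
      have h1 := mul_le_mul_of_nonneg_right hn4 hJ0
      have h2 : ((⌊n₁' (v + 1) * J⌋₊ : ℕ) : ℝ) ≤
          ((gm (v + 1) + ⌊q * J⌋₊ + 2 * (K + 1) : ℕ) : ℝ) := by
        rcases le_total 0 (n₁' (v + 1) * J) with h3 | h3
        · have h4 := Nat.floor_le h3
          have h5 : (0 : ℝ) ≤ K := Nat.cast_nonneg K
          push_cast
          linarith only [h1, h4, h5, yu1, q2]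
        · rw [Nat.floor_of_nonpos h3, Nat.cast_zero]
          exact Nat.cast_nonneg _
      exact_mod_cast h2) hqX 𝓦 Z
  rw [← hLp] at hLf
  have hLs : Det (Pool.Agent.H49.Ent.cond F.p B' True) (slam F W) Lp := by
    rw [hLp]
    exact ncL_L hsup wW₁ W₁W WJ z₁c'
  have hNR1 : gm (v + 2) + ⌊q' * J⌋₊ + ⌊ξ' * J⌋₊ ≤ gm (v + 2) + ⌊q * J⌋₊ + ⌊ξ * J⌋₊ := by omega
  have hNR3 : ((gm (v + 2) + ⌊q' * J⌋₊ + ⌊ξ' * J⌋₊ : ℕ) : ℝ) ≤ Nt * J := by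
    have := mul_le_mul_of_nonneg_right hNR hJ0
    push_cast
    linarith only [this, yt2, q1', x1']
  have P := N.n2e Jn CH1 Lb' hR hPB' ht0.le hη0 (C.yW J F) C.wj C.j1 C.wx C.x1 gj gx gr hU wW W2
    zw1 zw2 zj1 zj2 zx1 zx2 hNt hMu (Lp := Lp) (mC := fun ω => plW F W₁ W (mu₁ (Lp ω)) ω)
    (NR := gm (v + 2) + ⌊q' * J⌋₊ + ⌊ξ' * J⌋₊) (Um := Um) (eL := cP (v + 1) (K + 1)) hNR1 hNR3
    hUm0 (cP_nonneg _ _) (fun ω ν e1 e2 => by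
      rw [e2]
      exact plW_of F W₁W WJ _ e1) (fun ω => plW_deg F (o1 _) ω) (fun ω a => by
      refine (plW_coeff F W₁W WJ (o1 _) (fun b => o2 _ b) ω a).trans (le_of_eq ?_)
      rw [hUm, hCc]
      ring) hmg hLs hLf
  -- the numbers
  have hη' : (η + t) * J ≤ 2 * t * J := mul_le_mul_of_nonneg_right (by linarith only [hη]) hJ0
  have hη'0 : 0 ≤ (η + t) * J := by positivity
  obtain ⟨U', hU'⟩ : ∃ U' : ℝ, U' = U + (v + 2 : ℕ) * U + 4 * (U + 1) := ⟨_, rfl⟩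
  obtain ⟨e, he⟩ : ∃ e : ℝ, e = eN v (K + 1) (2 * K + 2) (2 * K + 3) (2 ^ (t * J))
    (((η + t) * J)) (cP (v + 1) (K + 1)) (cRU (2 * K + 2) (K + 1) Um) (t * J + 2) := ⟨_, rfl⟩
  obtain ⟨f1, f2⟩ := hC₅ (U := U) (Um := Um) (U' := U') (μ := μ) (t := t) (J := (J : ℝ))
    (η := (η + t) * J) (ρ := 2 ^ (t * J)) (fu := t * J + 2) hU0 hU hμ0.le hμ hJ0 hU' hUm0 hUm1
    hη' rfl rfl
  rw [← he, ← hA] at f1
  have hte : t * J ≤ e := by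
    have := fu_le_eN (v := v) (K₁ := K + 1) (K := 2 * K + 2) (M := 2 * K + 3) (ρ := 2 ^ (t * J))
      (η := (η + t) * J) (eL := cP (v + 1) (K + 1)) (eR := cRU (2 * K + 2) (K + 1) Um)
      (fu := t * J + 2) hη'0 (by positivity) (cP_nonneg _ _) (cRU_nonneg _ _ hUm0)
      (by positivity)
    rw [← he] at this
    linarith only [this]
  have hfX : κ * ξ * J / 4 ≤ (⌊κ * (⌊ξ * J⌋₊ : ℕ)⌋₊ : ℝ) := by
    have k1 := (Nat.lt_floor_add_one (κ * (⌊ξ * J⌋₊ : ℕ))).le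
    have k2 := mul_le_mul_of_nonneg_left X2 a3.le
    have k3 : κ * (ξ * J / 2) = κ * ξ * J / 4 + κ * ξ / 4 * J := by ring
    linarith only [k1, k2, k3, b5]
  obtain ⟨g1, g2, g3, g4, g5⟩ := c1_fin (J := J) (X := (⌊ξ * J⌋₊ : ℕ)) (mm := (⌊μ * J⌋₊ : ℕ))
    (fX := ⌊κ * (⌊ξ * J⌋₊ : ℕ)⌋₊)
    (T := 7 * e + cE0 1 (2 * K + 2) U' + 3 * cN (2 * K + 2) (((K + 1 : ℕ) + 1) * Um) +
      cV (2 * K + 2))
    (cRv := cR 1 (2 * K + 2) (U' + 2 + ((K + 1 : ℕ) + 1) * Um))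
    (R₀ := (1 - h) * ⌊κ * (⌊ξ * J⌋₊ : ℕ)⌋₊ * Real.log 2 + 2 * (t * J) + (2 * (t * J)) / π₀ +
      C₉) (C₇ := C₅) a6 a3 a5 hh hξ hθ0 ht hA0 hJ0 X2 mt hfX f1 f2 le_rfl hθ3 hθ2 hθ4 b3 b4 hC₅0
  have hXX : X₀ ≤ ⌊ξ * J⌋₊ := by
    have : (X₀ : ℝ) ≤ (⌊ξ * J⌋₊ : ℕ) := by linarith only [b2, X2]
    exact_mod_cast this
  have hN1 : ((gm v + ⌊q * J⌋₊ + ⌊ξ * J⌋₊ : ℕ) : ℝ) ≤ nb * J := by
    have := mul_le_mul_of_nonneg_right N.b0 hJ0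
    push_cast
    linarith only [this, yv2, q1, x1]
  have hN2 : nb * J ≤ ((gm v + ⌊q * J⌋₊ + (⌊ξ * J⌋₊ + ⌊μ * J⌋₊) : ℕ) : ℝ) := by
    have := Jn.g2
    push_cast
    linarith only [this, yv1, q2, x2, m2]
  have hN3 : Nv 0 * J + (⌊ξ * J⌋₊ : ℕ) ≤ nb * J := by
    have := mul_le_mul_of_nonneg_right N.b2 hJ0
    linarith only [this, x1]
  have hN4 : ((gm (v + 1) + ⌊q * J⌋₊ + ⌊ξ * J⌋₊ : ℕ) : ℝ) ≤ nbu * J := by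
    have := mul_le_mul_of_nonneg_right N.bu hJ0
    push_cast
    linarith only [this, yu2, q1, x1]
  obtain ⟨mu, p1, p2, p3⟩ := Hm P he hU' hN1 hN2 hN3 hN4 (fun a ha E' hE' => by
      have := CH1.hrow Lb' hR hPB' ht0 hη hh hh1 a5 hw0 (by linarith only [hw1, hδ]) hJ1 N.r0
        N.rv' N.ru zw1 zw2 P x1 q1 q2 yt1 yt2 b9 hlo hhi hKg _ a ha E' hE'
      rw [← hC₉] at this
      exact this) hT hXX WX hte g4 g3 g1 g2 g5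
  refine ⟨mu, p1, p2, ?_⟩
  have hPB2 : 0 < Pe F.p (fun ω => B ω ∧ ¬ Q ω) := by
    rw [← hB']
    exact hPB'
  rw [hB'] at p3
  have h3 := pb_split F.isLaw hPB hPB2 o3' p3
  refine h3.trans ?_
  linarith only [hε₁1]

end Pool.AVG57
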