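import Pool.Agent.H57.AVN.Pne

/-!
# Closed gradients on one event: two near places, the event theorem and the rows

`n2_ev`: the gradient of the target `v + 2` in the direction of the place `v` is closed. `row_ev2`: the
rows in the context of the average.
-/

set_option autoImplicit false

namespace Pool.AVG57

open Finset Real MvPolynomial
open Pool.Agent.H49.Ent Pool.Agent.H32.Dense Pool.STK Pool.KA Pool.KSAT Pool.K2S Pool.PB Pool.S6C
open Pool.GEN Pool.CHT Pool.CHX Pool.ISO Pool.RCD Pool.LA91 Pool.AVG71 Pool.AVG5 Pool.D2F2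
open Pool.PB.Trl (rt rt_mem t_rt)
open Pool.D2R (hgt gnh GrdE chs)
open Pool.KVA (MI)
open Pool.KAF (rs Pr)
open Pool.BFL (Pb)
open Pool.OWN68 (CH_chain2)
open Pool.AVG66 (RU cRU cRU_nonneg RU_deg RU_coeff RU_slam RU_cR RU_V Vu_few ac_u GrdN grdN_RU adN
  adN_ti adN_L PrN av1_evN cN)

/-- Values of a polynomial with bounded coefficients. -/
theorem pol_bd {P : Polynomial ℝ} {K k₁ : ℕ} {A : ℝ} (hd : P.natDegree ≤ K) (hA : 0 ≤ A)
    (hc : ∀ a, |P.coeff a| ≤ (K + 1) * 2 ^ ((k₁ + 1) * K) * A) (u : ℝ) :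
    |P.eval u| ≤ (K + 1) * (2 ^ (k₁ + 2) * (|u| + 1)) ^ K * A := by
  have hu : 0 ≤ |u| := abs_nonneg u
  have hK0 : (0 : ℝ) ≤ K := Nat.cast_nonneg K
  have hK1 : ((K : ℝ) + 1) ≤ 2 ^ K := by
    have : K + 1 ≤ 2 ^ K := K.lt_two_pow_self
    exact_mod_cast this
  have p1 : (0 : ℝ) < 2 ^ ((k₁ + 1) * K) := by positivity
  have p2 : (0 : ℝ) < (|u| + 1) ^ K := by positivity
  rw [AD.eval_fin hd]
  refine (Finset.abs_sum_le_sum_abs _ _).trans ?_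
  have h1 : ∀ a ∈ (univ : Finset (Fin (K + 1))), |P.coeff (a : ℕ) * u ^ (a : ℕ)| ≤
      (K + 1) * 2 ^ ((k₁ + 1) * K) * A * (|u| + 1) ^ K := by
    intro a _
    rw [abs_mul, abs_pow]
    refine mul_le_mul (hc a) ?_ (by positivity) (by positivity)
    calc |u| ^ (a : ℕ) ≤ (|u| + 1) ^ (a : ℕ) := pow_le_pow_left₀ hu (by linarith) _
      _ ≤ (|u| + 1) ^ K := pow_le_pow_right₀ (by linarith) (by have := a.isLt; omega)
  refine (Finset.sum_le_sum h1).trans ?_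
  rw [Finset.sum_const, Finset.card_univ, Fintype.card_fin, nsmul_eq_mul]
  push_cast
  have e1 : (2 ^ (k₁ + 2) * (|u| + 1)) ^ K = 2 ^ K * 2 ^ ((k₁ + 1) * K) * (|u| + 1) ^ K := by
    rw [mul_pow, ← pow_mul, ← pow_add]
    congr 2
    ring
  rw [e1]
  calc ((K : ℝ) + 1) * ((K + 1) * 2 ^ ((k₁ + 1) * K) * A * (|u| + 1) ^ K) =
        (K + 1) * ((K + 1) * (2 ^ ((k₁ + 1) * K) * (|u| + 1) ^ K)) * A := by ring
    _ ≤ (K + 1) * (2 ^ K * (2 ^ ((k₁ + 1) * K) * (|u| + 1) ^ K)) * A := by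
        refine mul_le_mul_of_nonneg_right (mul_le_mul_of_nonneg_left
          (mul_le_mul_of_nonneg_right hK1 (by positivity)) (by positivity)) hA
    _ = _ := by ring

/-- **Closed gradients on one event**: the moved place `v`, the near place `v + 1`, the target
`v + 2`. -/
theorem n2_ev (K : ℕ) (cc ε : ℝ) (hcc : 0 < cc) (hε : 0 < ε) :
    ∃ (κ₂ κ π₀ ι ε₀ : ℝ) (k₁ j₀ X₀ : ℕ), 0 < κ₂ ∧ κ₂ ≤ 1 ∧ 0 < κ ∧ κ ≤ 1 ∧ 0 < π₀ ∧ 0 < ι ∧
      0 < ε₀ ∧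
      ∀ {m J : ℕ} {F : Fam m J} {c : ℕ → Fin m} {r₀ v K₁ M q w W X mm D ks nn : ℕ} {wr : ℝ}
        {γ nc nc' : ℕ → ℕ} {B : F.Ω → Prop}
        {G : ℕ → PtT F → ℕ → MvPolynomial (Option (Fin m)) ℝ}
        {H : LnT F → ℕ → MvPolynomial (Option (Fin m)) ℝ} {ζ ρ₁ ρ₂ υ Λ : Type} {zw : F.Ω → ζ}
        {zj : F.Ω → ρ₁} {zx : F.Ω → ρ₂} {y : F.Ω → υ} {p : F.Ω → ℝ} {Lp : F.Ω → Λ}
        {mC : F.Ω → Polynomial ℝ} {n n' nt : ℕ → ℝ} {Nt nb nbu Mu : ℝ}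
        {Df Dn Dx Dd : ℕ → ℕ → ℝ} {Ef En Nv : ℕ → ℝ} {NP NV NR : ℕ} {U Um ρ fu eL η : ℝ}
        (_ : N2E F c r₀ v K₁ K M q w W X mm D ks nn wr γ nc nc' B G H zw zj zx y p Lp mC n n' nt
          Nt nb nbu Mu Df Dn Dx Dd Ef En Nv NP NV NR U Um ρ fu eL η)
        {Ur ψ e U' : ℝ}, e = eN v K₁ K M ρ η eL (cRU K K₁ Um) fu →
        U' = U + (v + 2 : ℕ) * U + 4 * (U + 1) →
        ((γ v + q + X : ℕ) : ℝ) ≤ nb * J → nb * J ≤ (γ v + q + (X + mm) : ℕ) →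
        Nv 0 * J + X ≤ nb * J → ((γ (v + 1) + q + X : ℕ) : ℝ) ≤ nbu * J →
        (∀ a : ℕ, a + ⌊κ * X⌋₊ ≤ X → ∀ E : Set F.Ω, π₀ ≤ Pr p E →
          CH (rs p E) (Mh F c (v + 2) w H (γ (v + 2) + q + (a + ⌊κ * X⌋₊)))
            (fun ω => (Mh F c (v + 2) w H (γ (v + 2) + q + a) ω, ((Vh F c v w H (nb * J) ω,
              Vh F c (v + 1) w H (nbu * J) ω),
                (F.T ω, zN F c v w W K K₁ H nc nc' NP zw Lp ω)))) ≤ Ur) →
        TimW F p W j₀ ε₀ ψ → X₀ ≤ X → W + X ≤ J → ψ * J ≤ e →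
        ψ * J ≤ ι * X * Real.log 2 → (mm : ℝ) ≤ ι * X →
        6 * (7 * e + cE0 1 K U' + 3 * cN K ((K₁ + 1) * Um) + cV K) ≤ ι * X →
        3 * (7 * e + cE0 1 K U' + 3 * cN K ((K₁ + 1) * Um) + cV K) + mm * Real.log 2 ≤
          ι * X * Real.log 2 →
        Ur + cR 1 K (U' + 2 + (K₁ + 1) * Um) + (4 * (7 * e + cE0 1 K U' +
          3 * cN K ((K₁ + 1) * Um) + cV K) + mm * Real.log 2 + Real.log 2) / π₀ ≤
            (1 - cc) * ⌊κ * X⌋₊ * Real.log 2 →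
        ∃ mu : LnT F → Polynomial ℝ, (∀ s, (mu s).natDegree ≤ K) ∧
          (∀ s (u : ℝ), |(mu s).eval u| ≤
            (K + 1) * (2 ^ k₁ * (|u| + 1)) ^ K * (2 : ℝ) ^ (ι * X)) ∧
          Pb p (fun ω => (2 : ℝ) ^ (-(κ₂ * X)) <
            |gnh F c (v + 2) γ (G 0) (G nn) ω v - (mu (slam F W ω)).eval (rt F W ω)|) ≤ ε := by
  classical
  obtain ⟨κ₂, κ, π₀, ι, ε₀, k₁, j₀, X₀, a1, a2, a3, a4, a5, a6, a7, Hm⟩ :=
    av1_evN K cc ε hcc hε
  refine ⟨κ₂, κ, π₀, ι, ε₀, k₁ + 2, j₀, X₀, a1, a2, a3, a4, a5, a6, a7, ?_⟩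
  intro m J F c r₀ v K₁ M q w W X mm D ks nn wr γ nc nc' B G H ζ ρ₁ ρ₂ υ Λ zw zj zx y p Lp mC n n'
    nt Nt nb nbu Mu Df Dn Dx Dd Ef En Nv NP NV NR U Um ρ fu eL η P Ur ψ e U' he hU' hN1 hN2 hNX
    hNu hrow hT hX hJ hψe hψ hmm n1 n2 n3
  have h0 := P.law.nonneg
  have hU := P.grd.U0
  have hmU : U' + 1 ≤ (2 : ℝ) ^ mm := by
    rw [hU']
    exact P.mU
  have hU0 : 0 ≤ U' := by
    rw [hU']
    have : (0 : ℝ) ≤ (v + 2 : ℕ) * U := by positivity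
    linarith
  have pr := P.prn hT (by rw [← he]; exact hψe)
  rw [← he, ← hU'] at pr
  have heN : Real.log 5 ≤ e := by
    have hη := P.η0
    have heL := P.eL0
    have hfu := P.fu0
    have hcS := cS_nonneg K
    have hcS₁ := cS_nonneg K₁
    have hcD := cD_nonneg K
    have hcD₁ := cD_nonneg K₁
    have hcL := cL_nonneg K
    have hcL₁ := cL_nonneg K₁
    have hcM := cM_nonneg K₁ M
    have hcQ := cQ_nonneg K₁ (2 * K₁)
    have hcR := cRU_nonneg K K₁ P.Um0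
    have hρl : 0 ≤ Real.log (2 * (ρ + 1) + 1) := Real.log_nonneg (by have := P.ρ0; linarith)
    have h5 : 0 ≤ Real.log 5 := Real.log_nonneg (by norm_num)
    have p1 : 0 ≤ ((v : ℝ) + 1) * (2 * η + 2 * cD K) := by positivity
    have p2 : 0 ≤ 4 * (v : ℝ) * cS K := by positivity
    have p3 : 0 ≤ ((v + 2 : ℕ) : ℝ) * (M + 1) * cM K₁ M := by positivity
    have p4 : 0 ≤ ((K : ℝ) + 1) * Real.log (2 * (ρ + 1) + 1) := by positivity
    rw [he]
    unfold eN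
    linarith
  obtain ⟨mu, m1, m2, m3⟩ := Hm pr (Ur := Ur) (ψ := ψ) (BR := (K₁ + 1) * Um) hN1 hN2 hNX
    (mul_nonneg (by positivity) P.Um0) (fun q' hq' hpos => by
      have b1 := Vu_few (F := F) (c := c) (u := v + 1) (q := q) (w := w) (W := W) (K := K₁)
        (N := NP) (D := D) (γ := γ) (H := H) hq' P.wW P.WJ P.deg P.DK P.NP0 (Nb := nbu * J)
        (le_trans (by push_cast; linarith [(Nat.cast_nonneg X : (0 : ℝ) ≤ X)]) hNu)
        (fun ω => (rt F W ω, zN F c v w W K K₁ H nc nc' NP zw Lp ω)) fun ω ν a b e => by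
          obtain ⟨e1, e2⟩ := Prod.ext_iff.mp e
          obtain ⟨e3, e4, e5⟩ := P.zc e2
          exact ⟨e3, e1, e5⟩
      refine b1.trans ?_
      linarith)
    (fun ω ν hω hν e1 e2 e3 => by
      obtain ⟨f1, f2, f3⟩ := P.zc e3
      exact RU_V P.wW P.WJ hNu (P.md ω) (P.mb ω) e1 f1 e2 f2 f3)
    hrow hT P.zs P.Rs hX hJ hψ hmm n1 n2 n3
  -- a function of the line
  have hL := adN_L (c := c) (mv := fun _ : Fin 1 => v) (i := v + 2) (q := q) (w := w) (X := X)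
    (mm := mm) (γ := γ) (gg := fun ω _ => gnh F c (v + 2) γ (G 0) (G nn) ω v) (H := H) p P.zs
    P.Rs K
  obtain ⟨L, hLd⟩ : ∃ L, L = (adN F c (fun _ : Fin 1 => v) (v + 2) q w W X mm γ
    (fun ω _ => gnh F c (v + 2) γ (G 0) (G nn) ω v) H (zN F c v w W K K₁ H nc nc' NP zw Lp)
    (RU F c (v + 1) q w W K₁ NP γ H mC)).L K := ⟨_, rfl⟩
  rw [← hLd] at hL m3
  obtain ⟨φ, hφ⟩ : ∃ φ : LnT F → Polynomial ℝ, φ = fun s =>
    if h : ∃ ω, 0 < p ω ∧ slam F W ω = s then mu (L h.choose) else 0 := ⟨_, rfl⟩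
  have hφ1 : ∀ ω, 0 < p ω → φ (slam F W ω) = mu (L ω) := by
    intro ω hω
    have h : ∃ ν, 0 < p ν ∧ slam F W ν = slam F W ω := ⟨ω, hω, rfl⟩
    rw [hφ]
    dsimp only
    rw [dif_pos h, hL _ _ h.choose_spec.1 hω h.choose_spec.2]
  have h2mm : (2 : ℝ) ^ mm ≤ 2 ^ (ι * X) := by
    rw [← Real.rpow_natCast]
    exact Real.rpow_le_rpow_of_exponent_le one_le_two hmm
  refine ⟨φ, fun s => ?_, fun s u => ?_, le_trans ?_ m3⟩
  · rw [hφ]
    dsimp only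
    split_ifs
    · exact m1 _
    · rw [Polynomial.natDegree_zero]
      exact Nat.zero_le _
  · rw [hφ]
    dsimp only
    have p1 : (0 : ℝ) ≤ (K + 1) * (2 ^ (k₁ + 2) * (|u| + 1)) ^ K := by positivity
    split_ifs with h
    · refine (pol_bd (m1 _) (by linarith : 0 ≤ U' + 1) (m2 _) u).trans ?_
      exact mul_le_mul_of_nonneg_left (hmU.trans h2mm) p1
    · rw [Polynomial.eval_zero, abs_zero]
      positivity
  · unfold Pb
    refine Finset.sum_le_sum fun ω _ => ?_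
    by_cases hω : 0 < p ω
    · have e1 := hφ1 ω hω
      refine le_of_eq ?_
      simp only [e1]
    · have : p ω = 0 := le_antisymm (not_lt.1 hω) (h0 ω)
      rw [this]
      split_ifs <;> exact le_rfl

/-! ### The rows -/

section

variable {m J : ℕ} {F : Fam m J} {c : ℕ → Fin m} {r₀ v K₁ K D W w : ℕ}
  {H : LnT F → ℕ → MvPolynomial (Option (Fin m)) ℝ} {ζ υ Λ : Type} {zw : F.Ω → ζ} {y : F.Ω → υ}
  {Lp : F.Ω → Λ} {p : F.Ω → ℝ} {nc nc' : ℕ → ℕ} {NP : ℕ}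

/-- The constant of the rows. -/
noncomputable def cRw2 (v K : ℕ) : ℝ := 2 * Real.log (2 * 2 + 1) + (v + 2) * cS K

/-- **The rows** in the context of the average, for one law. -/
theorem row_ev2 (hp : IsLaw p) (hw : w ≤ J) (WJ : W ≤ J) (hH : ∀ s l, (H s l).totalDegree ≤ D)
    (hK : D + 1 ≤ K) {n : ℕ → ℝ} {nb nbu P₁ P₂ : ℝ} {N₁ N₂ : ℕ}
    (hn : ∀ l < v, n l * J ≤ nc l + 1) (h1 : P₁ * J ≤ N₁) (h2 : (N₂ : ℝ) ≤ P₂ * J) :
    CH p (Mh F c (v + 2) w H N₂) (fun ω => (Mh F c (v + 2) w H N₁ ω,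
      ((Vh F c v w H (nb * J) ω, Vh F c (v + 1) w H (nbu * J) ω),
        (F.T ω, zN F c v w W K K₁ H nc nc' NP zw Lp ω)))) ≤
      CH p (fun ω => ⌊(2 : ℝ) ^ (P₂ * J) * ojet F (c (v + 2)) 0 (H (slam F w ω) (v + 2)) ω⌋)
        (fun ω => (⌊(2 : ℝ) ^ (P₁ * J) * ojet F (c (v + 2)) 0 (H (slam F w ω) (v + 2)) ω⌋,
          (jetM F c w H r₀ (v + 2) 0 (fun l _ => if l < v then n l else if l = v then nb else
            nbu) ω, (zw ω, y ω)))) +
      CH p y (fun ω => (rt F W ω, zN F c v w W K K₁ H nc nc' NP zw Lp ω)) + cRw2 v K := by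
  have h0 := hp.nonneg
  obtain ⟨W₀, hW₀⟩ : ∃ W₀ : F.Ω → _, W₀ = fun ω =>
    (Mh F c (v + 2) w H N₁ ω, ((Vh F c v w H (nb * J) ω, Vh F c (v + 1) w H (nbu * J) ω),
        (F.T ω, zN F c v w W K K₁ H nc nc' NP zw Lp ω))) := ⟨_, rfl⟩
  have hW : ∀ ω ν, W₀ ω = W₀ ν → Mh F c (v + 2) w H N₁ ω = Mh F c (v + 2) w H N₁ ν ∧
      Vh F c v w H (nb * J) ω = Vh F c v w H (nb * J) ν ∧
      Vh F c (v + 1) w H (nbu * J) ω = Vh F c (v + 1) w H (nbu * J) ν ∧ F.T ω = F.T ν ∧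
      zN F c v w W K K₁ H nc nc' NP zw Lp ω = zN F c v w W K K₁ H nc nc' NP zw Lp ν := by
    intro ω ν e
    rw [hW₀] at e
    obtain ⟨e1, e2⟩ := Prod.ext_iff.mp e
    obtain ⟨e3, e4⟩ := Prod.ext_iff.mp e2
    obtain ⟨e5, e6⟩ := Prod.ext_iff.mp e3
    obtain ⟨e7, e8⟩ := Prod.ext_iff.mp e4
    exact ⟨e1, e5, e6, e7, e8⟩
  rw [← hW₀]
  obtain ⟨N', hN'⟩ : ∃ N' : ℕ → ℕ → ℝ, N' = fun l _ => if l < v then n l else if l = v then nb
    else nbu := ⟨_, rfl⟩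
  rw [← hN']
  -- the digits of the target, finer
  have b1 : CH p (Mh F c (v + 2) w H N₂)
      (fun ω => (⌊(2 : ℝ) ^ (P₂ * J) * ojet F (c (v + 2)) 0 (H (slam F w ω) (v + 2)) ω⌋, W₀ ω)) ≤
      Real.log (2 * 2 + 1) := by
    refine CH_pair_int hp _ _ (by norm_num) fun ω ν _ _ e => ?_
    have e1 := (Prod.ext_iff.mp e).1
    unfold Mh
    refine fl_low (Real.rpow_pos_of_pos two_pos (P₂ * J)) (by positivity) ?_ e1
    rw [← Real.rpow_natCast]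
    exact Real.rpow_le_rpow_of_exponent_le one_le_two h2
  have b2 : CH p (fun ω => ⌊(2 : ℝ) ^ (P₁ * J) * ojet F (c (v + 2)) 0
      (H (slam F w ω) (v + 2)) ω⌋) W₀ ≤ Real.log (2 * 2 + 1) := by
    refine CH_pair_int hp _ _ (by norm_num) fun ω ν _ _ e => ?_
    have e1 := (hW ω ν e).1
    unfold Mh at e1
    refine fl_low (s := (2 : ℝ) ^ N₁) (by positivity) (by positivity) ?_ e1
    rw [← Real.rpow_natCast]
    exact Real.rpow_le_rpow_of_exponent_le one_le_two h1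
  -- the heights of the chain
  have b3 : CH p (jetM F c w H r₀ (v + 2) 0 N') W₀ ≤ (v + 2) * cS K := by
    have k1 := CH_near hp (fun ω (i : Fin (v + 2)) => jetM F c w H r₀ (v + 2) 0
      N' ω i 0) W₀ (D := 2 * ((K + 1) * 2 ^ K) + 1)
      (by positivity) fun ω ν hω hν e i => ?_
    · refine (CH_mono_left h0 fun ω ν _ _ e => ?_).trans (k1.trans (le_of_eq ?_))
      · have e1 := (Prod.ext_iff.mp e).1
        funext l j'
        by_cases h : r₀ ≤ l ∧ l < v + 2 ∧ j' ≤ 0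
        · have hj : j' = 0 := by omega
          rw [hj]
          exact congrFun e1 ⟨l, h.2.1⟩
        · unfold jetM
          rw [if_neg h, if_neg h]
      · rw [Fintype.card_fin]
        unfold cS
        push_cast
        ring
    · obtain ⟨-, e3, e4, e5, e6⟩ := hW ω ν e
      obtain ⟨-, -, -, e8, -⟩ := zN_eq e6
      unfold jetM
      by_cases h : r₀ ≤ (i : ℕ) ∧ (i : ℕ) < v + 2 ∧ 0 ≤ 0
      swap
      · rw [if_neg h, if_neg h, sub_self, abs_zero]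
        positivity
      rw [if_pos h, if_pos h, hN']
      dsimp only
      rcases Nat.lt_or_ge (i : ℕ) v with hi | hi
      · rw [if_pos hi]
        refine floor_near' ?_
        have g1 := ojet_near F hw (natDegree_dvH (c := c) (w := w) hH hK i) (rt_of F hw e5)
          (a := 0) (δ := 1 / 2 ^ nc i) (by positivity) fun b hb hbK =>
            cod_near (sdL_fst e8 hi) hb hbK
        simp only [Nat.factorial_zero, Nat.cast_one, pow_zero, mul_one, one_mul] at g1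
        have p3 : (0 : ℝ) < (2 : ℝ) ^ (n i * J) := Real.rpow_pos_of_pos two_pos _
        rw [← mul_sub, abs_mul, abs_of_pos p3]
        have g2 : (2 : ℝ) ^ (n i * J) ≤ 2 ^ nc i * 2 := by
          rw [← pow_succ, ← Real.rpow_natCast]
          refine Real.rpow_le_rpow_of_exponent_le one_le_two ?_
          push_cast
          exact hn i hi
        calc _ ≤ (2 : ℝ) ^ nc i * 2 * ((K + 1) * 2 ^ K * (1 / 2 ^ nc i)) :=
              mul_le_mul g2 g1 (abs_nonneg _) (by positivity)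
          _ = 2 * ((K + 1) * 2 ^ K) := by field_simp
      · rw [if_neg (by omega)]
        have hi' : (i : ℕ) = v ∨ (i : ℕ) = v + 1 := by omega
        rcases hi' with hi' | hi'
        · rw [if_pos hi']
          have e9 : ⌊(2 : ℝ) ^ (nb * J) * ojet F (c i) 0 (H (slam F w ω) i) ω⌋ =
              ⌊(2 : ℝ) ^ (nb * J) * ojet F (c i) 0 (H (slam F w ν) i) ν⌋ := by
            rw [hi']
            exact e3
          rw [e9, sub_self, abs_zero]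
          positivity
        · rw [if_neg (by omega)]
          have e9 : ⌊(2 : ℝ) ^ (nbu * J) * ojet F (c i) 0 (H (slam F w ω) i) ω⌋ =
              ⌊(2 : ℝ) ^ (nbu * J) * ojet F (c i) 0 (H (slam F w ν) i) ν⌋ := by
            rw [hi']
            exact e4
          rw [e9, sub_self, abs_zero]
          positivity
  have b4 : CH p y W₀ ≤ CH p y (fun ω => (rt F W ω,
      zN F c v w W K K₁ H nc nc' NP zw Lp ω)) := by
    refine CH_mono_cond h0 fun ω ν _ _ e => ?_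
    obtain ⟨-, -, -, e5, e6⟩ := hW ω ν e
    exact Prod.ext (rt_of F WJ e5) e6
  have c1 := CH_via h0 (Mh F c (v + 2) w H N₂) (fun ω => ⌊(2 : ℝ) ^ (P₂ * J) *
    ojet F (c (v + 2)) 0 (H (slam F w ω) (v + 2)) ω⌋) (W := W₀) le_rfl b1 fun _ _ _ _ e => e
  have c2 := CH_subadd h0 (jetM F c w H r₀ (v + 2) 0 N') y W₀
  have c3 := CH_subadd h0 (fun ω => ⌊(2 : ℝ) ^ (P₁ * J) * ojet F (c (v + 2)) 0
      (H (slam F w ω) (v + 2)) ω⌋) (fun ω => (jetM F c w H r₀ (v + 2) 0 N' ω, y ω)) W₀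
  have c4 := CH_via h0 (fun ω => ⌊(2 : ℝ) ^ (P₂ * J) *
    ojet F (c (v + 2)) 0 (H (slam F w ω) (v + 2)) ω⌋) (fun ω => (⌊(2 : ℝ) ^ (P₁ * J) *
    ojet F (c (v + 2)) 0 (H (slam F w ω) (v + 2)) ω⌋, (jetM F c w H r₀ (v + 2) 0 N' ω, y ω)))
      (W := W₀) (W' := fun ω =>
      (⌊(2 : ℝ) ^ (P₁ * J) * ojet F (c (v + 2)) 0 (H (slam F w ω) (v + 2)) ω⌋,
          (jetM F c w H r₀ (v + 2) 0 N' ω, (zw ω, y ω)))) le_rfl le_rfl (fun ω ν _ _ e => by
      obtain ⟨e1, e2⟩ := Prod.ext_iff.mp e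
      obtain ⟨e3, e4⟩ := Prod.ext_iff.mp e1
      obtain ⟨e5, e6⟩ := Prod.ext_iff.mp e4
      obtain ⟨-, -, -, -, e7⟩ := hW ω ν e2
      exact Prod.ext e3 (Prod.ext e5 (Prod.ext (zN_eq e7).2.2.1 e6)))
  unfold cRw2
  linarith

end

end Pool.AVG57
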