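import Pool.Agent.H57.AVN.C2s
import Pool.Agent.H57.AVN.Pnf
import Pool.Agent.H57.AVG.C1g

/-!
# The inputs of a class on one event: two near places

`C2H`: the statements `C2C` at one event, with the finest records. `C2C.bas`: they hold at the events
of the class. `C2H.ev`: the values `C2E` for closed charts. `C2H.rows`: the rows on the parts.
-/

set_option autoImplicit false

namespace Pool.AVG57

open Finset Real MvPolynomial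
open Pool.Agent.H49.Ent Pool.Agent.H32.Dense Pool.STK Pool.KA Pool.KSAT Pool.K2S Pool.PB Pool.S6C
open Pool.GEN Pool.CHT Pool.CHX Pool.ISO Pool.RCD Pool.LA91 Pool.AVG71 Pool.AVG5 Pool.D2F2
open Pool.AVG96 (jetQ prQ MIw)
open Pool.GRD (LbP)
open Pool.PB.Trl (rt rt_mem t_rt)
open Pool.D2R (hgt gnh GrdE chs)
open Pool.KVA (MI)
open Pool.KAF (rs Pr)
open Pool.BFL (Pb)

variable {m : ℕ} {γ : ∀ J : ℕ, Fam m J → Type}

/-- **The statements on one event.** -/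
structure C2H (y : ∀ (J : ℕ) (F : Fam m J), F.Ω → γ J F) (c : ℕ → Fin m) (r₀ v K K₀ : ℕ)
    (w j x : ℝ) (p n n' nt nr : ℕ → ℝ) (Nd Nt nb nbu Mu : ℝ) (Df Dn Dx Dd : ℕ → ℕ → ℝ)
    (Ef En Nv : ℕ → ℝ) (E h lo hi η η₁ τ π₀ : ℝ) (Kg J : ℕ) (F : Fam m J) (B : F.Ω → Prop) :
    Prop where
  yf : ∀ u, (jetQ m c 0 r₀ w p (nd n n' w)).P K₀ 0 J F B u → ∃ (V₁ : Type) (z₁ : F.Ω → V₁),
    Cl2 (ptr F J) (vg w J F) B z₁ ∧
      CH (Pool.Agent.H49.Ent.cond F.p B True) (y J F) (fun ω => (u ω, (z₁ ω, F.W ω))) ≤ η * J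
  y0 : ∀ l < r₀, CdE y c l K 0 K₀ w w (p l) (n l) η E (Qt.fn fun _ _ _ => ()) J F B
  y1 : ∀ l < r₀, CdE y c l K 1 K₀ w w (p l) (n' l) η E (Qt.fn fun _ _ _ => ()) J F B
  mj : ∀ (V₁ V₂ : Type) (z : F.Ω → V₁) (zv : F.Ω → V₂), Mx (fun J F => ptr F J) (vg w) 0 F B z →
    Mx (fun J F => ptr F J) (vg j) 0 F B zv → ∀ a b,
    ((jetQ m c r₀ (v + 2) w p Df).prod (prQ m c (v + 2) w (p (v + 2)) Ef)).P K₀ 0 J F B a →
    ((jetQ m c r₀ (v + 2) w p Dn).prod (prQ m c (v + 2) w (p (v + 2)) En)).P K₀ 0 J F B b →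
    MI (Pool.Agent.H49.Ent.cond F.p B True) zv a (fun ω => (b ω, (z ω, y J F ω))) ≤ (η + η₁) * J
  mx : ∀ (V₁ V₂ : Type) (z : F.Ω → V₁) (zv : F.Ω → V₂), Mx (fun J F => ptr F J) (vg w) 0 F B z →
    Mx (fun J F => ptr F J) (vg x) 0 F B zv → ∀ a b,
    (jetQ m c r₀ (v + 2) w p Df).P K₀ 0 J F B a → (jetQ m c r₀ (v + 2) w p Dx).P K₀ 0 J F B b →
    MI (Pool.Agent.H49.Ent.cond F.p B True) zv a (fun ω => (b ω, (z ω, y J F ω))) ≤ (η + η₁) * J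
  cd : ∀ l < v + 2, r₀ ≤ l → CdE y c l K 2 K₀ w w (p l) (n' l) η E
    (jetQ m c r₀ l w p (nd n n' w)) J F B
  dj : CdE y c (v + 2) K 1 K₀ w w (p (v + 2)) Nd η E (jetQ m c r₀ (v + 2) w p Dd) J F B
  jt : CdE y c (v + 2) K 0 K₀ w x (p (v + 2)) Nt η E
    (qJets m c r₀ (v + 2) (K + 2) (fun _ _ => w) (fun l _ => p l)
      (fun l j' => nt l - (j' : ℝ) * w)) J F B
  vf : ∀ (V₁ V₂ : Type) (z : F.Ω → V₁) (zx : F.Ω → V₂), Mx (fun J F => ptr F J) (vg w) 0 F B z →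
    Mx (fun J F => ptr F J) (vg x) 0 F B zx → ∀ u₀ a b d g bu,
    (jetQ m c r₀ v w p (nd n n' w)).P K₀ 0 J F B u₀ →
    (qJet m ((range v).image c) (c v) 0 w (p v) (Nv 0)).P K₀ 0 J F B a →
    (qJet m ((range v).image c) (c v) 0 w (p v) nb).P K₀ 0 J F B b →
    (qJet m ((range v).image c) (c v) 1 w (p v) (Nv 1)).P K₀ 0 J F B d →
    (qJets m c (v + 1) (v + 2) (K + 2) (fun _ _ => w) (fun l _ => p l)
      (fun _ j' => Mu - (j' : ℝ) * w)).P K₀ 0 J F B g →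
    (qJet m ((range (v + 1)).image c) (c (v + 1)) 0 w (p (v + 1)) nbu).P K₀ 0 J F B bu →
    (((nb - Nv 0) + (nbu - Mu)) * Real.log 2 - η) * J ≤
      CH (Pool.Agent.H49.Ent.cond F.p B True) (fun ω => (b ω, bu ω))
      (fun ω => (a ω, (d ω, (g ω, (zx ω, (z ω, (u₀ ω, y J F ω)))))))
  row : ∀ k₁ < Kg, ∀ k₂ < Kg, lo ≤ τ * k₁ → τ * k₁ ≤ τ * k₂ → τ * k₂ ≤ hi →
    ∀ (V : Type) (z : F.Ω → V), Mx (fun J F => ptr F J) (vg w) 0 F B z → ∀ u u₁ u₂,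
      (qJets m c r₀ (v + 2) 0 (fun _ _ => w) (fun l _ => p l)
        (fun l _ => nr l)).P K₀ 0 J F B u →
      (qJet m ((range (v + 2)).image c) (c (v + 2)) 0 w (p (v + 2)) (τ * k₁)).P K₀ 0 J F B u₁ →
      (qJet m ((range (v + 2)).image c) (c (v + 2)) 0 w (p (v + 2)) (τ * k₂)).P K₀ 0 J F B u₂ →
      ∀ B' : F.Ω → Prop, Sub B' B → π₀ * Pe F.p B ≤ Pe F.p B' →
      CH (Pool.Agent.H49.Ent.cond F.p B' True) u₂
        (fun ω => (u₁ ω, (u ω, (z ω, y J F ω)))) ≤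
        ((1 - h) * (τ * k₂ - τ * k₁) * Real.log 2 + η) * J

section

variable {S : PCl m} {y : ∀ (J : ℕ) (F : Fam m J), F.Ω → γ J F} {c : ℕ → Fin m} {r₀ v K : ℕ}
  {w j x : ℝ} {p n n' nt nr : ℕ → ℝ} {Nd Nt nb nbu Mu : ℝ} {Df Dn Dx Dd : ℕ → ℕ → ℝ}
  {Ef En Nv : ℕ → ℝ} {h lo hi η : ℝ}

/-- **The statements on the events of the class.** -/
theorem C2C.bas (C : C2C S y c r₀ v K w j x p n n' nt nr Nd Nt nb nbu Mu Df Dn Dx Dd Ef En Nv h lo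
      hi η) (K₀ Kg : ℕ) (E : ℝ) {η₁ τ π₀ : ℝ} (hη₁ : 0 < η₁) (hπ₀ : 0 < π₀) :
    Bas S (fun J F B => C2H y c r₀ v K K₀ w j x p n n' nt nr Nd Nt nb nbu Mu Df Dn Dx Dd Ef En Nv E
      h lo hi η η₁ τ π₀ Kg J F B) := by
  obtain ⟨e₁, he₁, a1⟩ := C.yf
  obtain ⟨k₂, hk₂, e₂, he₂, a2⟩ := C.mj η₁ hη₁
  obtain ⟨k₃, hk₃, e₃, he₃, a3⟩ := C.mx η₁ hη₁
  obtain ⟨k₄, hk₄, e₄, he₄, a4⟩ := C.vf
  have b1 := Bas.all r₀ fun l hl => (C.y0 l hl).ev K₀ E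
  have b2 := Bas.all r₀ fun l hl => (C.y1 l hl).ev K₀ E
  have b3 : Bas S (fun J F B => ∀ l < v + 2, r₀ ≤ l → CdE y c l K 2 K₀ w w (p l) (n' l) η E
      (jetQ m c r₀ l w p (nd n n' w)) J F B) := Bas.all (v + 2) fun l hl => by
    by_cases hr : r₀ ≤ l
    · exact ((C.cd l hr (by omega)).ev K₀ E).mono 0 fun J _ F B H _ => H
    · exact ⟨1, one_pos, 0, fun _ _ _ _ _ h => absurd h hr⟩
  have b4 := C.dj.ev K₀ E
  have b5 := C.jt.ev K₀ E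
  have b6 : Bas S (fun J F B => ∀ k₁ < Kg, ∀ k₂ < Kg, lo ≤ τ * k₁ → τ * k₁ ≤ τ * k₂ →
      τ * k₂ ≤ hi → ∀ (V : Type) (z : F.Ω → V), Mx (fun J F => ptr F J) (vg w) 0 F B z →
      ∀ u u₁ u₂, (qJets m c r₀ (v + 2) 0 (fun _ _ => w) (fun l _ => p l)
        (fun l _ => nr l)).P K₀ 0 J F B u →
      (qJet m ((range (v + 2)).image c) (c (v + 2)) 0 w (p (v + 2)) (τ * k₁)).P K₀ 0 J F B u₁ →
      (qJet m ((range (v + 2)).image c) (c (v + 2)) 0 w (p (v + 2)) (τ * k₂)).P K₀ 0 J F B u₂ →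
      ∀ B' : F.Ω → Prop, Sub B' B → π₀ * Pe F.p B ≤ Pe F.p B' →
      CH (Pool.Agent.H49.Ent.cond F.p B' True) u₂
        (fun ω => (u₁ ω, (u ω, (z ω, y J F ω)))) ≤
        ((1 - h) * (τ * k₂ - τ * k₁) * Real.log 2 + η) * J) := by
    refine Bas.all Kg fun k₁ _ => Bas.all Kg fun k₂ _ => ?_
    by_cases h1 : lo ≤ τ * k₁ ∧ τ * k₁ ≤ τ * k₂ ∧ τ * k₂ ≤ hi
    swap
    · exact ⟨1, one_pos, 0, fun _ _ _ _ _ g1 g2 g3 => absurd ⟨g1, g2, g3⟩ h1⟩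
    obtain ⟨k, hk, e₀, he₀, H⟩ := C.row (τ * k₁) (τ * k₂) h1.1 h1.2.1 h1.2.2 π₀ hπ₀
    refine (H K₀).mono 0 ?_
    intro J _ F B H _ _ _ V z hz u u₁ u₂ hu hu₁ hu₂ B' hB' hPB
    exact H V z (Mx.up hz hk.le) u u₁ u₂ (Qt.mono _ le_rfl he₀.le hu)
      (Qt.mono _ le_rfl he₀.le hu₁) (Qt.mono _ le_rfl he₀.le hu₂) B' hB' hPB
  refine Bas.mono 0 ((((a1 K₀).and (b1.and b2)).and ((a2 K₀).and (a3 K₀))).and
    ((b3.and (b4.and b5)).and ((a4 K₀).and b6))) ?_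
  rintro J - F B ⟨⟨⟨q1, q2, q3⟩, q4, q5⟩, ⟨q6, q7, q8⟩, q9, q10⟩
  refine ⟨fun u hu => q1 u (Qt.mono _ le_rfl he₁.le hu), q2, q3,
    fun V₁ V₂ z zv hz hzv a b ha hb => q4 V₁ V₂ z zv (Mx.up hz hk₂.le) (Mx.up hzv hk₂.le) a b
      (Qt.mono _ le_rfl he₂.le ha) (Qt.mono _ le_rfl he₂.le hb),
    fun V₁ V₂ z zv hz hzv a b ha hb => q5 V₁ V₂ z zv (Mx.up hz hk₃.le) (Mx.up hzv hk₃.le) a b
      (Qt.mono _ le_rfl he₃.le ha) (Qt.mono _ le_rfl he₃.le hb), q6, q7, q8,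
    fun V₁ V₂ z zx hz hzx u₀ a b d g bu hu ha hb hd hg hbu => q9 V₁ V₂ z zx (Mx.up hz hk₄.le)
      (Mx.up hzx hk₄.le) u₀ a b d g bu (Qt.mono _ le_rfl he₄.le hu) (Qt.mono _ le_rfl he₄.le ha)
      (Qt.mono _ le_rfl he₄.le hb) (Qt.mono _ le_rfl he₄.le hd) (Qt.mono _ le_rfl he₄.le hg)
      (Qt.mono _ le_rfl he₄.le hbu), q10⟩

end

/-! ### The bound of the digits -/

theorem BdR.mono {v M : ℕ} {w : ℝ} {n n' nt : ℕ → ℝ} {nb : ℝ} {Df Dn Dx Dd : ℕ → ℕ → ℝ}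
    {Ef En Nv : ℕ → ℝ} {τ : ℝ} {Kg : ℕ} {R R' : ℝ}
    (D : BdR v M w n n' nt nb Df Dn Dx Dd Ef En Nv τ Kg R) (h : R ≤ R') :
    BdR v M w n n' nt nb Df Dn Dx Dd Ef En Nv τ Kg R' where
  nd := fun l hl i hi => (D.nd l hl i hi).trans h
  Df := fun l hl i hi => (D.Df l hl i hi).trans h
  Dn := fun l hl i hi => (D.Dn l hl i hi).trans h
  Dx := fun l hl i hi => (D.Dx l hl i hi).trans h
  Dd := fun l hl i hi => (D.Dd l hl i hi).trans h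
  Ef := fun i hi => (D.Ef i hi).trans h
  En := fun i hi => (D.En i hi).trans h
  Nv := fun i hi => (D.Nv i hi).trans h
  nt := fun l hl i hi => (D.nt l hl i hi).trans h
  n := fun l hl => (D.n l hl).trans h
  nb := D.nb.trans h
  P := fun k hk => (D.P k hk).trans h

/-- **A bound of all digits.** -/
structure BdR2 (v M : ℕ) (w : ℝ) (n n' nt nr : ℕ → ℝ) (nb nbu Mu : ℝ) (Df Dn Dx Dd : ℕ → ℕ → ℝ)
    (Ef En Nv : ℕ → ℝ) (τ : ℝ) (Kg : ℕ) (R : ℝ) : Prop where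
  bd : BdR (v + 1) M w n n' nt nb Df Dn Dx Dd Ef En Nv τ Kg R
  nbu : |nbu| ≤ R
  Mu : ∀ j' ≤ M, |Mu - (j' : ℝ) * w| ≤ R
  nr : ∀ l ≤ v + 2, |nr l| ≤ R

/-- **There is a bound.** -/
theorem exists_bdR2 (v M : ℕ) (w : ℝ) (n n' nt nr : ℕ → ℝ) (nb nbu Mu : ℝ)
    (Df Dn Dx Dd : ℕ → ℕ → ℝ) (Ef En Nv : ℕ → ℝ) (τ : ℝ) (Kg : ℕ) :
    ∃ R : ℝ, BdR2 v M w n n' nt nr nb nbu Mu Df Dn Dx Dd Ef En Nv τ Kg R := by
  obtain ⟨R, hR⟩ := exists_bdR (v + 1) M w n n' nt nb Df Dn Dx Dd Ef En Nv τ Kg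
  obtain ⟨a, ha⟩ : ∃ a : ℝ, a = bdN (fun _ i => Mu - (i : ℝ) * w) 1 M := ⟨_, rfl⟩
  obtain ⟨b, hb⟩ : ∃ b : ℝ, b = bdN (fun l _ => nr l) (v + 3) 0 := ⟨_, rfl⟩
  have h1 := bdN_nonneg (fun _ i => Mu - (i : ℝ) * w) 1 M
  have h2 := bdN_nonneg (fun l _ => nr l) (v + 3) 0
  have h3 := abs_nonneg nbu
  have h4 := abs_nonneg R
  have h5 := le_abs_self R
  refine ⟨|R| + |nbu| + a + b, hR.mono (by linarith), by linarith, fun i hi => ?_,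
    fun l hl => ?_⟩
  · have := le_bdN (fun _ i => Mu - (i : ℝ) * w) (a := 1) (l := 0) one_pos hi
    linarith
  · have := le_bdN (fun l _ => nr l) (a := v + 3) (i := 0) (Nat.lt_succ_of_le hl) (le_refl 0)
    linarith

section

variable {y : ∀ (J : ℕ) (F : Fam m J), F.Ω → γ J F} {c : ℕ → Fin m} {r₀ v K : ℕ}
  {w j x : ℝ} {p s n n' nt nr : ℕ → ℝ} {Nd Nt nb nbu Mu : ℝ} {Df Dn Dx Dd : ℕ → ℕ → ℝ}
  {Ef En Nv : ℕ → ℝ} {E h lo hi η η₁ τ π₀ R : ℝ} {Kg J : ℕ} {F : Fam m J} {B : F.Ω → Prop}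
  {γl : ℕ → ℕ} {G₀ : PtT F → ℕ → MvPolynomial (Option (Fin m)) ℝ}
  {H : LnT F → ℕ → MvPolynomial (Option (Fin m)) ℝ}

/-- **The values for closed charts.** -/
theorem C2H.ev (C : C2H y c r₀ v K (kq R E (K + 2) K) w j x p n n' nt nr Nd Nt nb nbu Mu Df Dn Dx
      Dd Ef En Nv E h lo hi η η₁ τ π₀ Kg J F B) (L : LbsE F c (v + 1) K w p s E γl B G₀ H)
    (D : BdR2 v (K + 2) w n n' nt nr nb nbu Mu Df Dn Dx Dd Ef En Nv τ Kg R) (hr : r₀ ≤ v)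
    (hw0 : 0 ≤ w) (hw1 : w ≤ 1) (hJ : 1 ≤ J) (hp : 0 < Pe F.p B) (hη₁ : 0 ≤ η₁)
    (hn : ∀ l ≤ v + 1, 0 ≤ n l) (hn' : ∀ l ≤ v + 1, 0 ≤ n' l)
    (hy : ∃ φ : γ J F → F.ζ × ℕ, ∀ ω, φ (y J F ω) = (F.Z ω, F.T ω)) {g : ℕ}
    (hg : (g : ℝ) ≤ Nd * J) {Vw Vj Vx : Type} {zw : F.Ω → Vw} {zj : F.Ω → Vj} {zx : F.Ω → Vx}
    (hw' : Cl2 (ptr F J) (vg w J F) B zw)
    (hw : ∀ (V' : Type) (z' : F.Ω → V'), Cl2 (ptr F J) (vg w J F) B z' →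
      ∀ ω ν, zw ω = zw ν → z' ω = z' ν)
    (hj' : Cl2 (ptr F J) (vg j J F) B zj)
    (hj : ∀ (V' : Type) (z' : F.Ω → V'), Cl2 (ptr F J) (vg j J F) B z' →
      ∀ ω ν, zj ω = zj ν → z' ω = z' ν)
    (hx' : Cl2 (ptr F J) (vg x J F) B zx)
    (hx : ∀ (V' : Type) (z' : F.Ω → V'), Cl2 (ptr F J) (vg x J F) B z' →
      ∀ ω ν, zx ω = zx ν → z' ω = z' ν) :
    C2E F c r₀ v (K + 1) (K + 2) w ⌊w * J⌋₊ g (fun l => ⌊n l * J⌋₊) (fun l => ⌊n' l * J⌋₊) H zw zj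
      zx (y J F) (Pool.Agent.H49.Ent.cond F.p B True) n n' nt Nt nb nbu Mu Df Dn Dx Dd Ef En Nv
      ((η + η₁) * J) := by
  have hcl := isLaw_cond F.isLaw hp
  have h0 := hcl.nonneg
  have hJ0 : (0 : ℝ) ≤ J := Nat.cast_nonneg J
  have hη : η * J ≤ (η + η₁) * J := mul_le_mul_of_nonneg_right (by linarith) hJ0
  have m1 : 1 ≤ K + 2 := by omega
  have jq : ∀ {a b : ℕ} {N : ℕ → ℕ → ℝ}, b ≤ v + 3 → (∀ l ≤ v + 2, ∀ j' ≤ K + 2, |N l j'| ≤ R) →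
      (jetQ m c a b w p N).P (kq R E (K + 2) K) 0 J F B (jet2 F c ⌊w * J⌋₊ H a b N) :=
    fun hb hN => L.jets1 hw0 hw1 hJ hb m1 (fun l _ h2 j' h3 => hN l (by omega) j' (by omega)) le_rfl
  have pq : ∀ {l : ℕ} {N : ℕ → ℝ}, l ≤ v + 2 → (∀ j' ≤ K + 2, |N j'| ≤ R) →
      (prQ m c l w (p l) N).P (kq R E (K + 2) K) 0 J F B (pr2 F c ⌊w * J⌋₊ H l N) :=
    fun hb hN => L.pr hw0 hw1 hJ hb m1 (fun j' h3 => hN j' (by omega)) le_rfl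
  have mxw := mx_fine (f := fun J F => ptr F J) hw' hw
  have mxj := mx_fine (f := fun J F => ptr F J) hj' hj
  have mxx := mx_fine (f := fun J F => ptr F J) hx' hx
  have cN : ∀ {N : ℕ → ℝ} {l : ℕ}, 0 ≤ N l → (0 : ℝ) < 2 ^ ⌊N l * J⌋₊ ∧
      (2 : ℝ) ^ ⌊N l * J⌋₊ ≤ 2 ^ (N l * J) := by
    intro N l hN
    refine ⟨by positivity, ?_⟩
    rw [← Real.rpow_natCast]
    exact Real.rpow_le_rpow_of_exponent_le one_le_two (Nat.floor_le (by positivity))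
  refine ⟨?_, ?_, fun l hl => ?_, fun l hl => ?_, fun l l0 l1 => ?_, ?_, ?_, ?_, ?_, ?_⟩
  · intro ω ν e
    obtain ⟨φ, hφ⟩ := hy
    have h1 : (F.Z ω, F.T ω) = (F.Z ν, F.T ν) := by rw [← hφ ω, ← hφ ν, e]
    exact ⟨(Prod.ext_iff.mp h1).1, (Prod.ext_iff.mp h1).2⟩
  · obtain ⟨V₁, z₁, g1, g2⟩ := C.yf _ (jq (a := 0) (b := r₀) (by omega) D.bd.nd)
    refine ((CH_mono_cond h0 fun ω ν _ _ e => ?_).trans g2).trans hη
    simp only [Prod.mk.injEq] at e ⊢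
    exact ⟨e.1, hw _ _ g1 ω ν e.2.1, e.2.2⟩
  · obtain ⟨s1, s2⟩ := cN (N := n) (hn l (by omega))
    have h1 := (C.y0 l hl).val L (by omega) (u₀ := fun _ => ()) (fun _ _ => rfl) hp hw s1 s2
    rw [cod_eq] at h1
    refine ((CH_mono_cond h0 fun ω ν _ _ e => ?_).trans h1).trans hη
    exact Prod.ext rfl e
  · obtain ⟨s1, s2⟩ := cN (N := n') (hn' l (by omega))
    have h1 := (C.y1 l hl).val L (by omega) (u₀ := fun _ => ()) (fun _ _ => rfl) hp hw s1 s2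
    rw [cod_eq] at h1
    refine ((CH_mono_cond h0 fun ω ν _ _ e => ?_).trans h1).trans hη
    exact Prod.ext rfl e
  · obtain ⟨s1, s2⟩ := cN (N := n') (hn' l l1)
    have h1 := (C.cd l (by omega) l0).val L (by omega)
      (jq (a := r₀) (b := l) (by omega) D.bd.nd) hp hw s1 s2
    rw [cod_eq] at h1
    exact h1.trans hη
  · exact C.mj _ _ zw zj mxw mxj _ _ ⟨jq (a := r₀) (b := v + 2) (by omega) D.bd.Df,
      pq le_rfl D.bd.Ef⟩ ⟨jq (a := r₀) (b := v + 2) (by omega) D.bd.Dn, pq le_rfl D.bd.En⟩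
  · exact C.mx _ _ zw zx mxw mxx _ _ (jq (a := r₀) (b := v + 2) (by omega) D.bd.Df)
      (jq (a := r₀) (b := v + 2) (by omega) D.bd.Dx)
  · have s1 : (0 : ℝ) < 2 ^ g := by positivity
    have s2 : (2 : ℝ) ^ g ≤ 2 ^ (Nd * J) := by
      rw [← Real.rpow_natCast]
      exact Real.rpow_le_rpow_of_exponent_le one_le_two hg
    have h1 := C.dj.val L le_rfl (jq (a := r₀) (b := v + 2) (by omega) D.bd.Dd) hp hw s1 s2
    rw [cod_eq] at h1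
    exact h1.trans hη
  · have h1 := C.jt.val L le_rfl (L.jets (r₀ := r₀) (r := v + 2) (a := K + 2) (M := K + 2)
      (N := fun l j' => nt l - (j' : ℝ) * w) hw0 hw1 hJ (by omega) le_rfl
      (fun l _ h2 j' h3 => D.bd.nt l (by omega) j' h3) le_rfl) hp hx
      (Real.rpow_pos_of_pos two_pos (Nt * J)) le_rfl
    exact h1.trans hη
  · have h1 := C.vf _ _ zw zx mxw mxx _ _ _ _ _ _ (jq (a := r₀) (b := v) (by omega) D.bd.nd)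
      (L.jet hw0 hw1 hJ (by omega) (Nat.zero_le (K + 2)) (D.bd.Nv 0 (by omega)) le_rfl
        fun _ _ => rfl)
      (L.jet hw0 hw1 hJ (by omega) (Nat.zero_le (K + 2)) D.bd.nb le_rfl fun _ _ => rfl)
      (L.jet hw0 hw1 hJ (by omega) m1 (D.bd.Nv 1 m1) le_rfl fun _ _ => rfl)
      (L.jets (r₀ := v + 1) (r := v + 2) (a := K + 2) (M := K + 2)
        (N := fun _ j' => Mu - (j' : ℝ) * w) hw0 hw1 hJ (by omega) le_rfl
        (fun l _ _ j' h3 => D.Mu j' h3) le_rfl)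
      (L.jet hw0 hw1 hJ (by omega) (Nat.zero_le (K + 2)) D.nbu le_rfl fun _ _ => rfl)
    have h2 : ((nb - Nv 0) + (nbu - Mu)) * Real.log 2 * J - (η + η₁) * J ≤
      (((nb - Nv 0) + (nbu - Mu)) * Real.log 2 - η) * J := by
      have : 0 ≤ η₁ * J := by positivity
      linarith
    exact h2.trans h1

/-- **The rows.** -/
theorem C2H.rows (C : C2H y c r₀ v K (kq R E (K + 2) K) w j x p n n' nt nr Nd Nt nb nbu Mu Df Dn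
      Dx Dd Ef En Nv E h lo hi η η₁ τ π₀ Kg J F B) (L : LbsE F c (v + 1) K w p s E γl B G₀ H)
    (D : BdR2 v (K + 2) w n n' nt nr nb nbu Mu Df Dn Dx Dd Ef En Nv τ Kg R)
    (hw0 : 0 ≤ w) (hw1 : w ≤ 1) (hJ : 1 ≤ J) {Vw : Type} {zw : F.Ω → Vw}
    (hw' : Cl2 (ptr F J) (vg w J F) B zw)
    (hw : ∀ (V' : Type) (z' : F.Ω → V'), Cl2 (ptr F J) (vg w J F) B z' →
      ∀ ω ν, zw ω = zw ν → z' ω = z' ν) {k₁ k₂ : ℕ} (h1 : k₁ < Kg) (h2 : k₂ < Kg)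
    (h3 : lo ≤ τ * k₁) (h4 : τ * k₁ ≤ τ * k₂) (h5 : τ * k₂ ≤ hi) {B' : F.Ω → Prop}
    (hB' : Sub B' B) (hP : π₀ * Pe F.p B ≤ Pe F.p B')
    (r0 : ∀ l < v, nr l = n l) (rv' : nr v = nb) (ru : nr (v + 1) = nbu) :
    CH (Pool.Agent.H49.Ent.cond F.p B' True)
      (fun ω => ⌊(2 : ℝ) ^ (τ * k₂ * J) * ojet F (c (v + 2)) 0
        (H (slam F ⌊w * J⌋₊ ω) (v + 2)) ω⌋)
      (fun ω => (⌊(2 : ℝ) ^ (τ * k₁ * J) * ojet F (c (v + 2)) 0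
        (H (slam F ⌊w * J⌋₊ ω) (v + 2)) ω⌋, (jetM F c ⌊w * J⌋₊ H r₀ (v + 2) 0
          (fun l _ => if l < v then n l else if l = v then nb else nbu) ω,
            (zw ω, y J F ω)))) ≤
      ((1 - h) * (τ * k₂ - τ * k₁) * Real.log 2 + η) * J := by
  have e1 : jetM F c ⌊w * J⌋₊ H r₀ (v + 2) 0 (fun l _ => if l < v then n l else if l = v then nb
      else nbu) = jetM F c ⌊w * J⌋₊ H r₀ (v + 2) 0 (fun l _ => nr l) := by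
    funext ω l j'
    unfold jetM
    by_cases hl : r₀ ≤ l ∧ l < v + 2 ∧ j' ≤ 0
    · rw [if_pos hl, if_pos hl]
      have e2 : (if l < v then n l else if l = v then nb else nbu) = nr l := by
        rcases Nat.lt_or_ge l v with hlv | hlv
        · rw [if_pos hlv, r0 l hlv]
        · rw [if_neg (by omega)]
          by_cases hlv' : l = v
          · rw [if_pos hlv', hlv', rv']
          · rw [if_neg hlv']
            have : l = v + 1 := by omega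
            rw [this, ru]
      dsimp only
      rw [e2]
    · rw [if_neg hl, if_neg hl]
  rw [e1]
  exact C.row k₁ h1 k₂ h2 h3 h4 h5 _ zw (mx_fine (f := fun J F => ptr F J) hw' hw) _ _ _
    (L.jets hw0 hw1 hJ (by omega) (Nat.zero_le (K + 2)) (fun l _ h2 j' _ =>
      D.nr l (by omega)) le_rfl)
    (L.jet hw0 hw1 hJ le_rfl (Nat.zero_le (K + 2)) (D.bd.P k₁ h1) le_rfl fun _ _ => rfl)
    (L.jet hw0 hw1 hJ le_rfl (Nat.zero_le (K + 2)) (D.bd.P k₂ h2) le_rfl fun _ _ => rfl) B' hB' hP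

end

end Pool.AVG57
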