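import Pool.Agent.H57.AVN.C2h
import Pool.Agent.H57.AVG.C1h

/-!
# The numbers of the class theorem: two near places

`n2_num`: the total error. `LbsE.sub`, `ClU.sub`, `GrdE.sub`: smaller events. `LbsE.up`: larger
degrees. `C1N.half`: half of the windows. `pb_split`: two bad events. `C2J`: large resolutions.
-/

set_option autoImplicit false

namespace Pool.AVG57

open Finset Real MvPolynomial
open Pool.Agent.H49.Ent Pool.Agent.H32.Dense Pool.STK Pool.KA Pool.KSAT Pool.K2S Pool.PB Pool.S6C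
open Pool.GEN Pool.CHT Pool.CHX Pool.ISO Pool.RCD Pool.LA91 Pool.AVG71 Pool.AVG5 Pool.D2F2
open Pool.PB.Trl (rt rt_mem t_rt)
open Pool.D2R (hgt gnh GrdE chs)
open Pool.KVA (MI)
open Pool.KAF (rs Pr)
open Pool.BFL (Pb)
open Pool.AVG66 (cRU cRU_nonneg cN cN_nonneg)

/-- The logarithm of a bound. -/
theorem log_b {E C a : ℝ} (hE : 0 < E) (hC : 0 < C) (ha : 0 ≤ a) (h : E ≤ C * 2 ^ a) :
    Real.log E ≤ Real.log C + a := by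
  have h1 := Real.log_le_log hE h
  rw [Real.log_mul hC.ne' (Real.rpow_pos_of_pos two_pos _).ne', Real.log_rpow two_pos] at h1
  have h2 := mul_le_mul_of_nonneg_left log2_le ha
  linarith

/-- The factor of the total error. -/
noncomputable def aN (v K : ℕ) : ℝ :=
  84 * (2 + 4 * ((v : ℝ) + 1) + 2 * ((K : ℝ) + 1) + 1) + 2 + 3 * ((K : ℝ) + 1)

theorem aN_nonneg (v K : ℕ) : 0 ≤ aN v K := by
  unfold aN
  positivity

/-- **The total error.** -/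
theorem n2_num (v K₁ K M : ℕ) {eL Cm : ℝ} (heL : 0 ≤ eL) (hCm : 0 ≤ Cm) :
    ∃ C : ℝ, 0 ≤ C ∧ ∀ {U Um U' μ t J η ρ fu : ℝ}, 0 ≤ U → U ≤ 2 ^ (μ / 2 * J) → 0 ≤ μ →
      μ ≤ t → 0 ≤ J → U' = U + (v + 2 : ℕ) * U + 4 * (U + 1) → 0 ≤ Um →
      Um ≤ Cm * 2 ^ (μ / 2 * J) → η ≤ 2 * t * J → ρ = 2 ^ (t * J) → fu = t * J + 2 →
      7 * eN v K₁ K M ρ η eL (cRU K K₁ Um) fu + cE0 1 K U' + 3 * cN K ((K₁ + 1) * Um) + cV K ≤
        aN v K * (t * J) + C ∧ cR 1 K (U' + 2 + (K₁ + 1) * Um) ≤ t * J + C := by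
  have hv : (0 : ℝ) ≤ v := Nat.cast_nonneg v
  have hK : (0 : ℝ) ≤ K := Nat.cast_nonneg K
  have hK₁ : (0 : ℝ) ≤ K₁ := Nat.cast_nonneg K₁
  -- the constants of the logarithms
  obtain ⟨c₁, hc₁⟩ : ∃ c₁ : ℝ, c₁ = 2 * ((K₁ + 1) * Cm + 1) + 1 := ⟨_, rfl⟩
  obtain ⟨c₂, hc₂⟩ : ∃ c₂ : ℝ, c₂ = 2 * ((v : ℝ) + 12) + 1 := ⟨_, rfl⟩
  obtain ⟨c₃, hc₃⟩ : ∃ c₃ : ℝ, c₃ = 2 * ((v : ℝ) + 12 + 4 * (1 : ℕ) + 2 * ((K + 1) *
    ((1 : ℕ) + 1)) + 1) + 1 := ⟨_, rfl⟩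
  obtain ⟨c₄, hc₄⟩ : ∃ c₄ : ℝ, c₄ = 2 * (2 * ((K₁ + 1) * Cm) + 2) + 1 := ⟨_, rfl⟩
  obtain ⟨c₅, hc₅⟩ : ∃ c₅ : ℝ, c₅ = 2 * ((v : ℝ) + 12 + 2 + (K₁ + 1) * Cm + 2 * ((K + 1) *
    ((1 : ℕ) + 1)) + 4) + 1 := ⟨_, rfl⟩
  have hKC : 0 ≤ (K₁ + 1) * Cm := by positivity
  have p1 : 0 < c₁ := by rw [hc₁]; positivity
  have p2 : 0 < c₂ := by rw [hc₂]; positivity
  have p3 : 0 < c₃ := by rw [hc₃]; positivity
  have p4 : 0 < c₄ := by rw [hc₄]; positivity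
  have p5 : 0 < c₅ := by rw [hc₅]; positivity
  have l1 : 0 ≤ Real.log c₁ := Real.log_nonneg (by rw [hc₁]; linarith)
  have l2 : 0 ≤ Real.log c₂ := Real.log_nonneg (by rw [hc₂]; linarith)
  have l3 : 0 ≤ Real.log c₃ := Real.log_nonneg (by
    rw [hc₃]
    have : (0 : ℝ) ≤ 2 * (((K : ℝ) + 1) * ((1 : ℕ) + 1)) := by positivity
    have : (0 : ℝ) ≤ 4 * ((1 : ℕ) : ℝ) := by positivity
    linarith)
  have l4 : 0 ≤ Real.log c₄ := Real.log_nonneg (by rw [hc₄]; linarith)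
  have l5 : 0 ≤ Real.log c₅ := Real.log_nonneg (by
    rw [hc₅]
    have : (0 : ℝ) ≤ 2 * (((K : ℝ) + 1) * ((1 : ℕ) + 1)) := by positivity
    linarith)
  have hcS := cS_nonneg K
  have hcS₁ := cS_nonneg K₁
  have hcD := cD_nonneg K
  have hcD₁ := cD_nonneg K₁
  have hcL := cL_nonneg K
  have hcL₁ := cL_nonneg K₁
  have hcM := cM_nonneg K₁ M
  have hcQ := cQ_nonneg K₁ (2 * K₁)
  have hcA := cA_nonneg K
  have hcJ := Pool.AVG5.cJ_nonneg K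
  have hcV := cV_nonneg K
  have l6 : 0 ≤ Real.log (2 * (2 * (K : ℝ) + 5) + 1) := Real.log_nonneg (by linarith)
  obtain ⟨C₁, hC₁⟩ : ∃ C₁ : ℝ, C₁ = 84 * (((v : ℝ) + 1) * (2 * cD K) + cD K₁ + cD K +
    4 * v * cS K + 2 * cS K₁ + cL K₁ + cL K + (v + 2 : ℕ) * (M + 1) * cM K₁ M +
    2 * ((K : ℝ) + 1) + cQ K₁ (2 * K₁) + 4 + eL + (K + 1) * Real.log c₁ + 2) + (cA K + 5 * cJ K +
    2 + Real.log c₂ + Real.log c₃) + 3 * ((K + 1) * Real.log c₄ +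
    Real.log (2 * (2 * (K : ℝ) + 5) + 1)) + cV K := ⟨_, rfl⟩
  have hC₁0 : 0 ≤ C₁ := by
    rw [hC₁]
    positivity
  refine ⟨C₁ + 2 * Real.log c₅, by positivity, ?_⟩
  intro U Um U' μ t J η ρ fu hU0 hU hμ hμt hJ hU' hUm0 hUm hη hρ hfu
  have ha : 0 ≤ μ / 2 * J := by positivity
  have hat : μ / 2 * J ≤ t * J / 2 := by
    have := mul_le_mul_of_nonneg_right hμt hJ
    linarith
  have ht0 : 0 ≤ t * J := by linarith
  obtain ⟨T, hT⟩ : ∃ T : ℝ, T = (2 : ℝ) ^ (μ / 2 * J) := ⟨_, rfl⟩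
  have hT1 : 1 ≤ T := by
    rw [hT]
    exact Real.one_le_rpow (by norm_num) ha
  rw [← hT] at hU hUm
  have hU'0 : 0 ≤ U' := by
    rw [hU']
    positivity
  have hU'T : U' ≤ ((v : ℝ) + 11) * T := by
    rw [hU']
    push_cast
    have := mul_le_mul_of_nonneg_left hU (show (0 : ℝ) ≤ v + 7 by positivity)
    linarith
  have hKU : (K₁ + 1) * Um ≤ (K₁ + 1) * Cm * T := by
    have := mul_le_mul_of_nonneg_left hUm (show (0 : ℝ) ≤ (K₁ : ℝ) + 1 by positivity)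
    linarith
  have hKU0 : 0 ≤ (K₁ + 1) * Um := by positivity
  have k1 : Real.log (2 * ((K₁ + 1) * Um + 1) + 1) ≤ Real.log c₁ + μ / 2 * J := by
    refine log_b (by positivity) p1 ha ?_
    rw [← hT, hc₁]
    linarith
  have k2 : Real.log (2 * (U' + 1) + 1) ≤ Real.log c₂ + μ / 2 * J := by
    refine log_b (by positivity) p2 ha ?_
    rw [← hT, hc₂]
    linarith
  have hKK : (0 : ℝ) ≤ 2 * (((K : ℝ) + 1) * ((1 : ℕ) + 1)) := by positivity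
  have hKT : 2 * (((K : ℝ) + 1) * ((1 : ℕ) + 1)) ≤ 2 * (((K : ℝ) + 1) * ((1 : ℕ) + 1)) * T :=
    le_mul_of_one_le_right hKK hT1
  have k3 : Real.log (2 * (U' + 4 * (1 : ℕ) + 2 * ((K + 1) * ((1 : ℕ) + 1)) + 1) + 1) ≤
      Real.log c₃ + μ / 2 * J := by
    refine log_b (by positivity) p3 ha ?_
    rw [← hT, hc₃]
    have e1 : (4 : ℝ) * (1 : ℕ) = 4 := by norm_num
    rw [e1]
    linarith
  have k4 : Real.log (2 * (2 * ((K₁ + 1) * Um) + 2) + 1) ≤ Real.log c₄ + μ / 2 * J := by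
    refine log_b (by positivity) p4 ha ?_
    rw [← hT, hc₄]
    linarith
  have k5 : Real.log (2 * ((U' + 2 + (K₁ + 1) * Um) + 2 * ((K + 1) * ((1 : ℕ) + 1)) + 4) + 1) ≤
      Real.log c₅ + μ / 2 * J := by
    refine log_b (by positivity) p5 ha ?_
    rw [← hT, hc₅]
    linarith
  have k6 : Real.log (2 * (ρ + 1) + 1) ≤ 2 + t * J := by
    have h1 : (1 : ℝ) ≤ 2 ^ (t * J) := Real.one_le_rpow (by norm_num) ht0
    have h2 := log_b (E := 2 * (ρ + 1) + 1) (C := 5) (a := t * J) (by rw [hρ]; positivity)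
      (by norm_num) ht0 (by rw [hρ]; linarith)
    linarith [log5]
  have m1 : (K + 1) * Real.log (2 * ((K₁ + 1) * Um + 1) + 1) ≤
      (K + 1) * (Real.log c₁ + t * J) := mul_le_mul_of_nonneg_left (by linarith) (by positivity)
  have m4 : (K + 1) * Real.log (2 * (2 * ((K₁ + 1) * Um) + 2) + 1) ≤
      (K + 1) * (Real.log c₄ + t * J) := mul_le_mul_of_nonneg_left (by linarith) (by positivity)
  have m6 : (K + 1) * Real.log (2 * (ρ + 1) + 1) ≤ (K + 1) * (2 + t * J) :=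
    mul_le_mul_of_nonneg_left k6 (by positivity)
  have m7 : ((v : ℝ) + 1) * (2 * η + 2 * cD K) ≤ (v + 1) * (2 * (2 * t * J) + 2 * cD K) :=
    mul_le_mul_of_nonneg_left (by linarith) (by positivity)
  have hl5 := log5
  constructor
  · unfold eN cRU cE0 cN aN
    rw [hfu, hC₁]
    have e1 : ((1 : ℕ) : ℝ) = 1 := Nat.cast_one
    rw [e1] at k3 ⊢
    rw [one_mul]
    obtain ⟨a1, ha1⟩ : ∃ a, a = (K + 1) * Real.log (2 * ((K₁ + 1) * Um + 1) + 1) := ⟨_, rfl⟩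
    obtain ⟨a2, ha2⟩ : ∃ a, a = (K + 1) * Real.log (2 * (2 * ((K₁ + 1) * Um) + 2) + 1) := ⟨_, rfl⟩
    obtain ⟨a3, ha3⟩ : ∃ a, a = (K + 1) * Real.log (2 * (ρ + 1) + 1) := ⟨_, rfl⟩
    obtain ⟨a4, ha4⟩ : ∃ a, a = ((v : ℝ) + 1) * (2 * η + 2 * cD K) := ⟨_, rfl⟩
    obtain ⟨a5, ha5⟩ : ∃ a, a = Real.log (2 * (U' + 1) + 1) := ⟨_, rfl⟩
    obtain ⟨a6, ha6⟩ : ∃ a, a = Real.log (2 * (U' + 4 * 1 + 2 * ((K + 1) * (1 + 1)) + 1) + 1) :=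
      ⟨_, rfl⟩
    rw [← ha1] at m1 ⊢
    rw [← ha2] at m4 ⊢
    rw [← ha3] at m6 ⊢
    rw [← ha4] at m7 ⊢
    rw [← ha5] at k2 ⊢
    rw [← ha6] at k3 ⊢
    linarith only [m1, k2, k3, m4, m6, m7, hl5, hη, hat, l5, ht0]
  · unfold cR
    obtain ⟨a7, ha7⟩ : ∃ a, a = Real.log (2 * ((U' + 2 + (K₁ + 1) * Um) + 2 * ((K + 1) *
      ((1 : ℕ) + 1)) + 4) + 1) := ⟨_, rfl⟩
    rw [← ha7] at k5 ⊢
    linarith only [k5, hat, hC₁0]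

/-! ### Smaller events -/

section

variable {m J : ℕ} {F : Fam m J} {c : ℕ → Fin m} {v K : ℕ} {w : ℝ} {p s : ℕ → ℝ} {E : ℝ}
  {γl : ℕ → ℕ} {B B' : F.Ω → Prop} {G₀ : PtT F → ℕ → MvPolynomial (Option (Fin m)) ℝ}
  {G : ℕ → PtT F → ℕ → MvPolynomial (Option (Fin m)) ℝ}
  {H : LnT F → ℕ → MvPolynomial (Option (Fin m)) ℝ}

theorem LbsE.sub (h : LbsE F c v K w p s E γl B G₀ H) (hB : Sub B' B) :
    LbsE F c v K w p s E γl B' G₀ H :=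
  ⟨h.deg, h.dep, h.cls.sub hB, fun ω hω => h.pos ω (hB ω hω), h.lo, h.hi,
    fun ω hω => h.co ω (hB ω hω)⟩

theorem LbsE.up (h : LbsE F c v K w p s E γl B G₀ H) {K' : ℕ} (hK : K ≤ K') :
    LbsE F c v K' w p s E γl B G₀ H :=
  ⟨fun s l => (h.deg s l).trans hK, h.dep, h.cls, h.pos, h.lo, h.hi, h.co⟩

theorem clU_sub {r ks a : ℕ} (h : ClU F r ks a B G) (hB : Sub B' B) : ClU F r ks a B' G := by
  intro k hk
  obtain ⟨wk, Hk, h1, h2⟩ := h k hk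
  exact ⟨wk, Hk, h1, h2.sub hB⟩

theorem grdE_sub {k₀ i ks n q X : ℕ} {γ : ℕ → ℕ} {U : ℝ} (h : GrdE F c k₀ i ks n q X γ U B G)
    (hB : Sub B' B) : GrdE F c k₀ i ks n q X γ U B' G :=
  ⟨h.U0, fun ω hω => h.bm ω (hB ω hω), fun ω ν hω hν => h.bj ω ν (hB ω hω) (hB ν hν),
    fun ω ν hω hν => h.bx ω ν (hB ω hω) (hB ν hν), fun ω ν hω hν => h.nx ω ν (hB ω hω) (hB ν hν)⟩

end

/-- **Two bad events.** -/
theorem pb_split {Ω : Type} [Fintype Ω] {p : Ω → ℝ} (hp : IsLaw p) {B : Ω → Prop}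
    {Q P : Ω → Prop} (hB : 0 < Pe p B) (hB' : 0 < Pe p (fun ω => B ω ∧ ¬ Q ω)) {ε₁ ε₂ : ℝ}
    (h1 : Pb (Pool.Agent.H49.Ent.cond p B True) Q ≤ ε₁)
    (h2 : Pb (Pool.Agent.H49.Ent.cond p (fun ω => B ω ∧ ¬ Q ω) True) P ≤ ε₂) :
    Pb (Pool.Agent.H49.Ent.cond p B True) P ≤ ε₁ + ε₂ := by
  rw [Pool.LA91.Pb_cond hB] at h1 ⊢
  rw [Pool.LA91.Pb_cond hB'] at h2
  rw [div_le_iff₀ hB] at h1 ⊢
  rw [div_le_iff₀ hB'] at h2
  have h3 : Pe p (fun ω => B ω ∧ P ω) ≤ Pe p (fun ω => B ω ∧ Q ω) +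
      Pe p (fun ω => (B ω ∧ ¬ Q ω) ∧ P ω) := by
    classical
    rw [Pe_eq, Pe_eq, Pe_eq, ← Finset.sum_add_distrib]
    refine Finset.sum_le_sum fun ω _ => ?_
    have h0 := hp.nonneg ω
    by_cases a1 : B ω <;> by_cases a2 : Q ω <;> by_cases a3 : P ω <;> simp [a1, a2, a3, h0]
  have h4 : Pe p (fun ω => B ω ∧ ¬ Q ω) ≤ Pe p B := Pe_mono hp fun ω h => h.1
  have h5 : 0 ≤ ε₂ := by
    have h6 : 0 ≤ Pe p (fun ω => (B ω ∧ ¬ Q ω) ∧ P ω) := Pe_nonneg hp _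
    by_contra hn
    have : ε₂ * Pe p (fun ω => B ω ∧ ¬ Q ω) < 0 := mul_neg_of_neg_of_pos (not_le.1 hn) hB'
    linarith
  have h6 := mul_le_mul_of_nonneg_left h4 h5
  linarith

/-- **Half of the mass is left.** -/
theorem pe_left {Ω : Type} [Fintype Ω] {p : Ω → ℝ} {B Q : Ω → Prop} (hB : 0 < Pe p B)
    {ε₁ : ℝ} (h1 : Pb (Pool.Agent.H49.Ent.cond p B True) Q ≤ ε₁) (hε : ε₁ ≤ 1 / 2) :
    1 / 2 * Pe p B ≤ Pe p (fun ω => B ω ∧ ¬ Q ω) := by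
  rw [Pool.LA91.Pb_cond hB, div_le_iff₀ hB] at h1
  have h2 := Pe_parts (p := p) (B := B) (B' := fun ω => B ω ∧ ¬ Q ω) fun ω h => h.1
  have h3 : Pe p (fun ω => B ω ∧ ¬ (B ω ∧ ¬ Q ω)) = Pe p (fun ω => B ω ∧ Q ω) := by
    congr 1
    funext ω
    refine propext ⟨fun h => ⟨h.1, ?_⟩, fun h => ⟨h.1, fun h' => h'.2 h.2⟩⟩
    by_contra hn
    exact h.2 ⟨h.1, hn⟩
  rw [h3] at h2
  have h4 := mul_le_mul_of_nonneg_right hε hB.le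
  linarith

/-- **Half of the windows.** -/
theorem C1N.half {r₀ v : ℕ} {w δW : ℝ} {p s n n' nt : ℕ → ℝ} {qr ξ μ Nd Nt nb : ℝ}
    {Df Dn Dx Dd : ℕ → ℕ → ℝ} {Ef En Nv : ℕ → ℝ}
    (N : C1N r₀ v w δW p s n n' nt qr ξ μ Nd Nt nb Df Dn Dx Dd Ef En Nv) :
    C1N r₀ v w (δW / 2) p s n n' nt qr ξ μ Nd Nt nb Df Dn Dx Dd Ef En Nv := by
  have h0 := N.δ0
  have h1 := N.w1
  have h2 := N.n1
  have h3 := N.x1
  have h4 := N.u1
  have h5 := N.m1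
  exact { N with
    δ0 := by linarith
    w1 := by linarith
    n1 := by linarith
    x1 := by linarith
    u1 := by linarith
    m1 := by linarith }

end Pool.AVG57
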