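import Pool.Agent.H57.AVN.C2m

/-!
# From the numbers of a class to the numbers on one event: two near places

`C2J`: large resolutions. `C2N.big`: they are large. `C2N.n2e`: the inputs `N2E`.
-/

set_option autoImplicit false

namespace Pool.AVG57

open Finset Real MvPolynomial
open Pool.Agent.H49.Ent Pool.Agent.H32.Dense Pool.STK Pool.KA Pool.KSAT Pool.K2S Pool.PB Pool.S6C
open Pool.GEN Pool.CHT Pool.CHX Pool.ISO Pool.RCD Pool.LA91 Pool.AVG71 Pool.AVG5 Pool.D2F2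
open Pool.PB.Trl (rt rt_mem t_rt)
open Pool.D2R (hgt gnh GrdE chs)
open Pool.KVA (MI)
open Pool.KAF (rs Pr)
open Pool.BFL (Pb)

/-- **Large resolutions.** -/
structure C2J (v K : ℕ) (w δW : ℝ) (p s n nt : ℕ → ℝ) (q ξ μ nb : ℝ) (Df Dn Dx : ℕ → ℕ → ℝ)
    (En Nv : ℕ → ℝ) (J : ℕ) : Prop where
  J1 : 1 ≤ J
  b1 : ((2 * K + 4 : ℕ) : ℝ) ≤ ξ / 2 * J
  b6 : ((v + 13 : ℕ) : ℝ) ≤ μ / 2 * J
  d1 : 2 ≤ (p v + q - Dn v 0) * J
  d2 : 4 ≤ (p v + q + ξ + μ - (Dn v 1 + w + δW)) * J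
  d3 : 2 ≤ (p v + q - Dx v 0) * J
  d4 : 4 ≤ (p v + q + ξ + μ - (Dx v 1 + w + δW)) * J
  d5 : 2 ≤ (p v + q - nt v) * J
  d6 : 4 ≤ (p v + q + ξ + μ - (nt v + δW)) * J
  d7 : 2 ≤ (p (v + 2) + q - En 0) * J
  d8 : 2 ≤ (p (v + 2) + q - (En 1 + w + δW)) * J
  d9 : 1 ≤ (Df v 1 + w - (s v + q + ξ + μ)) * J
  g1 : 1 ≤ (Nv 1 + w - (s v + q + ξ + μ)) * J
  g2 : 4 ≤ (p v + q + ξ + μ - nb) * J
  g3 : ∀ l ≤ v + 1, ((12 * K + 13 : ℕ) : ℝ) ≤ (n l - (s l + q + ξ + μ)) * J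
  g4 : 1 ≤ (Df (v + 1) 1 + w - (s (v + 1) + q + ξ + μ)) * J

/-- **Large resolutions are large.** -/
theorem C2N.big {r₀ v : ℕ} {w δW : ℝ} {p s n n' nt nr : ℕ → ℝ} {q ξ μ Nd Nt nb nbu Mu : ℝ}
    {Df Dn Dx Dd : ℕ → ℕ → ℝ} {Ef En Nv : ℕ → ℝ}
    (N : C2N r₀ v w δW p s n n' nt nr q ξ μ Nd Nt nb nbu Mu Df Dn Dx Dd Ef En Nv) (K : ℕ) :
    ∃ J₀ : ℕ, ∀ J : ℕ, J₀ ≤ J → C2J v K w δW p s n nt q ξ μ nb Df Dn Dx En Nv J := by
  have hξ := N.ξ0
  have hμ := N.μ0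
  obtain ⟨J₁, b1⟩ := Pool.AVG57.big ((2 * K + 4 : ℕ) : ℝ) (b := ξ / 2) (by positivity)
  obtain ⟨J₂, b6⟩ := Pool.AVG57.big ((v + 13 : ℕ) : ℝ) (b := μ / 2) (by positivity)
  obtain ⟨I₁, d1⟩ := Pool.AVG57.big 2 (b := p v + q - Dn v 0) (by linarith [N.n0])
  obtain ⟨I₂, d2⟩ := Pool.AVG57.big 4 (b := p v + q + ξ + μ - (Dn v 1 + w + δW))
    (by linarith [N.n1])
  obtain ⟨I₃, d3⟩ := Pool.AVG57.big 2 (b := p v + q - Dx v 0) (by linarith [N.x0])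
  obtain ⟨I₄, d4⟩ := Pool.AVG57.big 4 (b := p v + q + ξ + μ - (Dx v 1 + w + δW))
    (by linarith [N.x1])
  obtain ⟨I₅, d5⟩ := Pool.AVG57.big 2 (b := p v + q - nt v) (by linarith [N.u0])
  obtain ⟨I₆, d6⟩ := Pool.AVG57.big 4 (b := p v + q + ξ + μ - (nt v + δW))
    (by linarith [N.u1])
  obtain ⟨I₇, d7⟩ := Pool.AVG57.big 2 (b := p (v + 2) + q - En 0) (by linarith [N.m0])
  obtain ⟨I₈, d8⟩ := Pool.AVG57.big 2 (b := p (v + 2) + q - (En 1 + w + δW))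
    (by linarith [N.m1])
  obtain ⟨I₉, d9⟩ := Pool.AVG57.big 1 (b := Df v 1 + w - (s v + q + ξ + μ))
    (by linarith [N.f1])
  obtain ⟨L₁, g1⟩ := Pool.AVG57.big 1 (b := Nv 1 + w - (s v + q + ξ + μ))
    (by linarith [N.v1])
  obtain ⟨L₂, g2⟩ := Pool.AVG57.big 4 (b := p v + q + ξ + μ - nb) (by linarith [N.b1])
  obtain ⟨L₃, g3⟩ := big_all ((12 * K + 13 : ℕ) : ℝ) (g := fun l => n l - (s l + q + ξ + μ))
    (v + 1) fun l hl => by linarith [N.c0 l hl]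
  obtain ⟨L₄, g4⟩ := Pool.AVG57.big 1 (b := Df (v + 1) 1 + w - (s (v + 1) + q + ξ + μ))
    (by linarith [N.g1])
  exact ⟨1 + J₁ + J₂ + I₁ + I₂ + I₃ + I₄ + I₅ + I₆ + I₇ + I₈ + I₉ + L₁ + L₂ + L₃ + L₄,
    fun J hJ => ⟨by omega, b1 J (by omega), b6 J (by omega), d1 J (by omega), d2 J (by omega),
      d3 J (by omega), d4 J (by omega), d5 J (by omega), d6 J (by omega), d7 J (by omega),
      d8 J (by omega), d9 J (by omega), g1 J (by omega), g2 J (by omega),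
      fun l hl => g3 J (by omega) l hl, g4 J (by omega)⟩⟩

section

variable {m : ℕ} {γ : ∀ J : ℕ, Fam m J → Type} {y : ∀ (J : ℕ) (F : Fam m J), F.Ω → γ J F}
  {c : ℕ → Fin m} {r₀ v K : ℕ} {w δW j x : ℝ} {p s n n' nt nr : ℕ → ℝ}
  {q ξ μ Nd Nt nb nbu Mu : ℝ} {Df Dn Dx Dd : ℕ → ℕ → ℝ} {Ef En Nv : ℕ → ℝ}
  {E h lo hi η t τ π₀ R U : ℝ} {Kg J : ℕ} {F : Fam m J} {B : F.Ω → Prop} {gm : ℕ → ℕ}
  {G : ℕ → PtT F → ℕ → MvPolynomial (Option (Fin m)) ℝ}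
  {H : LnT F → ℕ → MvPolynomial (Option (Fin m)) ℝ} {ks nn : ℕ}

/-- **The inputs on one event.** -/
theorem C2N.n2e (N : C2N r₀ v w δW p s n n' nt nr q ξ μ Nd Nt nb nbu Mu Df Dn Dx Dd Ef En Nv)
    (Jn : C2J v K w δW p s n nt q ξ μ nb Df Dn Dx En Nv J)
    (C : C2H y c r₀ v (2 * K + 1) (kq R E (2 * K + 1 + 2) (2 * K + 1)) w j x p n n' nt nr Nd Nt
      nb nbu Mu Df Dn Dx Dd Ef En Nv E h lo hi η t τ π₀ Kg J F B)
    (L : LbsE F c (v + 1) K w p s E gm B (G 0) H)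
    (D : BdR2 v (2 * K + 1 + 2) w n n' nt nr nb nbu Mu Df Dn Dx Dd Ef En Nv τ Kg R)
    (hp : 0 < Pe F.p B) (ht : 0 ≤ t) (hη0 : 0 ≤ η)
    (hy : ∃ φ : γ J F → F.ζ × ℕ, ∀ ω, φ (y J F ω) = (F.Z ω, F.T ω))
    (hwj : w ≤ j) (hj1 : j ≤ 1) (hwx : w ≤ x) (hx1 : x ≤ 1)
    (hGj : ClU F (v + 3) ks ⌊j * J⌋₊ B G) (hGx : ClU F (v + 3) nn ⌊x * J⌋₊ B G)
    (grd : GrdE F c 0 (v + 2) ks nn ⌊q * J⌋₊ ⌊ξ * J⌋₊ gm U B G) (hU : U ≤ 2 ^ (μ / 2 * J))
    {W : ℕ} (wW : ⌊w * J⌋₊ ≤ W) (W2 : (W : ℝ) ≤ (w + δW) * J)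
    {Vw Vj Vx : Type} {zw : F.Ω → Vw} {zj : F.Ω → Vj} {zx : F.Ω → Vx}
    (zw1 : Cl2 (ptr F J) (vg w J F) B zw)
    (zw2 : ∀ (V' : Type) (z' : F.Ω → V'), Cl2 (ptr F J) (vg w J F) B z' →
      ∀ ω ν, zw ω = zw ν → z' ω = z' ν)
    (zj1 : Cl2 (ptr F J) (vg j J F) B zj)
    (zj2 : ∀ (V' : Type) (z' : F.Ω → V'), Cl2 (ptr F J) (vg j J F) B z' →
      ∀ ω ν, zj ω = zj ν → z' ω = z' ν)
    (zx1 : Cl2 (ptr F J) (vg x J F) B zx)
    (zx2 : ∀ (V' : Type) (z' : F.Ω → V'), Cl2 (ptr F J) (vg x J F) B z' →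
      ∀ ω ν, zx ω = zx ν → z' ω = z' ν)
    (hNt : s (v + 2) + q ≤ Nt + t) (hMu : Mu ≤ p (v + 1) + q + t)
    {Λ : Type} {Lp : F.Ω → Λ} {mC : F.Ω → Polynomial ℝ} {NR : ℕ} {Um eL : ℝ}
    (NR1 : NR ≤ gm (v + 2) + ⌊q * J⌋₊ + ⌊ξ * J⌋₊) (NR3 : (NR : ℝ) ≤ Nt * J)
    (Um0 : 0 ≤ Um) (eL0 : 0 ≤ eL)
    (mz : ∀ ω ν, F.T1 W ω = F.T1 W ν → Lp ω = Lp ν → mC ω = mC ν)
    (md : ∀ ω, (mC ω).natDegree ≤ K + 1) (mb : ∀ ω a, |(mC ω).coeff a| ≤ Um)
    (mg : ∀ ω, B ω → |gnh F c (v + 2) gm (G 0) (G nn) ω (v + 1) - (mC ω).eval (rt F W ω)| ≤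
      (U + 1) / 2 ^ ⌊ξ * J⌋₊)
    (Ls : Det (Pool.Agent.H49.Ent.cond F.p B True) (slam F W) Lp)
    (Lf : ∀ (𝓦 : Type) (Z : F.Ω → 𝓦), (∀ ω ν, 0 < Pool.Agent.H49.Ent.cond F.p B True ω →
      0 < Pool.Agent.H49.Ent.cond F.p B True ν → Z ω = Z ν →
      F.T ω = F.T ν ∧ F.Z ω = F.Z ν ∧ zw ω = zw ν ∧
        sdL F c v ⌊w * J⌋₊ (2 * K + 2) H (fun l => ⌊n l * J⌋₊) (fun l => ⌊n' l * J⌋₊) ω =
          sdL F c v ⌊w * J⌋₊ (2 * K + 2) H (fun l => ⌊n l * J⌋₊) (fun l => ⌊n' l * J⌋₊) ν ∧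
        cod F ⌊w * J⌋₊ (fun s => H s v) (c v) ⌊nt v * J⌋₊ 0 (2 * K + 2) ω =
          cod F ⌊w * J⌋₊ (fun s => H s v) (c v) ⌊nt v * J⌋₊ 0 (2 * K + 2) ν ∧
        cod F ⌊w * J⌋₊ (fun s => H s (v + 1)) (c (v + 1))
            (gm (v + 1) + ⌊q * J⌋₊ + 2 * (K + 1)) 0 (K + 1) ω =
          cod F ⌊w * J⌋₊ (fun s => H s (v + 1)) (c (v + 1))
            (gm (v + 1) + ⌊q * J⌋₊ + 2 * (K + 1)) 0 (K + 1) ν ∧
        cod F ⌊w * J⌋₊ (fun s => H s (v + 2)) (c (v + 2)) NR 0 (2 * K + 2) ω =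
          cod F ⌊w * J⌋₊ (fun s => H s (v + 2)) (c (v + 2)) NR 0 (2 * K + 2) ν) →
      CH (Pool.Agent.H49.Ent.cond F.p B True) Lp Z ≤ eL) :
    N2E F c r₀ v (K + 1) (2 * K + 2) (2 * K + 3) ⌊q * J⌋₊ ⌊w * J⌋₊ W ⌊ξ * J⌋₊ ⌊μ * J⌋₊ K ks nn w
      gm (fun l => ⌊n l * J⌋₊) (fun l => ⌊n' l * J⌋₊) B G H zw zj zx (y J F)
      (Pool.Agent.H49.Ent.cond F.p B True) Lp mC n n' nt Nt nb nbu Mu Df Dn Dx Dd Ef En Nv
      (gm (v + 1) + ⌊q * J⌋₊ + 2 * (K + 1)) ⌊nt v * J⌋₊ NR U Um (2 ^ (t * J)) (t * J + 2) eL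
      ((η + t) * J) := by
  have hξ := N.ξ0
  have hw0 := N.w0
  have hδ := N.δ0
  have hμ0 := N.μ0
  have hqr := N.q0
  have hJ1 := Jn.J1
  have hJ0 : (0 : ℝ) ≤ J := Nat.cast_nonneg J
  have hw1 : w + δW < 1 := by linarith [N.w1]
  have hn0 : ∀ l ≤ v + 1, 0 ≤ n l := fun l hl => by
    have h1 := N.c0 l hl
    have h2 := N.ps l (by omega)
    linarith [h2.1, h2.2]
  have hn0' : ∀ l ≤ v + 1, 0 ≤ n' l := fun l hl => by
    rcases Nat.lt_or_ge l r₀ with h1 | h1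
    · exact (hn0 l hl).trans (N.c1 l h1)
    · rw [N.c2 l h1 hl]
      exact hn0 l hl
  obtain ⟨wn, hwn⟩ : ∃ wn : ℕ, wn = ⌊w * J⌋₊ := ⟨_, rfl⟩
  obtain ⟨qn, hq⟩ : ∃ qn : ℕ, qn = ⌊q * J⌋₊ := ⟨_, rfl⟩
  obtain ⟨X, hX⟩ : ∃ X : ℕ, X = ⌊ξ * J⌋₊ := ⟨_, rfl⟩
  obtain ⟨mm, hmm⟩ : ∃ mm : ℕ, mm = ⌊μ * J⌋₊ := ⟨_, rfl⟩
  have w1 : (wn : ℝ) ≤ w * J := by rw [hwn]; exact Nat.floor_le (by positivity)
  have w2 : w * J ≤ wn + 1 := by rw [hwn]; exact (Nat.lt_floor_add_one _).le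
  have q1 : (qn : ℝ) ≤ q * J := by rw [hq]; exact Nat.floor_le (by positivity)
  have q2 : q * J ≤ qn + 1 := by rw [hq]; exact (Nat.lt_floor_add_one _).le
  have x1 : (X : ℝ) ≤ ξ * J := by rw [hX]; exact Nat.floor_le (by positivity)
  have x2 : ξ * J ≤ X + 1 := by rw [hX]; exact (Nat.lt_floor_add_one _).le
  have m1 : (mm : ℝ) ≤ μ * J := by rw [hmm]; exact Nat.floor_le (by positivity)
  have m2 : μ * J ≤ mm + 1 := by rw [hmm]; exact (Nat.lt_floor_add_one _).le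
  have y1 : ∀ l ≤ v + 2, p l * J ≤ gm l + 1 := fun l hl => by
    have h1 := (Nat.lt_floor_add_one (p l * J)).le
    have h2 : ((⌊p l * J⌋₊ : ℕ) : ℝ) ≤ gm l := by exact_mod_cast L.lo l hl
    linarith only [h1, h2]
  have y2 : ∀ l ≤ v + 2, (gm l : ℝ) ≤ s l * J := fun l hl => L.hi l hl
  have yv1 := y1 v (by omega)
  have yv2 := y2 v (by omega)
  have yu1 := y1 (v + 1) (by omega)
  have yu2 := y2 (v + 1) (by omega)
  have yt1 := y1 (v + 2) le_rfl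
  have yt2 := y2 (v + 2) le_rfl
  have hK0 : (0 : ℝ) ≤ K := Nat.cast_nonneg K
  have b1 := Jn.b1
  push_cast at b1
  have tJ0 : 0 ≤ t * J := by positivity
  have ξJ0 : 0 ≤ ξ * J := by positivity
  have μJ0 : 0 ≤ μ * J := by positivity
  have hwJ : wn ≤ J := by
    have h1 : w * J ≤ 1 * J := mul_le_mul_of_nonneg_right (by linarith only [hw1, hδ]) hJ0
    have : (wn : ℝ) ≤ J := by linarith only [h1, w1]
    exact_mod_cast this
  have WJ : W ≤ J := by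
    have h1 : (w + δW) * J ≤ 1 * J := mul_le_mul_of_nonneg_right hw1.le hJ0
    have : (W : ℝ) ≤ J := by linarith only [h1, W2]
    exact_mod_cast this
  have W1 : w * J - 1 ≤ W := by
    have h1 : (wn : ℝ) ≤ W := by
      rw [hwn]
      exact_mod_cast wW
    linarith only [h1, w2]
  have hjJ : ⌊j * J⌋₊ ≤ J := by
    have h1 : j * J ≤ 1 * J := mul_le_mul_of_nonneg_right hj1 hJ0
    have h2 : (⌊j * J⌋₊ : ℝ) ≤ J := (Nat.floor_le (mul_nonneg (hw0.trans hwj) hJ0)).trans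
      (by linarith only [h1])
    exact_mod_cast h2
  have hxJ : ⌊x * J⌋₊ ≤ J := by
    have h1 : x * J ≤ 1 * J := mul_le_mul_of_nonneg_right hx1 hJ0
    have h2 : (⌊x * J⌋₊ : ℝ) ≤ J := (Nat.floor_le (mul_nonneg (hw0.trans hwx) hJ0)).trans
      (by linarith only [h1])
    exact_mod_cast h2
  have hcl := isLaw_cond F.isLaw hp
  have hsup : ∀ ω, 0 < Pool.Agent.H49.Ent.cond F.p B True ω → B ω := fun ω hω => by
    have h1 := ((cond_pos_iff F.isLaw.nonneg B True ω).mp hω).2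
    exact of_eq_true h1
  have hgN : ((gm (v + 2) + qn + X : ℕ) : ℝ) ≤ Nd * J := by
    have := mul_le_mul_of_nonneg_right N.d0 hJ0
    push_cast
    linarith only [this, yt2, q1, x1]
  have CE := C.ev (L.up (show K ≤ 2 * K + 1 by omega)) D N.rv hw0 (by linarith only [hw1, hδ])
    hJ1 hp ht hn0 hn0' hy hgN zw1 zw2 zj1 zj2 zx1 zx2
  have hU0 := grd.U0
  have hmU : U + (v + 2 : ℕ) * U + 4 * (U + 1) + 1 ≤ 2 ^ mm := by
    have b6 := Jn.b6
    have k1 : (1 : ℝ) ≤ 2 ^ (μ / 2 * J) := Real.one_le_rpow (by norm_num) (by positivity)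
    have k2 : U + (v + 2 : ℕ) * U + 4 * (U + 1) + 1 ≤ (v + 12) * 2 ^ (μ / 2 * J) := by
      have hv : (0 : ℝ) ≤ v := Nat.cast_nonneg v
      push_cast
      have k3 := mul_le_mul_of_nonneg_left hU (show (0 : ℝ) ≤ v + 7 by positivity)
      linarith only [k3, k1]
    have k4 : ((v + 12 : ℕ) : ℝ) ≤ 2 ^ (v + 12) := by
      have : v + 12 ≤ 2 ^ (v + 12) := (Nat.lt_two_pow_self).le
      exact_mod_cast this
    have k5 : (2 : ℝ) ^ (v + 12) * 2 ^ (μ / 2 * J) ≤ 2 ^ mm := by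
      rw [← Real.rpow_natCast, ← Real.rpow_natCast, ← Real.rpow_add two_pos]
      refine Real.rpow_le_rpow_of_exponent_le one_le_two ?_
      push_cast at b6 ⊢
      linarith only [b6, m2]
    refine k2.trans (le_trans ?_ k5)
    push_cast at k4
    exact mul_le_mul_of_nonneg_right k4 (by positivity)
  have hKX : ((2 * K + 2 : ℕ) : ℝ) ≤ 2 ^ (X + mm) := by
    have k1 : ((2 * K + 2 : ℕ) : ℝ) ≤ X := by
      push_cast
      linarith only [b1, x2, ξJ0]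
    have k2 : 2 * K + 2 ≤ X := by exact_mod_cast k1
    have k3 : 2 * K + 2 ≤ 2 ^ (X + mm) := (Nat.lt_two_pow_self).le.trans
      (Nat.pow_le_pow_right (by norm_num) (k2.trans (Nat.le_add_right _ _)))
    exact_mod_cast k3
  have hft : ∀ {a : ℝ}, 0 ≤ a → ((⌊a * J⌋₊ : ℕ) : ℝ) ≤ a * J := fun ha =>
    Nat.floor_le (by positivity)
  have hNV := hft N.t0
  have ntv : nt v * J ≤ p v * J + q * J := by
    have := mul_le_mul_of_nonneg_right N.u0.le hJ0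
    linarith only [this]
  have pv := mul_le_mul_of_nonneg_right (N.ps v (by omega)).2 hJ0
  have pu := mul_le_mul_of_nonneg_right (N.ps (v + 1) (by omega)).2 hJ0
  rw [← hwn] at CE wW Lf ⊢
  rw [← hq, ← hX] at NR1 grd ⊢
  rw [← hX] at mg
  rw [← hq] at Lf
  rw [← hmm]
  refine
    { ev := CE
      η0 := by positivity
      rv := N.rv
      wr0 := hw0
      we := hwn
      law := hcl
      sup := hsup
      wW := wW
      WJ := WJ
      deg := L.deg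
      DK := le_rfl
      KK := by omega
      KM := by omega
      KX := hKX
      cls := hwn ▸ L.cls
      grd := grd
      mU := hmU
      zL := ?_
      chj := fun ω ν _ _ e => zj2 _ _ (chs_cl2 hjJ hGj) ω ν e
      chx := fun ω ν _ _ e => zx2 _ _ (chs_cl2 hxJ hGx) ω ν e
      zwx := fun ω ν _ _ e => zx2 _ _ (cl2_up hwx hxJ zw1) ω ν e
      ncl := fun l hl => hft (hn0 l (by omega))
      ncu := fun l => (Nat.lt_floor_add_one _).le
      ncu' := fun l => (Nat.lt_floor_add_one _).le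
      nce := fun l l0 l1 => by rw [N.c2 l l0 (by omega)]
      nce' := fun l l0 l1 => N.c2 l l0 (by omega)
      cn := ?_
      cv := ?_
      cu := ?_
      Dn0 := N.ns
      Dx0 := N.xs
      Dxu := N.xu
      Dd0 := N.ds
      Ddu := N.du
      Dfv := N.fv
      NP0 := le_rfl
      NP1 := ?_
      NP2 := ?_
      NP3 := ?_
      NP4 := ?_
      NP5 := ?_
      NP6 := ?_
      NV1 := ?_
      NV2 := ?_
      NV3 := ?_
      NV4 := ?_
      NV5 := ?_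
      NV6 := ?_
      NV7 := ?_
      NV8 := hNV
      NR1 := NR1
      NR2 := ?_
      ρ0 := by positivity
      NR3 := ?_
      NR4 := ?_
      nt0 := N.us
      nt1 := (Nat.lt_floor_add_one _).le
      nt2 := ?_
      n0 := ?_
      n1 := ?_
      x0 := ?_
      x1 := ?_
      u0 := ?_
      u1 := ?_
      m0 := ?_
      m1 := ?_
      mf := ?_
      f0 := ?_
      f1 := ?_
      g0 := ?_
      g1 := ?_
      v0 := ?_
      v1 := ?_
      fu0 := by positivity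
      fu1 := ?_
      Um0 := Um0
      eL0 := eL0
      mz := mz
      md := md
      mb := mb
      mg := mg
      Ls := Ls
      Lf := Lf }
  · -- zL
    intro ω ν hω hν e
    obtain ⟨ψ, hψ⟩ := zw1.2
    rw [hψ ω (hsup ω hω), hψ ν (hsup ν hν)]
    rw [hwn] at e
    exact congrArg ψ e
  · -- cn
    intro l hl
    refine Nat.le_floor ?_
    have k1 := Jn.g3 l (by omega)
    have k2 := y2 l (by omega)
    push_cast at k1 ⊢
    linarith only [k1, k2, μJ0, hK0, q1, x1]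
  · -- cv
    refine Nat.le_floor ?_
    have k1 := Jn.g3 v (by omega)
    rw [N.c2 v N.rv (by omega)]
    push_cast at k1 ⊢
    linarith only [k1, yv2, q1, x1, m1]
  · -- cu
    refine Nat.le_floor ?_
    have k1 := Jn.g3 (v + 1) le_rfl
    rw [N.c2 (v + 1) (Nat.le_succ_of_le N.rv) le_rfl]
    push_cast at k1 ⊢
    linarith only [k1, yu2, q1, x1, m1, hK0]
  · -- NP1
    refine Nat.le_floor ?_
    have k1 := Jn.g3 (v + 1) le_rfl
    rw [N.c2 (v + 1) (Nat.le_succ_of_le N.rv) le_rfl]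
    push_cast at k1 ⊢
    linarith only [k1, yu2, q1, ξJ0, μJ0, hK0]
  · -- NP2
    have k1 := mul_le_mul_of_nonneg_right N.g0 hJ0
    push_cast
    linarith only [k1, yu2, q1, b1, μJ0, ξJ0]
  · -- NP3
    have k1 := Jn.g4
    push_cast
    linarith only [k1, yu2, q1, b1, μJ0, ξJ0, w2]
  · -- NP4
    have k1 := mul_le_mul_of_nonneg_right N.mu0 hJ0
    push_cast
    linarith only [k1, yu2, q1]
  · -- NP5
    have k1 := mul_le_mul_of_nonneg_right N.nu0 hJ0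
    push_cast
    linarith only [k1, yu1, q2, hK0]
  · -- NP6
    have k1 := mul_le_mul_of_nonneg_right N.nu1 hJ0
    push_cast
    linarith only [k1, yu1, q2, hK0, w1]
  · -- NV1
    refine Nat.floor_le_floor ?_
    rw [N.c2 v N.rv (by omega)]
    have k1 := Jn.g3 v (by omega)
    push_cast at k1
    linarith only [k1, ntv, pv, ξJ0, μJ0, hK0]
  · -- NV2
    have k1 := mul_le_mul_of_nonneg_right N.f0 hJ0
    linarith only [k1, hNV, ntv, pv, ξJ0, μJ0]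
  · -- NV3
    have k1 := Jn.d9
    linarith only [k1, hNV, ntv, pv, ξJ0, μJ0, w2]
  · -- NV4
    have k1 := mul_le_mul_of_nonneg_right N.tx0 hJ0
    linarith only [k1, hNV]
  · -- NV5
    have k1 := mul_le_mul_of_nonneg_right N.tx1 hJ0
    linarith only [k1, hNV, w2]
  · -- NV6
    have k1 := mul_le_mul_of_nonneg_right N.v0 hJ0
    linarith only [k1, hNV, ntv, pv]
  · -- NV7
    have k1 := Jn.g1
    linarith only [k1, hNV, ntv, pv, ξJ0, μJ0, w2]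
  · -- NR2
    have k1 := mul_le_mul_of_nonneg_right N.mf hJ0
    have k2 : (NR : ℝ) ≤ gm (v + 2) + qn + X := by exact_mod_cast NR1
    linarith only [k1, k2, yt2, q1, x1]
  · -- NR3
    have h1 : (1 : ℝ) ≤ 2 ^ (t * J) := Real.one_le_rpow (by norm_num) tJ0
    have h2 : (2 : ℝ) ^ NR ≤ 2 ^ (Nt * J) := by
      rw [← Real.rpow_natCast]
      exact Real.rpow_le_rpow_of_exponent_le one_le_two NR3
    calc (2 : ℝ) ^ NR ≤ 1 * 2 ^ (Nt * J) := by rw [one_mul]; exact h2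
      _ ≤ _ := mul_le_mul_of_nonneg_right h1 (Real.rpow_pos_of_pos two_pos _).le
  · -- NR4
    rw [← Real.rpow_add two_pos, ← Real.rpow_natCast]
    refine Real.rpow_le_rpow_of_exponent_le one_le_two ?_
    have := mul_le_mul_of_nonneg_right hNt hJ0
    push_cast
    linarith only [this, yt2, q1]
  · -- nt2
    have k1 := mul_le_mul_of_nonneg_right N.uu hJ0
    push_cast
    linarith only [k1, yu1, q2, hK0]
  · -- n0
    have := Jn.d1
    push_cast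
    linarith only [this, yv1, q2]
  · -- n1
    have := Jn.d2
    push_cast
    linarith only [this, W2, yv1, q2, x2, m2]
  · -- x0
    have := Jn.d3
    push_cast
    linarith only [this, yv1, q2]
  · -- x1
    have := Jn.d4
    push_cast
    linarith only [this, W2, yv1, q2, x2, m2]
  · -- u0
    have := Jn.d5
    push_cast
    linarith only [this, yv1, q2]
  · -- u1
    have := Jn.d6
    push_cast
    linarith only [this, W2, yv1, q2, x2, m2]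
  · -- m0
    have := Jn.d7
    push_cast
    linarith only [this, yt1, q2]
  · -- m1
    have := Jn.d8
    push_cast
    linarith only [this, yt1, q2, W2]
  · -- mf
    have := mul_le_mul_of_nonneg_right N.mf hJ0
    push_cast
    linarith only [this, yt2, q1, x1]
  · -- f0
    have := mul_le_mul_of_nonneg_right N.f0 hJ0
    push_cast
    linarith only [this, yv2, q1, x1, m1]
  · -- f1
    have := Jn.d9
    push_cast
    linarith only [this, yv2, q1, x1, m1, W1]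
  · -- g0
    have := mul_le_mul_of_nonneg_right N.g0 hJ0
    push_cast
    linarith only [this, yu2, q1, x1, m1]
  · -- g1
    have := Jn.g4
    push_cast
    linarith only [this, yu2, q1, x1, m1, W1]
  · -- v0
    have := mul_le_mul_of_nonneg_right N.v0 hJ0
    push_cast
    linarith only [this, yv2, q1]
  · -- v1
    have := Jn.g1
    push_cast
    linarith only [this, yv2, q1, x1, m1, W1]
  · -- fu1
    have := mul_le_mul_of_nonneg_right hMu hJ0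
    push_cast
    linarith only [this, yu1, q2]

end

end Pool.AVG57
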