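import Pool.Agent.H57.AVN.C2n

/-!
# The rows on the parts of one event: two near places

`C2H.hrow`: the rows. `ncL_lf`, `ncL_L`, `mg_le`: the data of the gradient in the direction of the near
place.
-/

set_option autoImplicit false

namespace Pool.AVG57

open Finset Real MvPolynomial
open Pool.Agent.H49.Ent Pool.Agent.H32.Dense Pool.STK Pool.KA Pool.KSAT Pool.K2S Pool.PB Pool.S6C
open Pool.GEN Pool.CHT Pool.CHX Pool.ISO Pool.RCD Pool.LA91 Pool.AVG71 Pool.AVG5 Pool.D2F2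
open Pool.PB.Trl (rt rt_mem t_rt)
open Pool.D2R (hgt gnh GrdE chs)
open Pool.KVA (MI)
open Pool.KAF (rs Pr)
open Pool.BFL (Pb)
open Pool.AVG66 (plW plW_eval)

section

variable {m : ℕ} {γ : ∀ J : ℕ, Fam m J → Type} {y : ∀ (J : ℕ) (F : Fam m J), F.Ω → γ J F}
  {c : ℕ → Fin m} {r₀ v K : ℕ} {w j x : ℝ} {p s n n' nt nr : ℕ → ℝ}
  {Nd Nt nb nbu Mu : ℝ} {Df Dn Dx Dd : ℕ → ℕ → ℝ} {Ef En Nv : ℕ → ℝ}
  {E h lo hi η t π₀ R U : ℝ} {Kg J : ℕ} {F : Fam m J} {B : F.Ω → Prop} {gm : ℕ → ℕ}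
  {G : ℕ → PtT F → ℕ → MvPolynomial (Option (Fin m)) ℝ}
  {H : LnT F → ℕ → MvPolynomial (Option (Fin m)) ℝ} {ks nn : ℕ}

/-- **The rows on the parts of the event.** -/
theorem C2H.hrow
    (C : C2H y c r₀ v (2 * K + 1) (kq R E (2 * K + 1 + 2) (2 * K + 1)) w j x p n n' nt nr Nd Nt
      nb nbu Mu Df Dn Dx Dd Ef En Nv E h lo hi η t (t / 2) π₀ Kg J F B)
    (L : LbsE F c (v + 1) K w p s E gm B (G 0) H)
    (D : BdR2 v (2 * K + 1 + 2) w n n' nt nr nb nbu Mu Df Dn Dx Dd Ef En Nv (t / 2) Kg R)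
    (hPB : 0 < Pe F.p B) (ht0 : 0 < t) (hη : η ≤ t) (hh : 0 < h) (hh1 : h ≤ 1)
    (a5 : 0 < π₀) (hw0 : 0 ≤ w) (hw1 : w ≤ 1) (hJ1 : 1 ≤ J)
    (r0 : ∀ l < v, nr l = n l) (rv' : nr v = nb) (ru : nr (v + 1) = nbu)
    {Vw Vj Vx : Type} {zw : F.Ω → Vw} {zj : F.Ω → Vj} {zx : F.Ω → Vx}
    (zw1 : Cl2 (ptr F J) (vg w J F) B zw)
    (zw2 : ∀ (V' : Type) (z' : F.Ω → V'), Cl2 (ptr F J) (vg w J F) B z' →
      ∀ ω ν, zw ω = zw ν → z' ω = z' ν)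
    {q X mm W NP NV NR : ℕ} {Λ : Type} {Lp : F.Ω → Λ} {mC : F.Ω → Polynomial ℝ}
    {Um ρ fu eL : ℝ}
    (P : N2E F c r₀ v (K + 1) (2 * K + 2) (2 * K + 3) q ⌊w * J⌋₊ W X mm K ks nn w
      gm (fun l => ⌊n l * J⌋₊) (fun l => ⌊n' l * J⌋₊) B G H zw zj zx (y J F)
      (Pool.Agent.H49.Ent.cond F.p B True) Lp mC n n' nt Nt nb nbu Mu Df Dn Dx Dd Ef En Nv
      NP NV NR U Um ρ fu eL ((η + t) * J)) {ξ qr : ℝ}
    (x1 : (X : ℝ) ≤ ξ * J) (q1 : (q : ℝ) ≤ qr * J) (q2 : qr * J ≤ q + 1)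
    (yt1 : p (v + 2) * J ≤ gm (v + 2) + 1) (yt2 : (gm (v + 2) : ℝ) ≤ s (v + 2) * J)
    (b9 : 2 ≤ t / 2 * J) (hlo : lo + t ≤ p (v + 2) + qr) (hhi : s (v + 2) + qr + ξ + t ≤ hi)
    (hKg : Kg = ⌈hi / (t / 2)⌉₊ + 1) (fX : ℕ) (a : ℕ) (ha : a + fX ≤ X) (E' : Set F.Ω)
    (hE' : π₀ ≤ Pr (Pool.Agent.H49.Ent.cond F.p B True) E') :
    CH (rs (Pool.Agent.H49.Ent.cond F.p B True) E')
      (Mh F c (v + 2) ⌊w * J⌋₊ H (gm (v + 2) + q + (a + fX)))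
      (fun ω => (Mh F c (v + 2) ⌊w * J⌋₊ H (gm (v + 2) + q + a) ω,
        ((Vh F c v ⌊w * J⌋₊ H (nb * J) ω, Vh F c (v + 1) ⌊w * J⌋₊ H (nbu * J) ω),
          (F.T ω, zN F c v ⌊w * J⌋₊ W (2 * K + 2) (K + 1) H (fun l => ⌊n l * J⌋₊)
            (fun l => ⌊n' l * J⌋₊) NP zw Lp ω)))) ≤
      (1 - h) * fX * Real.log 2 + 2 * (t * J) + (2 * (t * J)) / π₀ +
        (2 * v * cS (2 * K + 2) / π₀ + cRw2 v (2 * K + 2)) := by
  have hJ0 : (0 : ℝ) ≤ J := Nat.cast_nonneg J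
  have tJ0 : 0 ≤ t * J := by positivity
  have hη' : (η + t) * J ≤ 2 * t * J := mul_le_mul_of_nonneg_right (by linarith only [hη]) hJ0
  obtain ⟨B', hB'⟩ : ∃ B' : F.Ω → Prop, B' = fun ω => B ω ∧ ω ∈ E' := ⟨_, rfl⟩
  have r1 : rs (Pool.Agent.H49.Ent.cond F.p B True) E' =
      Pool.Agent.H49.Ent.cond F.p B' True := by
    rw [hB']
    exact Pool.RPL.cond_and_ev F.p (E := fun ω => ω ∈ E') hPB.ne'
  have r2 : π₀ * Pe F.p B ≤ Pe F.p B' := by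
    have k1 : Pr (Pool.Agent.H49.Ent.cond F.p B True) E' = Pe F.p B' / Pe F.p B := by
      rw [hB']
      exact Pe_cond (fun ω => ω ∈ E')
    rw [k1, le_div_iff₀ hPB] at hE'
    exact hE'
  have r3 : Sub B' B := fun ω hω => by
    rw [hB'] at hω
    exact hω.1
  have hPB' : 0 < Pe F.p B' := lt_of_lt_of_le (by positivity) r2
  have hcl' := isLaw_cond F.isLaw hPB'
  -- the grid
  obtain ⟨N₁, hN₁⟩ : ∃ N₁ : ℕ, N₁ = gm (v + 2) + q + a := ⟨_, rfl⟩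
  obtain ⟨N₂, hN₂⟩ : ∃ N₂ : ℕ, N₂ = gm (v + 2) + q + (a + fX) := ⟨_, rfl⟩
  have hJp : (0 : ℝ) < J := by exact_mod_cast hJ1
  have hτ : 0 < t / 2 := by positivity
  have n1 : (N₁ : ℝ) = gm (v + 2) + q + a := by rw [hN₁]; push_cast; ring
  have n2 : (N₂ : ℝ) = N₁ + (fX : ℝ) := by rw [hN₂, hN₁]; push_cast; ring
  have na : (0 : ℝ) ≤ a := Nat.cast_nonneg a
  have haX : (a : ℝ) + (fX : ℝ) ≤ X := by exact_mod_cast ha
  obtain ⟨k, hk⟩ : ∃ k : ℕ, k = ⌊(N₁ : ℝ) / (t / 2 * J)⌋₊ := ⟨_, rfl⟩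
  obtain ⟨k', hk'⟩ : ∃ k' : ℕ, k' = ⌈(N₂ : ℝ) / (t / 2 * J)⌉₊ := ⟨_, rfl⟩
  have hden : 0 < t / 2 * J := by positivity
  have s1 : t / 2 * k * J ≤ N₁ := by
    have k1 : (k : ℝ) ≤ (N₁ : ℝ) / (t / 2 * J) := by
      rw [hk]
      exact Nat.floor_le (by positivity)
    rw [le_div_iff₀ hden] at k1
    linarith only [k1]
  have s2 : (N₁ : ℝ) ≤ t / 2 * k * J + t / 2 * J := by
    have k1 : (N₁ : ℝ) / (t / 2 * J) ≤ k + 1 := by
      rw [hk]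
      exact (Nat.lt_floor_add_one _).le
    rw [div_le_iff₀ hden] at k1
    linarith only [k1]
  have s3 : (N₂ : ℝ) ≤ t / 2 * k' * J := by
    have k1 : (N₂ : ℝ) / (t / 2 * J) ≤ k' := by
      rw [hk']
      exact Nat.le_ceil _
    rw [div_le_iff₀ hden] at k1
    linarith only [k1]
  have s4 : t / 2 * k' * J ≤ N₂ + t / 2 * J := by
    have k1 : (k' : ℝ) ≤ (N₂ : ℝ) / (t / 2 * J) + 1 := by
      rw [hk']
      exact (Nat.ceil_lt_add_one (by positivity)).le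
    have k2 := mul_le_mul_of_nonneg_right k1 hden.le
    have k3 : ((N₂ : ℝ) / (t / 2 * J) + 1) * (t / 2 * J) = N₂ + t / 2 * J := by
      field_simp
    linarith only [k2, k3]
  have hfX0 : (0 : ℝ) ≤ (fX : ℝ) := Nat.cast_nonneg _
  have s5 : t / 2 * (k : ℝ) ≤ t / 2 * k' := by
    have k1 : t / 2 * (k : ℝ) * J ≤ t / 2 * k' * J := by linarith only [s1, s3, n2, hfX0]
    exact le_of_mul_le_mul_right k1 hJp
  have s6 : lo ≤ t / 2 * k := by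
    have k1 : lo * J ≤ t / 2 * k * J := by
      have k2 := mul_le_mul_of_nonneg_right hlo hJ0
      linarith only [k2, s2, n1, na, yt1, q2, b9]
    exact le_of_mul_le_mul_right k1 hJp
  have s7 : t / 2 * k' ≤ hi := by
    have k1 : t / 2 * k' * J ≤ hi * J := by
      have k2 := mul_le_mul_of_nonneg_right hhi hJ0
      linarith only [k2, s4, n2, n1, haX, x1, yt2, q1, tJ0]
    exact le_of_mul_le_mul_right k1 hJp
  have s8 : k' < Kg := by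
    have k1 : (k' : ℝ) ≤ hi / (t / 2) := by
      rw [le_div_iff₀ hτ]
      linarith only [s7]
    have k2 : (k' : ℝ) ≤ (⌈hi / (t / 2)⌉₊ : ℝ) := k1.trans (Nat.le_ceil _)
    have k3 : k' ≤ ⌈hi / (t / 2)⌉₊ := by exact_mod_cast k2
    omega
  have s9 : k < Kg := by
    have k1 : (k : ℝ) ≤ k' := le_of_mul_le_mul_left s5 hτ
    have k2 : k ≤ k' := by exact_mod_cast k1
    omega
  have rw1 := C.rows (L.up (show K ≤ 2 * K + 1 by omega)) D hw0 hw1 hJ1 zw1 zw2 s9 s8 s6 s5 s7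
    r3 r2 r0 rv' ru
  have yf' := Pool.OWN83.ch_part F.isLaw r3 hPB a5 r2 (y J F) _
    (e := (2 * v * cS (2 * K + 2) + (η + t) * J) / π₀) (by
      refine P.yf'.trans (le_of_eq ?_)
      field_simp)
  have ev := row_ev2 (y := y J F) (zw := zw) (r₀ := r₀) (nc := fun l => ⌊n l * J⌋₊)
    (nc' := fun l => ⌊n' l * J⌋₊) (c := c) (v := v) (K := 2 * K + 2) (K₁ := K + 1) (D := K)
    (H := H) (W := W) (NP := NP) (Lp := Lp) hcl' (w := ⌊w * J⌋₊) P.wJ P.WJ P.deg P.DK' (n := n)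
    (nb := nb) (nbu := nbu) (P₁ := t / 2 * k) (P₂ := t / 2 * k') (N₁ := N₁) (N₂ := N₂)
    (fun l _ => (Nat.lt_floor_add_one _).le) s1 s3
  rw [r1, ← hN₁, ← hN₂]
  refine ev.trans ?_
  have t1 : (1 - h) * (t / 2 * k' - t / 2 * k) * Real.log 2 * J ≤
      (1 - h) * (fX : ℝ) * Real.log 2 + t * J := by
    have k1 : (t / 2 * k' - t / 2 * k) * J ≤ (fX : ℝ) + t * J := by
      linarith only [s4, s2, n2]
    have l1 := log2_le
    have l2 := log2_ge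
    have k2 : 0 ≤ (1 - h) * Real.log 2 := mul_nonneg (by linarith only [hh1])
      (by linarith only [l2])
    have k3 : (1 - h) * Real.log 2 ≤ 1 := by
      have := mul_le_mul (show 1 - h ≤ 1 by linarith only [hh]) l1 (by linarith only [l2])
        zero_le_one
      linarith only [this]
    have k4 := mul_le_mul_of_nonneg_left k1 k2
    have k5 := mul_le_mul_of_nonneg_right k3 tJ0
    linarith only [k4, k5]
  have t2 : (2 * v * cS (2 * K + 2) + (η + t) * J) / π₀ ≤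
      2 * v * cS (2 * K + 2) / π₀ + (2 * (t * J)) / π₀ := by
    rw [← add_div]
    exact div_le_div_of_nonneg_right (by linarith only [hη']) a5.le
  have t3 : η * J ≤ t * J := mul_le_mul_of_nonneg_right hη hJ0
  linarith only [rw1, yf', t1, t2, t3]

end

/-! ### The gradient in the direction of the near place -/

section

variable {m J : ℕ} {F : Fam m J} {c : ℕ → Fin m} {v K : ℕ} {B : F.Ω → Prop} {gm : ℕ → ℕ}
  {H : LnT F → ℕ → MvPolynomial (Option (Fin m)) ℝ}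

theorem one_div_pow_le {a b : ℕ} (h : a ≤ b) {x : ℝ} (hx : x ≤ 1 / 2 ^ b) : x ≤ 1 / 2 ^ a :=
  hx.trans (one_div_le_one_div_of_le (by positivity) (pow_le_pow_right₀ (by norm_num) h))

/-- **The near code of the line is few bits**, given the codes of the places. -/
theorem ncL_lf {p : F.Ω → ℝ} (hp : IsLaw p) {wn W₁ q' X' mm' q NV : ℕ} (hwW : wn ≤ W₁)
    (hW : W₁ ≤ J) (hH : ∀ s l, (H s l).totalDegree ≤ K) {nc nc' nc₁ nc₁' : ℕ → ℕ}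
    {ζ₁ ζ : Type} {z₁ : F.Ω → ζ₁} {zw : F.Ω → ζ} (hz : ∀ ω ν, zw ω = zw ν → z₁ ω = z₁ ν)
    (h1 : ∀ l < v, nc₁ l ≤ nc l ∧ nc₁' l ≤ nc' l) (h2 : nc₁ v ≤ NV) (h3 : nc₁' v ≤ NV)
    (h4 : nc₁' (v + 1) ≤ gm (v + 1) + q + 2 * (K + 1)) (h5 : q' + (X' + mm') ≤ q)
    (𝓦 : Type) (Z : F.Ω → 𝓦) (hZ : ∀ ω ν, 0 < p ω → 0 < p ν → Z ω = Z ν →
      F.T ω = F.T ν ∧ F.Z ω = F.Z ν ∧ zw ω = zw ν ∧
        sdL F c v wn (2 * K + 2) H nc nc' ω = sdL F c v wn (2 * K + 2) H nc nc' ν ∧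
        cod F wn (fun s => H s v) (c v) NV 0 (2 * K + 2) ω =
          cod F wn (fun s => H s v) (c v) NV 0 (2 * K + 2) ν ∧
        cod F wn (fun s => H s (v + 1)) (c (v + 1)) (gm (v + 1) + q + 2 * (K + 1)) 0 (K + 1) ω =
          cod F wn (fun s => H s (v + 1)) (c (v + 1)) (gm (v + 1) + q + 2 * (K + 1)) 0
            (K + 1) ν ∧
        cod F wn (fun s => H s (v + 2)) (c (v + 2)) (gm (v + 2) + q' + X') 0 (2 * K + 2) ω =
          cod F wn (fun s => H s (v + 2)) (c (v + 2)) (gm (v + 2) + q' + X') 0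
            (2 * K + 2) ν) :
    CH p (ncL F c (v + 1) q' wn W₁ X' mm' (K + 1) gm H z₁ nc₁ nc₁') Z ≤ cP (v + 1) (K + 1) := by
  refine ncL_few hp hwW hW hH le_rfl Z fun ω ν a b e => ?_
  obtain ⟨e1, e2, e3, e4, e5, e6, e7⟩ := hZ ω ν a b e
  refine ⟨e1, e2, hz _ _ e3, fun l hl b' hb => ?_, fun l hl b' hb1 hb => ?_, fun b' hb1 hb => ?_,
    fun b' hb => ?_, fun b' hb => ?_⟩
  · rcases Nat.lt_or_ge l v with h | h
    · exact one_div_pow_le (h1 l h).1 (cod_near (sdL_fst e4 h) (Nat.zero_le _) (by omega))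
    · have h' : l = v := by omega
      subst h'
      exact one_div_pow_le h2 (cod_near e5 (Nat.zero_le _) (by omega))
  · rcases Nat.lt_or_ge l v with h | h
    · exact one_div_pow_le (h1 l h).2 (sdL_snd e4 h.le (by rw [if_neg h.ne]; exact hb1) (by omega))
    · have h' : l = v := by omega
      subst h'
      exact one_div_pow_le h3 (cod_near e5 (Nat.zero_le _) (by omega))
  · exact one_div_pow_le h4 (cod_near e6 (Nat.zero_le _) hb)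
  · exact one_div_pow_le (by omega) (cod_near e6 (Nat.zero_le _) hb)
  · exact cod_near e7 (Nat.zero_le _) (by omega)

/-- The near code of the line is a function of the line. -/
theorem ncL_L {p : F.Ω → ℝ} (hp : ∀ ω, 0 < p ω → B ω) {w : ℝ} {W₁ W q' X' mm' : ℕ}
    (hwW : ⌊w * J⌋₊ ≤ W₁) (h1 : W₁ ≤ W) (hW : W ≤ J) {ζ₁ : Type} {z₁ : F.Ω → ζ₁}
    (hz : Cl2 (ptr F J) (vg w J F) B z₁) {nc₁ nc₁' : ℕ → ℕ} :
    Det p (slam F W) (ncL F c v q' ⌊w * J⌋₊ W₁ X' mm' K gm H z₁ nc₁ nc₁') := by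
  intro ω ν hω hν e
  have e1 : slam F W₁ ω = slam F W₁ ν := by
    rw [← upw_slam F h1 hW ω, ← upw_slam F h1 hW ν, e]
  have d1 : Det p (slam F W₁) z₁ := fun ω ν a b e => by
    have e2 : slam F ⌊w * J⌋₊ ω = slam F ⌊w * J⌋₊ ν := by
      rw [← upw_slam F hwW (h1.trans hW) ω, ← upw_slam F hwW (h1.trans hW) ν, e]
    obtain ⟨ψ, hψ⟩ := hz.2
    rw [hψ ω (hp ω a), hψ ν (hp ν b)]
    exact congrArg ψ e2
  have d2 := zxs_L (c := c) (k₀ := 0) d1 (sdL_L (c := c) (v := v) (K := K) (H := H) (nc := nc₁)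
    (nc' := nc₁') hwW (h1.trans hW) p)
  exact adG_L p d2 K ω ν hω hν e1

/-- **The gradient in the direction of the near place**: `mC`. -/
theorem mg_le {W₁ W : ℕ} (h1 : W₁ ≤ W) (hW : W ≤ J) (P : Polynomial ℝ) (ω : F.Ω)
    {g g' U κ₁ : ℝ} {X X' : ℕ} (hg : |g - g'| ≤ U / 2 ^ X)
    (hg' : |g' - P.eval (rt F W₁ ω)| ≤ (2 : ℝ) ^ (-(κ₁ * X'))) (hX : (X : ℝ) ≤ κ₁ * X') :
    |g - (plW F W₁ W P ω).eval (rt F W ω)| ≤ (U + 1) / 2 ^ X := by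
  rw [plW_eval F h1 hW]
  have h2 : (2 : ℝ) ^ (-(κ₁ * X')) ≤ 1 / 2 ^ X := by
    rw [one_div, ← Real.rpow_natCast, ← Real.rpow_neg two_pos.le]
    exact Real.rpow_le_rpow_of_exponent_le one_le_two (by linarith)
  have e1 : g - P.eval (rt F W₁ ω) = (g - g') + (g' - P.eval (rt F W₁ ω)) := by ring
  rw [e1, add_div]
  exact (abs_add_le _ _).trans (add_le_add hg (hg'.trans h2))

end

/-- The total error is not small. -/
theorem fu_le_eN {v K₁ K M : ℕ} {ρ η eL eR fu : ℝ} (hη : 0 ≤ η) (hρ : 0 ≤ ρ) (heL : 0 ≤ eL)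
    (heR : 0 ≤ eR) (hfu : 0 ≤ fu) : fu ≤ eN v K₁ K M ρ η eL eR fu := by
  have hcS := cS_nonneg K
  have hcS₁ := cS_nonneg K₁
  have hcD := cD_nonneg K
  have hcD₁ := cD_nonneg K₁
  have hcL := cL_nonneg K
  have hcL₁ := cL_nonneg K₁
  have hcM := cM_nonneg K₁ M
  have hcQ := cQ_nonneg K₁ (2 * K₁)
  have hρl : 0 ≤ Real.log (2 * (ρ + 1) + 1) := Real.log_nonneg (by linarith)
  have h5 : 0 ≤ Real.log 5 := Real.log_nonneg (by norm_num)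
  have p1 : 0 ≤ ((v : ℝ) + 1) * (2 * η + 2 * cD K) := by positivity
  have p2 : 0 ≤ 4 * (v : ℝ) * cS K := by positivity
  have p3 : 0 ≤ ((v + 2 : ℕ) : ℝ) * (M + 1) * cM K₁ M := by positivity
  have p4 : 0 ≤ ((K : ℝ) + 1) * Real.log (2 * (ρ + 1) + 1) := by positivity
  unfold eN
  linarith

end Pool.AVG57
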