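import Pool.Agent.H66.AVG.Grn
import Pool.Agent.H57.AVG.C1c

/-!
# The last place of the chain as moved place: the gradient as a function of the near code

`avl_evL`: as `avl_ev`; the gradient of the target is a polynomial with bounded coefficients, a
function of the near code of the line.
-/

set_option autoImplicit false

namespace Pool.AVG57

open Finset Real MvPolynomial
open Pool.Agent.H49.Ent Pool.Agent.H32.Dense Pool.STK Pool.KA Pool.KSAT Pool.K2S Pool.PB Pool.S6C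
open Pool.GEN Pool.CHT Pool.CHX Pool.ISO Pool.LA91 Pool.AVG71 Pool.AVG5 Pool.D2F2
open Pool.PB.Trl (rt rt_mem t_rt)
open Pool.D2R (hgt gnh GrdE chs)
open Pool.KVA (MI)
open Pool.KAF (rs Pr)
open Pool.BFL (Pb)
open Pool.AVG66 (av1_evL cN)

variable {m J : ℕ}

section

variable {F : Fam m J} {c : ℕ → Fin m} {k : ℕ} {mv : Fin k → ℕ} {i q w W X mm D K : ℕ} {γ : ℕ → ℕ}
  {B : F.Ω → Prop} {G₀ : PtT F → ℕ → MvPolynomial (Option (Fin m)) ℝ}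
  {H : LnT F → ℕ → MvPolynomial (Option (Fin m)) ℝ} {gg : F.Ω → Fin k → ℝ}
  {ζ ζ' υ' χ₁ χ₂ ρ₁ ρ₂ υ : Type} {z : F.Ω → ζ} {zw : F.Ω → ζ'} {Yc : F.Ω → υ'}
  {Cj : F.Ω → χ₁} {Cx : F.Ω → χ₂} {Rj : F.Ω → ρ₁} {Rx : F.Ω → ρ₂} {V : F.Ω → υ}
  {p : F.Ω → ℝ} {Nf Nn Nx Nu Nv : Fin k → ℕ → ℝ} {Mf Mn : ℕ → ℝ} {U Fv e : ℝ}

/-- `PrG` without more far data. -/
theorem prG_prX (P : PrG F c mv i q w W X mm D K γ B G₀ H gg z zw Yc Cj Cx Rj Rx V p Nf Nn Nx Nu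
    Nv Mf Mn U Fv e) :
    PrX F c mv i q w W X mm D K γ B G₀ H gg z zw Yc (fun _ => ()) Cj Cx Rj Rx V p Nf Nn Nx Nu Nv
      Mf Mn U Fv e where
  law := P.law
  sup := P.sup
  wW := P.wW
  WJ := P.WJ
  deg := P.deg
  DK := P.DK
  KX := P.KX
  cls := P.cls
  grd := P.grd
  mU := P.mU
  zT := P.zT
  czy := P.czy
  cyz := P.cyz
  ti := P.ti
  mj := (MI_mono P.law.nonneg Rj (X := fun ω => (jetm F c mv w H Nf ω, pr2 F c w H i Mf ω))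
    (X' := fun ω => ((jetm F c mv w H Nf ω, ()), pr2 F c w H i Mf ω))
    (fun ω => ((jetm F c mv w H Nn ω, pr2 F c w H i Mn ω), (zw ω, Yc ω))) (fun ω ν _ _ e => by
      obtain ⟨e1, -⟩ := Prod.ext_iff.mp e
      obtain ⟨e2, e3⟩ := Prod.ext_iff.mp e1
      exact Prod.ext (Prod.ext e2 rfl) e3)).trans P.mj
  mx := (MI_mono P.law.nonneg Rx (X := jetm F c mv w H Nf)
    (X' := fun ω => (jetm F c mv w H Nf ω, ()))
    (fun ω => (jetm F c mv w H Nx ω, (zw ω, Yc ω))) (fun ω ν _ _ e =>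
      Prod.ext (Prod.ext_iff.mp e).1 rfl)).trans P.mx
  chj := P.chj
  chx := P.chx
  zx := P.zx
  n0 := P.n0
  n1 := P.n1
  x0 := P.x0
  x1 := P.x1
  u0 := P.u0
  u1 := P.u1
  m0 := P.m0
  m1 := P.m1
  mf := P.mf
  ac := P.ac
  va := P.va
  dj := (CH_mono_cond P.law.nonneg fun ω ν _ _ e => by
    obtain ⟨e1, e2⟩ := Prod.ext_iff.mp e
    exact Prod.ext (Prod.ext_iff.mp e1).1 e2).trans P.dj
  jt := P.jt
  vf := P.vf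

end

/-- **Closed gradient in the direction of the last place of the chain**, on one event, a function of
the near code. -/
theorem avl_evL (K : ℕ) (cc ε : ℝ) (hcc : 0 < cc) (hε : 0 < ε) :
    ∃ (κ₂ κ π₀ ι ε₀ : ℝ) (k₁ j₀ X₀ : ℕ), 0 < κ₂ ∧ κ₂ ≤ 1 ∧ 0 < κ ∧ κ ≤ 1 ∧ 0 < π₀ ∧ 0 < ι ∧
      0 < ε₀ ∧
      ∀ {m J : ℕ} {F : Fam m J} {c : ℕ → Fin m} {v q w W X mm D ks n : ℕ} {γ nc nc' : ℕ → ℕ}
        {B : F.Ω → Prop} {G : ℕ → PtT F → ℕ → MvPolynomial (Option (Fin m)) ℝ}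
        {H : LnT F → ℕ → MvPolynomial (Option (Fin m)) ℝ} {ζ υ ρ₁ ρ₂ : Type} {zw : F.Ω → ζ}
        {Yc : F.Ω → υ} {Rj : F.Ω → ρ₁} {Rx : F.Ω → ρ₂} {p : F.Ω → ℝ}
        {Nf Nn Nx Nu Nv Mf Mn : ℕ → ℝ} {U Nb e : ℝ}
        (_ : AvL F c v q w W X mm D K ks n γ nc nc' B G H zw Yc Rj Rx p Nf Nn Nx Nu Nv Mf Mn U
          Nb e)
        {Ur ψ : ℝ}, ((γ v + q + X : ℕ) : ℝ) ≤ Nb → Nb ≤ (γ v + q + (X + mm) : ℕ) →
        Nv 0 * J + X ≤ Nb →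
        (∀ a : ℕ, a + ⌊κ * X⌋₊ ≤ X → ∀ E : Set F.Ω, π₀ ≤ Pr p E →
          CH (rs p E) (Mh F c (v + 1) w H (γ (v + 1) + q + (a + ⌊κ * X⌋₊)))
            (fun ω => (Mh F c (v + 1) w H (γ (v + 1) + q + a) ω, (Vh F c v w H Nb ω,
              (F.T ω, zxs F c 0 W zw (sdL F c v w K H nc nc') ω)))) ≤ Ur) →
        TimW F p W j₀ ε₀ ψ → X₀ ≤ X → W + X ≤ J → ψ * J ≤ e →
        ψ * J ≤ ι * X * Real.log 2 → (mm : ℝ) ≤ ι * X →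
        6 * (7 * e + cE0 1 K (U + 8 * (v + 1 : ℕ) * U) + 3 * cN K 0 + cV K) ≤ ι * X →
        3 * (7 * e + cE0 1 K (U + 8 * (v + 1 : ℕ) * U) + 3 * cN K 0 + cV K) +
          mm * Real.log 2 ≤ ι * X * Real.log 2 →
        Ur + cR 1 K ((U + 8 * (v + 1 : ℕ) * U) + 2) + (4 * (7 * e +
          cE0 1 K (U + 8 * (v + 1 : ℕ) * U) + 3 * cN K 0 + cV K) + mm * Real.log 2 +
            Real.log 2) / π₀ ≤ (1 - cc) * ⌊κ * X⌋₊ * Real.log 2 →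
        ∃ mu : Lam (ζ × ((F.ζ × ℕ) × ((Fin 0 → ℝ × ℝ) ×
            (Fin (v + 1) → (Fin (K + 1) → ℤ) × (Fin (K + 1) → ℤ))))) 1 K → Polynomial ℝ,
          (∀ l, (mu l).natDegree ≤ K) ∧
          (∀ l a, |(mu l).coeff a| ≤ (K + 1) * 2 ^ ((k₁ + 1) * K) *
            (U + 8 * (v + 1 : ℕ) * U + 1)) ∧
          Pb p (fun ω => (2 : ℝ) ^ (-(κ₂ * X)) <
            |gnh F c (v + 1) γ (G 0) (G n) ω v - (mu ((adG F c (fun _ : Fin 1 => v) (v + 1) q w W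
              X mm γ (fun ω _ => gnh F c (v + 1) γ (G 0) (G n) ω v) H
              (zxs F c 0 W zw (sdL F c v w K H nc nc'))).L K ω)).eval (rt F W ω)|) ≤ ε := by
  obtain ⟨κ₂, κ, π₀, ι, ε₀, k₁, j₀, X₀, a1, a2, a3, a4, a5, a6, a7, Hm⟩ :=
    av1_evL K cc ε hcc hε
  refine ⟨κ₂, κ, π₀, ι, ε₀, k₁, j₀, X₀, a1, a2, a3, a4, a5, a6, a7, ?_⟩
  intro m J F c v q w W X mm D ks n γ nc nc' B G H ζ υ ρ₁ ρ₂ zw Yc Rj Rx p Nf Nn Nx Nu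
    Nv Mf Mn U Nb e P Ur ψ hN1 hN2 hNX hrow hT hX hJ hψe hψ hmm n1 n2 n3
  exact Hm (prG_prX (P.prg hT hψe)) hN1 hN2 hNX hrow hT (zxs_L P.zL (sdL_L P.wW P.WJ p)) hX hJ hψ
    hmm n1 n2 n3

end Pool.AVG57
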