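import Pool.Agent.H57.AVN.Lnb

/-!
# Codes and jets: few bits

`jt1_low`, `cod_low`: fewer digits. `cod_pos`: the code from the height and the code of the orders
`≥ 1`. `cod_js`: the code from the jets of all orders. `jetM_cod`: the jets from the codes. `MI_add2`,
`MI_add3`: mutual informations. `ncL_few`: the near code of the line from the codes.
-/

set_option autoImplicit false

namespace Pool.AVG57

open Finset Real MvPolynomial
open Pool.Agent.H49.Ent Pool.Agent.H32.Dense Pool.STK Pool.KA Pool.KSAT Pool.K2S Pool.PB Pool.S6C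
open Pool.GEN Pool.CHT Pool.CHX Pool.ISO Pool.RCD Pool.LA91 Pool.AVG71 Pool.AVG5 Pool.D2F2
open Pool.PB.Trl (rt rt_mem t_rt)
open Pool.D2R (hgt gnh GrdE chs)
open Pool.KVA (MI)
open Pool.KAF (rs Pr)
open Pool.BFL (Pb)

/-! ### Entropy -/

section ent

variable {Ω 𝓡 𝓨 𝓦 𝓥 𝓐 𝓑 : Type} [Fintype Ω] {p : Ω → ℝ}

/-- The mutual information with more bits in the condition, few given the variable. -/
theorem MI_add2 (h0 : ∀ ω, 0 ≤ p ω) (R : Ω → 𝓡) (X : Ω → 𝓐) {Z : Ω → 𝓦} {Z' : Ω → 𝓥}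
    {C : Ω → 𝓨} (h1 : Det p Z' Z) (h2 : Det p (fun ω => (C ω, Z ω)) Z') :
    MI p R X Z' ≤ MI p R X Z + CH p C (fun ω => (X ω, Z ω)) := by
  rw [MI_eq h0, MI_eq h0]
  have a1 : CH p R Z' ≤ CH p R Z := CH_mono_cond h0 h1
  have a2 := CH_le_add h0 R C (fun ω => (X ω, Z ω))
  have a4 : CH p R (fun ω => (C ω, (X ω, Z ω))) ≤ CH p R (fun ω => (X ω, Z' ω)) :=
    CH_mono_cond h0 fun ω ν hω hν e => by
      obtain ⟨e1, e2⟩ := Prod.ext_iff.mp e
      obtain ⟨e3, e4⟩ := Prod.ext_iff.mp e2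
      exact Prod.ext e3 (h2 ω ν hω hν (Prod.ext e1 e4))
  linarith

/-- The mutual information with more bits in the condition: `C₁` few given the variable, `C₂` few given
the record. -/
theorem MI_add3 (h0 : ∀ ω, 0 ≤ p ω) (R : Ω → 𝓡) (X : Ω → 𝓐) {Z : Ω → 𝓦} {Z' : Ω → 𝓥}
    {C₁ : Ω → 𝓨} {C₂ : Ω → 𝓑} (h1 : Det p Z' (fun ω => (C₁ ω, Z ω)))
    (h2 : Det p (fun ω => (C₂ ω, (C₁ ω, Z ω))) Z') :
    MI p R X Z' ≤ MI p R X Z + CH p C₁ (fun ω => (X ω, Z ω)) +
      CH p C₂ (fun ω => (R ω, (C₁ ω, Z ω))) := by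
  have b1 := MI_add2 h0 R X (Z := Z) (Z' := fun ω => (C₁ ω, Z ω)) (C := C₁)
    (fun ω ν _ _ e => (Prod.ext_iff.mp e).2) (fun _ _ _ _ e => e)
  have b2 : MI p R X Z' ≤ MI p R X (fun ω => (C₁ ω, Z ω)) +
      CH p C₂ (fun ω => (R ω, (C₁ ω, Z ω))) := by
    rw [MI_eq' h0, MI_eq' h0]
    have a1 : CH p X Z' ≤ CH p X (fun ω => (C₁ ω, Z ω)) := CH_mono_cond h0 h1
    have a2 := CH_le_add h0 X C₂ (fun ω => (R ω, (C₁ ω, Z ω)))
    have a4 : CH p X (fun ω => (C₂ ω, (R ω, (C₁ ω, Z ω)))) ≤ CH p X (fun ω => (R ω, Z' ω)) :=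
      CH_mono_cond h0 fun ω ν hω hν e => by
        obtain ⟨e1, e2⟩ := Prod.ext_iff.mp e
        obtain ⟨e3, e4⟩ := Prod.ext_iff.mp e2
        exact Prod.ext e3 (h2 ω ν hω hν (Prod.ext e1 e4))
    linarith
  linarith

end ent

variable {m J : ℕ}

/-! ### Fewer digits -/

theorem fl_low {x x' s s' : ℝ} (hs : 0 < s) (hs' : 0 ≤ s') (h : s' ≤ s)
    (e : ⌊s * x⌋ = ⌊s * x'⌋) : |((⌊s' * x⌋ : ℤ) : ℝ) - ⌊s' * x'⌋| ≤ 2 := by
  have g1 := near_of_floor hs e
  have g2 : |s' * x - s' * x'| ≤ 1 := by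
    rw [← mul_sub, abs_mul, abs_of_nonneg hs']
    calc s' * |x - x'| ≤ s * (1 / s) := mul_le_mul h g1 (abs_nonneg _) hs.le
      _ = 1 := by field_simp
  have g3 := floor_near' g2
  linarith

section

variable {F : Fam m J} {c : ℕ → Fin m} {w W K D : ℕ}
  {H : LnT F → ℕ → MvPolynomial (Option (Fin m)) ℝ} {p : F.Ω → ℝ}

/-- Fewer digits of the jets of the orders `0`, `1`. -/
theorem jt1_low (hp : IsLaw p) {l : ℕ} {N N' : ℕ → ℝ} (hN : ∀ j' ≤ 1, N j' ≤ N' j') {𝓦 : Type}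
    (Z : F.Ω → 𝓦) (hZ : ∀ ω ν, 0 < p ω → 0 < p ν → Z ω = Z ν → ∀ j' ≤ 1,
      ⌊(2 : ℝ) ^ (N' j' * J) * ojet F (c l) j' (H (slam F w ω) l) ω⌋ =
        ⌊(2 : ℝ) ^ (N' j' * J) * ojet F (c l) j' (H (slam F w ν) l) ν⌋) :
    CH p (jt1 F c l w H N) Z ≤ 2 * Real.log 5 := by
  have h1 := CH_near hp (jt1 F c l w H N) Z (D := 2) (by norm_num) fun ω ν hω hν e i => ?_
  · rw [Fintype.card_prod, Fintype.card_fin, Fintype.card_fin] at h1
    norm_num at h1
    exact h1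
  · obtain ⟨i, ⟨a, ha⟩⟩ := i
    have h2 := hZ ω ν hω hν e a (by omega)
    show |((⌊(2 : ℝ) ^ (N a * J) * ojet F (c l) a (H (slam F w ω) l) ω⌋ : ℤ) : ℝ) -
      ⌊(2 : ℝ) ^ (N a * J) * ojet F (c l) a (H (slam F w ν) l) ν⌋| ≤ 2
    refine fl_low (Real.rpow_pos_of_pos two_pos _) (Real.rpow_pos_of_pos two_pos _).le ?_ h2
    exact Real.rpow_le_rpow_of_exponent_le one_le_two
      (mul_le_mul_of_nonneg_right (hN a (by omega)) (Nat.cast_nonneg J))

/-- Fewer digits of a code. -/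
theorem cod_low {Hl : LnT F → MvPolynomial (Option (Fin m)) ℝ} {κ : Fin m} {n n' a₀ a₀' K K' : ℕ}
    (hn : n ≤ n') (ha : a₀' ≤ a₀) (hK : K ≤ K') {ω ν : F.Ω}
    (h : cod F w Hl κ n' a₀' K' ω = cod F w Hl κ n' a₀' K' ν) :
    cod F w Hl κ n a₀ K ω = cod F w Hl κ n a₀ K ν := by
  have key : ∀ x : ℝ, ⌊(2 : ℝ) ^ n * x⌋ = ⌊(2 : ℝ) ^ n' * x⌋ / 2 ^ (n' - n) := by
    intro x
    have h1 := Int.floor_div_natCast ((2 : ℝ) ^ n' * x) (2 ^ (n' - n))
    have e1 : (2 : ℝ) ^ n' * x / ((2 ^ (n' - n) : ℕ) : ℝ) = 2 ^ n * x := by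
      have e2 : (2 : ℝ) ^ n' = 2 ^ n * 2 ^ (n' - n) := by
        rw [← pow_add]
        congr 1
        omega
      rw [e2]
      push_cast
      field_simp
    rw [e1] at h1
    push_cast at h1
    exact h1
  funext a
  have h3 := congrFun h ⟨a, by omega⟩
  unfold cod at h3 ⊢
  by_cases h4 : a₀ ≤ (a : ℕ)
  · have h5 : a₀' ≤ (a : ℕ) := ha.trans h4
    simp only [if_pos h5] at h3
    rw [if_pos h4, if_pos h4, key, key, h3]
  · rw [if_neg h4, if_neg h4]

/-! ### Codes from jets -/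

/-- The code of all orders from the height and the code of the orders `≥ 1`. -/
theorem cod_pos (hp : IsLaw p) (hw : w ≤ J) (hH : ∀ s l, (H s l).totalDegree ≤ D)
    (hK : D + 1 ≤ K) {l n a₀ : ℕ} {N : ℝ} (h0 : (n : ℝ) ≤ N * J) {𝓦 : Type} (Z : F.Ω → 𝓦)
    (hZ : ∀ ω ν, 0 < p ω → 0 < p ν → Z ω = Z ν → F.T ω = F.T ν ∧
      ⌊(2 : ℝ) ^ (N * J) * ojet F (c l) 0 (H (slam F w ω) l) ω⌋ =
        ⌊(2 : ℝ) ^ (N * J) * ojet F (c l) 0 (H (slam F w ν) l) ν⌋ ∧
      cod F w (fun s => H s l) (c l) n 1 K ω = cod F w (fun s => H s l) (c l) n 1 K ν) :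
    CH p (cod F w (fun s => H s l) (c l) n a₀ K) Z ≤ cD K := by
  refine cod_few hp Z (D := (K + 1) * 2 ^ K * (2 + (K + 1) * 2 ^ K)) (by positivity)
    fun ω ν hω hν e b _ _ => ?_
  obtain ⟨z1, z2, z3⟩ := hZ ω ν hω hν e
  have p2 : (0 : ℝ) < 2 ^ n := by positivity
  have hdeg := natDegree_dvH (F := F) (c := c) (w := w) hH hK l
  have g0 := near_of_floor (Real.rpow_pos_of_pos two_pos (N * J)) z2
  have k0 : |ojet F (c l) 0 (H (slam F w ω) l) ω - ojet F (c l) 0 (H (slam F w ν) l) ν| ≤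
      2 / 2 ^ n := by
    refine g0.trans ?_
    have h3 : (2 : ℝ) ^ n ≤ 2 ^ (N * J) := by
      rw [← Real.rpow_natCast]
      exact Real.rpow_le_rpow_of_exponent_le one_le_two h0
    calc (1 : ℝ) / 2 ^ (N * J) ≤ 1 / 2 ^ n := one_div_le_one_div_of_le p2 h3
      _ ≤ 2 / 2 ^ n := div_le_div_of_nonneg_right (by norm_num) p2.le
  have h4 := dv_near (F := F) (a := w) hw (k := c l) (N := K) (a₀ := 1)
    (G := fun s (_ : Fin m) => H s l) (ω := ω) (ν := ν) (fun s => hdeg s) (rt_of F hw z1)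
    (ε := 1 / 2 ^ n) (δ := 2 / 2 ^ n) (by positivity) (by positivity) (fun b hb => by
      rcases Nat.lt_or_ge K b with h5 | h5
      · rw [Polynomial.coeff_eq_zero_of_natDegree_lt ((hdeg _).trans_lt h5),
          Polynomial.coeff_eq_zero_of_natDegree_lt ((hdeg _).trans_lt h5), sub_self, abs_zero]
        positivity
      · exact cod_near z3 hb h5) (fun j hj => by
      obtain rfl : j = 0 := by omega
      rw [pow_zero, div_one]
      exact k0) b
  refine h4.trans (le_of_eq ?_)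
  field_simp

/-- The constant of the codes from the jets of all orders. -/
noncomputable def cQ (K E : ℕ) : ℝ :=
  (K + 1) * Real.log (2 * ((K + 1) * 2 ^ K * (2 ^ (E + K)) + 1) + 1)

theorem cQ_nonneg (K E : ℕ) : 0 ≤ cQ K E := by
  unfold cQ
  have h1 : (0 : ℝ) ≤ (K + 1) * 2 ^ K * (2 ^ (E + K)) := by positivity
  exact mul_nonneg (by positivity) (Real.log_nonneg (by linarith))

/-- **The code from the jets of all orders** to the digits `N - j' w`. -/
theorem cod_js (hp : IsLaw p) {wr : ℝ} (hwr : 0 ≤ wr) (hwe : w = ⌊wr * J⌋₊) (hw : w ≤ J)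
    (hH : ∀ s l, (H s l).totalDegree ≤ D) (hK : D + 1 ≤ K) {l n a₀ E : ℕ} {N : ℝ}
    (h0 : (n : ℝ) ≤ N * J + E) {𝓦 : Type} (Z : F.Ω → 𝓦)
    (hZ : ∀ ω ν, 0 < p ω → 0 < p ν → Z ω = Z ν → F.T ω = F.T ν ∧ ∀ j' ≤ K,
      ⌊(2 : ℝ) ^ ((N - (j' : ℕ) * wr) * J) * ojet F (c l) j' (H (slam F w ω) l) ω⌋ =
        ⌊(2 : ℝ) ^ ((N - (j' : ℕ) * wr) * J) * ojet F (c l) j' (H (slam F w ν) l) ν⌋) :
    CH p (cod F w (fun s => H s l) (c l) n a₀ K) Z ≤ cQ K E := by
  refine cod_few hp Z (D := (K + 1) * 2 ^ K * (2 ^ (E + K))) (by positivity)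
    fun ω ν hω hν e b _ _ => ?_
  obtain ⟨z1, z2⟩ := hZ ω ν hω hν e
  have p2 : (0 : ℝ) < 2 ^ n := by positivity
  have hdeg := natDegree_dvH (F := F) (c := c) (w := w) hH hK l
  have hwl : wr * J ≤ w + 1 := by
    rw [hwe]
    exact (Nat.lt_floor_add_one _).le
  have h4 := dv_near (F := F) (a := w) hw (k := c l) (N := K) (a₀ := K + 1)
    (G := fun s (_ : Fin m) => H s l) (ω := ω) (ν := ν) (fun s => hdeg s) (rt_of F hw z1)
    (ε := 0) (δ := 2 ^ (E + K) / 2 ^ n) le_rfl (by positivity) (fun b hb => by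
      rw [Polynomial.coeff_eq_zero_of_natDegree_lt ((hdeg _).trans_lt (by omega)),
        Polynomial.coeff_eq_zero_of_natDegree_lt ((hdeg _).trans_lt (by omega)), sub_self,
        abs_zero]) (fun j hj => by
      have p3 : (0 : ℝ) < 2 ^ ((N - (j : ℕ) * wr) * J) := Real.rpow_pos_of_pos two_pos _
      have g0 := near_of_floor p3 (z2 j (by omega))
      refine (div_le_div_of_nonneg_right g0 (by positivity)).trans ?_
      rw [div_div, div_le_div_iff₀ (by positivity) p2, one_mul]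
      have e4 : (2 : ℝ) ^ (E + K) * (2 ^ ((N - (j : ℕ) * wr) * J) * (2 ^ w) ^ j) =
          2 ^ (((E + K : ℕ) : ℝ) + ((N - (j : ℕ) * wr) * J + ((w * j : ℕ) : ℝ))) := by
        rw [Real.rpow_add two_pos, Real.rpow_add two_pos, Real.rpow_natCast, Real.rpow_natCast,
          pow_mul]
      rw [e4, ← Real.rpow_natCast]
      refine Real.rpow_le_rpow_of_exponent_le one_le_two ?_
      have e5 : wr * J * j ≤ (w + 1) * j := mul_le_mul_of_nonneg_right hwl (Nat.cast_nonneg j)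
      have e6 : (j : ℝ) ≤ K := by exact_mod_cast (Nat.lt_succ_iff.1 hj)
      push_cast
      nlinarith) b
  refine h4.trans (le_of_eq ?_)
  rw [mul_zero, add_zero]
  ring

/-! ### Jets from codes -/

/-- **The jets of the orders `≤ M`** of the places `r₀ ≤ l < r`, to the digits `nt l - j' w`, from the
coefficients. -/
theorem jetM_cod (hp : IsLaw p) {wr : ℝ} (hwr : 0 ≤ wr) (hwe : w = ⌊wr * J⌋₊) (hw : w ≤ J)
    (hH : ∀ s l, (H s l).totalDegree ≤ D) (hK : D + 1 ≤ K) {r₀ r M : ℕ} {nt : ℕ → ℝ} {𝓦 : Type}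
    (Z : F.Ω → 𝓦)
    (hZ : ∀ ω ν, 0 < p ω → 0 < p ν → Z ω = Z ν → F.T ω = F.T ν ∧ ∀ l, r₀ ≤ l → l < r →
      ∀ a : ℕ, ∃ n : ℕ, nt l * J ≤ n + 1 ∧ ∀ b, a ≤ b → b ≤ K →
        |(dv w (fun s (_ : Fin m) => H s l) (c l) (slam F w ω)).coeff b -
          (dv w (fun s (_ : Fin m) => H s l) (c l) (slam F w ν)).coeff b| ≤ 1 / 2 ^ n) :
    CH p (jetM F c w H r₀ r M (fun l j' => nt l - (j' : ℝ) * wr)) Z ≤
      r * (M + 1) * cM K M := by
  have h0' := hp.nonneg
  have key := CH_near hp (fun ω (i : Fin r × Fin (M + 1)) =>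
      jetM F c w H r₀ r M (fun l j' => nt l - (j' : ℝ) * wr) ω i.1 i.2) Z
    (D := 2 * (M.factorial * 2 ^ M * ((K + 1) * 2 ^ K)) + 1) (by positivity)
    fun ω ν hω hν e i => ?_
  · refine (CH_mono_left h0' fun ω ν _ _ e => ?_).trans (key.trans (le_of_eq ?_))
    · have e1 := (Prod.ext_iff.mp e).1
      funext l j'
      by_cases h : r₀ ≤ l ∧ l < r ∧ j' ≤ M
      · exact congrFun e1 (⟨l, h.2.1⟩, ⟨j', by omega⟩)
      · unfold jetM
        rw [if_neg h, if_neg h]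
    · rw [Fintype.card_prod, Fintype.card_fin, Fintype.card_fin]
      unfold cM
      push_cast
      ring
  · obtain ⟨z1, z2⟩ := hZ ω ν hω hν e
    obtain ⟨⟨l, hl⟩, ⟨a, ha⟩⟩ := i
    unfold jetM
    dsimp only
    by_cases hlr : r₀ ≤ l ∧ l < r ∧ a ≤ M
    swap
    · rw [if_neg hlr, if_neg hlr, sub_self, abs_zero]
      positivity
    rw [if_pos hlr, if_pos hlr]
    obtain ⟨n, hn1, hn2⟩ := z2 l hlr.1 hlr.2.1 a
    have h5 := ojet_near F hw (natDegree_dvH (c := c) (w := w) hH hK l) (rt_of F hw z1) (a := a)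
      (δ := 1 / 2 ^ n) (by positivity) hn2
    refine floor_near' ?_
    have p3 : (0 : ℝ) < (2 : ℝ) ^ ((nt l - (a : ℕ) * wr) * J) := Real.rpow_pos_of_pos two_pos _
    rw [← mul_sub, abs_mul, abs_of_pos p3]
    have g2 : (2 : ℝ) ^ ((nt l - (a : ℕ) * wr) * J) * (2 ^ w) ^ a ≤ 2 * 2 ^ n * 2 ^ M := by
      have e4 : (2 : ℝ) ^ ((nt l - (a : ℕ) * wr) * J) * (2 ^ w) ^ a =
          2 ^ ((nt l - (a : ℕ) * wr) * J + w * a) := by
        rw [Real.rpow_add two_pos, ← pow_mul, ← Nat.cast_mul, Real.rpow_natCast]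
      have e5 : (2 : ℝ) * 2 ^ n * 2 ^ M = 2 ^ ((n : ℝ) + 1 + M) := by
        rw [Real.rpow_add two_pos, Real.rpow_add two_pos, Real.rpow_one, Real.rpow_natCast,
          Real.rpow_natCast]
        ring
      rw [e4, e5]
      refine Real.rpow_le_rpow_of_exponent_le one_le_two ?_
      have e6 : (w : ℝ) ≤ wr * J := by
        rw [hwe]
        exact Nat.floor_le (by positivity)
      have e7 : (w : ℝ) * a ≤ wr * J * a := mul_le_mul_of_nonneg_right e6 (Nat.cast_nonneg a)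
      have e8 : (0 : ℝ) ≤ M := Nat.cast_nonneg M
      nlinarith
    have hfa : ((a.factorial : ℕ) : ℝ) ≤ M.factorial := by
      exact_mod_cast Nat.factorial_le (Nat.lt_succ_iff.1 ha)
    calc _ ≤ (2 : ℝ) ^ ((nt l - (a : ℕ) * wr) * J) * ((a.factorial * (2 ^ w) ^ a) *
          ((K + 1) * 2 ^ K * (1 / 2 ^ n))) := mul_le_mul_of_nonneg_left h5 p3.le
      _ = (2 : ℝ) ^ ((nt l - (a : ℕ) * wr) * J) * (2 ^ w) ^ a * (a.factorial *
          ((K + 1) * 2 ^ K * (1 / 2 ^ n))) := by ring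
      _ ≤ 2 * 2 ^ n * 2 ^ M * (M.factorial * ((K + 1) * 2 ^ K * (1 / 2 ^ n))) := by
          refine mul_le_mul g2 (mul_le_mul_of_nonneg_right hfa (by positivity)) (by positivity)
            (by positivity)
      _ = 2 * (M.factorial * 2 ^ M * ((K + 1) * 2 ^ K)) := by field_simp

/-! ### The near code -/

/-- The constant of the near code. -/
noncomputable def cP (v K : ℕ) : ℝ :=
  (2 * (v + 1) + 2) * ((K + 1) * Real.log (2 * ((K + 1) * 2 ^ K + 1) + 1))

theorem cP_nonneg (v K : ℕ) : 0 ≤ cP v K := by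
  unfold cP
  have h1 : (0 : ℝ) ≤ (K + 1) * 2 ^ K := by positivity
  have h2 := Real.log_nonneg (show (1 : ℝ) ≤ 2 * ((K + 1) * 2 ^ K + 1) + 1 by linarith)
  positivity

/-- **The near code of the line** from the codes of the places. -/
theorem ncL_few (hp : IsLaw p) (hwW : w ≤ W) (hW : W ≤ J)
    (hH : ∀ s l, (H s l).totalDegree ≤ D) (hK : D + 1 ≤ K) {v q X mm : ℕ} {γl nc nc' : ℕ → ℕ}
    {ζ : Type} {zw : F.Ω → ζ} {𝓦 : Type} (Z : F.Ω → 𝓦)
    (hZ : ∀ ω ν, 0 < p ω → 0 < p ν → Z ω = Z ν → F.T ω = F.T ν ∧ F.Z ω = F.Z ν ∧ zw ω = zw ν ∧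
      (∀ l < v, ∀ b ≤ K, |(dv w (fun s (_ : Fin m) => H s l) (c l) (slam F w ω)).coeff b -
        (dv w (fun s (_ : Fin m) => H s l) (c l) (slam F w ν)).coeff b| ≤ 1 / 2 ^ nc l) ∧
      (∀ l < v, ∀ b, 1 ≤ b → b ≤ K →
        |(dv w (fun s (_ : Fin m) => H s l) (c l) (slam F w ω)).coeff b -
        (dv w (fun s (_ : Fin m) => H s l) (c l) (slam F w ν)).coeff b| ≤ 1 / 2 ^ nc' l) ∧
      (∀ b, 2 ≤ b → b ≤ K → |(dv w (fun s (_ : Fin m) => H s v) (c v) (slam F w ω)).coeff b -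
        (dv w (fun s (_ : Fin m) => H s v) (c v) (slam F w ν)).coeff b| ≤ 1 / 2 ^ nc' v) ∧
      (∀ b ≤ K, |(dv w (fun s (_ : Fin m) => H s v) (c v) (slam F w ω)).coeff b -
        (dv w (fun s (_ : Fin m) => H s v) (c v) (slam F w ν)).coeff b| ≤
          1 / 2 ^ (γl v + q + (X + mm))) ∧
      (∀ b ≤ K, |(dv w (fun s (_ : Fin m) => H s (v + 1)) (c (v + 1)) (slam F w ω)).coeff b -
        (dv w (fun s (_ : Fin m) => H s (v + 1)) (c (v + 1)) (slam F w ν)).coeff b| ≤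
          1 / 2 ^ (γl (v + 1) + q + X))) :
    CH p (ncL F c v q w W X mm K γl H zw nc nc') Z ≤ cP v K := by
  have h0 := hp.nonneg
  obtain ⟨d, hd⟩ : ∃ d, d = adG F c (fun _ : Fin 1 => v) (v + 1) q w W X mm γl (fun _ _ => 0) H
    (zxs F c 0 W zw (sdL F c v w K H nc nc')) := ⟨_, rfl⟩
  have hX : d.X = X := by rw [hd]; rfl
  have hm : d.m = mm := by rw [hd]; rfl
  have hA : ∀ o, d.A o 0 = Polynomial.C (2 ^ (γl v + q)) *
      dv W (fun s (_ : Fin m) => H (upw w W s) v) (c v) (slam F W o) := fun o => by rw [hd]; rfl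
  have hP : ∀ o, d.P o = Polynomial.C (2 ^ (γl (v + 1) + q)) *
      dv W (fun s (_ : Fin m) => H (upw w W s) (v + 1)) (c (v + 1)) (slam F W o) := fun o => by
    rw [hd]; rfl
  have hz : d.z = zxs F c 0 W zw (sdL F c v w K H nc nc') := by rw [hd]; rfl
  obtain ⟨κ, hκ⟩ : ∃ κ : ℝ, κ = (K + 1) * 2 ^ K := ⟨_, rfl⟩
  have hκ0 : 0 ≤ κ := by rw [hκ]; positivity
  have hκ1 : 1 ≤ κ := by
    rw [hκ]
    have h1 : (1 : ℝ) ≤ 2 ^ K := one_le_pow₀ (by norm_num)
    have h2 : (0 : ℝ) ≤ K := Nat.cast_nonneg K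
    nlinarith
  obtain ⟨ℓ, hℓ⟩ : ∃ ℓ : ℝ, ℓ = Real.log (2 * (κ + 1) + 1) := ⟨_, rfl⟩
  -- the codes of the places
  obtain ⟨f, hf⟩ : ∃ f : F.Ω → Fin (v + 1) × (Fin 2 × Fin (K + 1)) → ℤ, f = fun ω i =>
    if i.2.1 = 0 then (sdL F c v w K H nc nc' ω i.1).1 i.2.2 else
      (sdL F c v w K H nc nc' ω i.1).2 i.2.2 := ⟨_, rfl⟩
  have k1 : CH p f Z ≤ (v + 1) * (2 * (K + 1)) * ℓ := by
    have key := CH_near hp f Z (D := κ + 1) (by positivity) fun ω ν hω hν e i => ?_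
    · refine key.trans (le_of_eq ?_)
      rw [Fintype.card_prod, Fintype.card_prod, Fintype.card_fin, Fintype.card_fin,
        Fintype.card_fin, ← hℓ]
      push_cast
      ring
    · obtain ⟨z1, z2, z3, z4, z5, z6, z7, z8⟩ := hZ ω ν hω hν e
      obtain ⟨⟨l, hl⟩, ⟨s, ⟨b, hb⟩⟩⟩ := i
      rw [hf]
      dsimp only
      have hcf : ∀ (n a₀ : ℕ), (a₀ ≤ b → |(dv w (fun s (_ : Fin m) => H s l) (c l)
          (slam F w ω)).coeff b - (dv w (fun s (_ : Fin m) => H s l) (c l)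
          (slam F w ν)).coeff b| ≤ 1 / 2 ^ n) →
          |(cod F w (fun s => H s l) (c l) n a₀ K ω ⟨b, hb⟩ : ℝ) -
            cod F w (fun s => H s l) (c l) n a₀ K ν ⟨b, hb⟩| ≤ κ + 1 := by
        intro n a₀ h
        unfold cod
        by_cases hab : a₀ ≤ b
        · rw [if_pos hab, if_pos hab]
          refine floor_near' ?_
          have p2 : (0 : ℝ) < 2 ^ n := by positivity
          rw [← mul_sub, abs_mul, abs_of_pos p2]
          have := mul_le_mul_of_nonneg_left (h hab) p2.le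
          refine this.trans ?_
          rw [mul_one_div, div_self p2.ne']
          exact hκ1
        · rw [if_neg hab, if_neg hab, sub_self, abs_zero]
          positivity
      by_cases hs : s = 0
      · rw [if_pos hs, if_pos hs]
        unfold sdL
        dsimp only
        by_cases hlv : l = v
        · subst hlv
          rw [if_pos rfl]
          exact hcf _ _ fun h => absurd h (by omega)
        · rw [if_neg hlv]
          exact hcf _ _ fun _ => z4 l (by omega) b (by omega)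
      · rw [if_neg hs, if_neg hs]
        unfold sdL
        dsimp only
        by_cases hlv : l = v
        · subst hlv
          rw [if_pos rfl]
          exact hcf _ _ fun h => z6 b h (by omega)
        · rw [if_neg hlv]
          exact hcf _ _ fun h => z5 l (by omega) b h (by omega)
  have k2 : CH p (fun ω => d.ac K ω 0) Z ≤ (K + 1) * ℓ := by
    have key := ch_vec h0 Z (K + 1) (fun ω => d.ac K ω 0) (c := ℓ) fun b => ?_
    · push_cast at key
      exact key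
    rw [hℓ]
    refine CH_pair_int hp _ _ (by positivity) fun ω ν hω hν e => ?_
    obtain ⟨z1, z2, z3, z4, z5, z6, z7, z8⟩ := hZ ω ν hω hν e
    have hT1 : F.T1 W ω = F.T1 W ν := by
      unfold Fam.T1
      rw [z1]
    unfold AD.ac
    rw [hX, hm, hA, hA, Polynomial.coeff_C_mul, Polynomial.coeff_C_mul]
    refine floor_near' ?_
    have h5 := coef_near F hwW hW (H := fun s => H s v) (natDegree_dvH (c := c) (w := w) hH hK v)
      hT1 (a := (b : ℕ)) (δ := 1 / 2 ^ (γl v + q + (X + mm))) (by positivity)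
      fun b' _ hbK => z7 b' hbK
    rw [← mul_sub, ← mul_sub, abs_mul, abs_mul, abs_of_pos (by positivity : (0 : ℝ) <
      2 ^ (X + mm)), abs_of_pos (by positivity : (0 : ℝ) < 2 ^ (γl v + q))]
    refine (mul_le_mul_of_nonneg_left (mul_le_mul_of_nonneg_left h5 (by positivity))
      (by positivity)).trans (le_of_eq ?_)
    rw [hκ, pow_add _ (γl v + q)]
    field_simp
  have k3 : CH p (d.nc K) Z ≤ (K + 1) * ℓ := by
    have key := ch_vec h0 Z (K + 1) (d.nc K) (c := ℓ) fun b => ?_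
    · push_cast at key
      exact key
    rw [hℓ]
    refine CH_pair_int hp _ _ (by positivity) fun ω ν hω hν e => ?_
    obtain ⟨z1, z2, z3, z4, z5, z6, z7, z8⟩ := hZ ω ν hω hν e
    have hT1 : F.T1 W ω = F.T1 W ν := by
      unfold Fam.T1
      rw [z1]
    unfold AD.nc
    rw [hX, hP, hP, Polynomial.coeff_C_mul, Polynomial.coeff_C_mul]
    refine floor_near' ?_
    have h5 := coef_near F hwW hW (H := fun s => H s (v + 1))
      (natDegree_dvH (c := c) (w := w) hH hK (v + 1)) hT1 (a := (b : ℕ))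
      (δ := 1 / 2 ^ (γl (v + 1) + q + X)) (by positivity) fun b' _ hbK => z8 b' hbK
    rw [← mul_sub, ← mul_sub, abs_mul, abs_mul, abs_of_pos (by positivity : (0 : ℝ) < 2 ^ X),
      abs_of_pos (by positivity : (0 : ℝ) < 2 ^ (γl (v + 1) + q))]
    refine (mul_le_mul_of_nonneg_left (mul_le_mul_of_nonneg_left h5 (by positivity))
      (by positivity)).trans (le_of_eq ?_)
    rw [hκ, pow_add _ (γl (v + 1) + q)]
    field_simp
  have s1 := CH_subadd h0 (fun ω => d.ac K ω 0) (d.nc K) Z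
  have s2 := CH_subadd h0 f (fun ω => (d.ac K ω 0, d.nc K ω)) Z
  have s3 : CH p (ncL F c v q w W X mm K γl H zw nc nc') Z ≤
      CH p (fun ω => (f ω, (d.ac K ω 0, d.nc K ω))) Z := by
    refine CH_mono_left h0 fun ω ν hω hν e => ?_
    obtain ⟨e1, e2⟩ := Prod.ext_iff.mp e
    obtain ⟨z1, z2, z3, -⟩ := hZ ω ν hω hν e2
    obtain ⟨e3, e4⟩ := Prod.ext_iff.mp e1
    obtain ⟨e5, e6⟩ := Prod.ext_iff.mp e4
    have e3' : f ω = f ν := e3
    have e5' : d.ac K ω 0 = d.ac K ν 0 := e5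
    have e6' : d.nc K ω = d.nc K ν := e6
    have g1 : sdL F c v w K H nc nc' ω = sdL F c v w K H nc nc' ν := by
      funext l
      refine Prod.ext ?_ ?_
      · funext b
        have := congrFun e3' (l, (0, b))
        rw [hf] at this
        simpa using this
      · funext b
        have := congrFun e3' (l, (1, b))
        rw [hf] at this
        simpa using this
    have g2 : d.z ω = d.z ν := by
      rw [hz]
      unfold zxs
      rw [g1, z3]
      have g3 : (slam F W ω).2 = (slam F W ν).2 := by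
        show (F.Z ω, F.T1 W ω) = (F.Z ν, F.T1 W ν)
        unfold Fam.T1
        rw [z1, z2]
      rw [g3]
      congr 3
      funext l
      exact Fin.elim0 l
    have g4 : d.ac K ω = d.ac K ν := by
      funext j
      have hj : j = 0 := Subsingleton.elim _ _
      rw [hj, e5']
    show (adG F c (fun _ : Fin 1 => v) (v + 1) q w W X mm γl (fun _ _ => 0) H
      (zxs F c 0 W zw (sdL F c v w K H nc nc'))).L K ω = (adG F c (fun _ : Fin 1 => v) (v + 1)
      q w W X mm γl (fun _ _ => 0) H (zxs F c 0 W zw (sdL F c v w K H nc nc'))).L K ν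
    rw [← hd]
    unfold AD.L
    rw [g2, g4, e6']
  have s4 : cP v K = (v + 1) * (2 * (K + 1)) * ℓ + ((K + 1) * ℓ + (K + 1) * ℓ) := by
    unfold cP
    rw [hℓ, hκ]
    ring
  rw [s4]
  linarith

end

end Pool.AVG57
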