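import Pool.Agent.H57.AVN.Pna

/-!
# From the inputs of a class to the inputs on one event: two near places

The moved place `v`, the near place `u = v + 1`, the target `v + 2`. `C2E`: the values on one event.
`N2E`: the values, the numbers, the data `Lp`, `mC` of the gradient in the direction of `u`.
The lemmas: the codes and jets are few bits in the contexts of `PrN`.
-/

set_option autoImplicit false

namespace Pool.AVG57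

open Finset Real MvPolynomial
open Pool.Agent.H49.Ent Pool.Agent.H32.Dense Pool.STK Pool.KA Pool.KSAT Pool.K2S Pool.PB Pool.S6C
open Pool.GEN Pool.CHT Pool.CHX Pool.ISO Pool.RCD Pool.LA91 Pool.AVG71 Pool.AVG5 Pool.D2F2
open Pool.PB.Trl (rt rt_mem t_rt)
open Pool.D2R (hgt gnh GrdE chs)
open Pool.KVA (MI)
open Pool.KAF (rs Pr)
open Pool.BFL (Pb)
open Pool.AVG66 (RU cRU)

variable {m J : ℕ}

/-- **The values of the inputs on one event**, for the law `p`. `η`: the error (in bits). -/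
structure C2E (F : Fam m J) (c : ℕ → Fin m) (r₀ v K M : ℕ) (wr : ℝ) (w g : ℕ) (nc nc' : ℕ → ℕ)
    (H : LnT F → ℕ → MvPolynomial (Option (Fin m)) ℝ) {ζ ρ₁ ρ₂ υ : Type} (zw : F.Ω → ζ)
    (zj : F.Ω → ρ₁) (zx : F.Ω → ρ₂) (y : F.Ω → υ) (p : F.Ω → ℝ) (n n' nt : ℕ → ℝ)
    (Nt nb nbu Mu : ℝ) (Df Dn Dx Dd : ℕ → ℕ → ℝ) (Ef En Nv : ℕ → ℝ) (η : ℝ) : Prop where
  yW : ∀ ω ν, y ω = y ν → F.Z ω = F.Z ν ∧ F.T ω = F.T ν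
  yf : CH p y (fun ω => (jet2 F c w H 0 r₀ (nd n n' wr) ω, (zw ω, F.W ω))) ≤ η
  y0 : ∀ l < r₀, CH p (cod F w (fun s => H s l) (c l) (nc l) 0 K) (fun ω => (zw ω, y ω)) ≤ η
  y1 : ∀ l < r₀, CH p (cod F w (fun s => H s l) (c l) (nc' l) 1 K) (fun ω => (zw ω, y ω)) ≤ η
  cd : ∀ l, r₀ ≤ l → l ≤ v + 1 → CH p (cod F w (fun s => H s l) (c l) (nc' l) 2 K)
    (fun ω => (jet2 F c w H r₀ l (nd n n' wr) ω, (zw ω, y ω))) ≤ η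
  mj : MI p zj (fun ω => (jet2 F c w H r₀ (v + 2) Df ω, pr2 F c w H (v + 2) Ef ω))
    (fun ω => ((jet2 F c w H r₀ (v + 2) Dn ω, pr2 F c w H (v + 2) En ω), (zw ω, y ω))) ≤ η
  mx : MI p zx (jet2 F c w H r₀ (v + 2) Df)
    (fun ω => (jet2 F c w H r₀ (v + 2) Dx ω, (zw ω, y ω))) ≤ η
  dj : CH p (cod F w (fun s => H s (v + 2)) (c (v + 2)) g 1 K)
    (fun ω => (jet2 F c w H r₀ (v + 2) Dd ω, (zw ω, y ω))) ≤ η
  jt : CH p (Pool.AVG71.cod F w 0 K (2 ^ (Nt * J)) (c (v + 2)) (fun s => H s (v + 2))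
    (fun P => P)) (fun ω => (jetM F c w H r₀ (v + 2) M (fun l j' => nt l - (j' : ℝ) * wr) ω,
      (zx ω, y ω))) ≤ η
  vf : ((nb - Nv 0) + (nbu - Mu)) * Real.log 2 * J - η ≤
    CH p (fun ω => (Vh F c v w H (nb * J) ω, Vh F c (v + 1) w H (nbu * J) ω))
    (fun ω => (⌊(2 : ℝ) ^ (Nv 0 * J) * ojet F (c v) 0 (H (slam F w ω) v) ω⌋,
      (⌊(2 : ℝ) ^ (Nv 1 * J) * ojet F (c v) 1 (H (slam F w ω) v) ω⌋,
        (jetM F c w H (v + 1) (v + 2) M (fun _ j' => Mu - (j' : ℝ) * wr) ω,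
          (zx ω, (zw ω, (jet2 F c w H r₀ v (nd n n' wr) ω, y ω)))))))

/-- **The values, the numbers and the gradient in the direction of the near place.** -/
structure N2E (F : Fam m J) (c : ℕ → Fin m) (r₀ v K₁ K M q w W X mm D ks nn : ℕ) (wr : ℝ)
    (γ nc nc' : ℕ → ℕ) (B : F.Ω → Prop) (G : ℕ → PtT F → ℕ → MvPolynomial (Option (Fin m)) ℝ)
    (H : LnT F → ℕ → MvPolynomial (Option (Fin m)) ℝ) {ζ ρ₁ ρ₂ υ Λ : Type} (zw : F.Ω → ζ)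
    (zj : F.Ω → ρ₁) (zx : F.Ω → ρ₂) (y : F.Ω → υ) (p : F.Ω → ℝ) (Lp : F.Ω → Λ)
    (mC : F.Ω → Polynomial ℝ) (n n' nt : ℕ → ℝ) (Nt nb nbu Mu : ℝ) (Df Dn Dx Dd : ℕ → ℕ → ℝ)
    (Ef En Nv : ℕ → ℝ) (NP NV NR : ℕ) (U Um ρ fu eL η : ℝ) : Prop where
  ev : C2E F c r₀ v K M wr w (γ (v + 2) + q + X) nc nc' H zw zj zx y p n n' nt Nt nb nbu Mu
    Df Dn Dx Dd Ef En Nv η
  η0 : 0 ≤ η
  rv : r₀ ≤ v
  wr0 : 0 ≤ wr
  we : w = ⌊wr * J⌋₊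
  law : IsLaw p
  sup : ∀ ω, 0 < p ω → B ω
  wW : w ≤ W
  WJ : W ≤ J
  deg : ∀ s l, (H s l).totalDegree ≤ D
  DK : D + 1 ≤ K₁
  KK : K₁ + K₁ ≤ K
  KM : K₁ ≤ M
  KX : (K : ℝ) ≤ 2 ^ (X + mm)
  cls : Clsd F (v + 3) w B (G 0) H
  grd : GrdE F c 0 (v + 2) ks nn q X γ U B G
  mU : U + (v + 2 : ℕ) * U + 4 * (U + 1) + 1 ≤ 2 ^ mm
  zL : Det p (slam F w) zw
  chj : Det p zj (chs F (v + 2) ks G)
  chx : Det p zx (chs F (v + 2) nn G)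
  zwx : Det p zx zw
  ncl : ∀ l < v, (nc l : ℝ) ≤ n l * J
  ncu : ∀ l, n l * J ≤ nc l + 1
  ncu' : ∀ l, n' l * J ≤ nc' l + 1
  nce : ∀ l, r₀ ≤ l → l < v → nc' l = nc l
  nce' : ∀ l, r₀ ≤ l → l < v → n' l = n l
  cn : ∀ l < v, γ l + (q + X) + 2 * K ≤ nc l
  cv : γ v + q + (X + mm) + 6 * K ≤ nc' v
  cu : γ (v + 1) + q + (X + mm) + 6 * K₁ ≤ nc' (v + 1)
  Dn0 : ∀ l, r₀ ≤ l → l < v → ∀ j' ≤ 1, Dn l j' = nd n n' wr l j'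
  Dx0 : ∀ l, r₀ ≤ l → l < v → ∀ j' ≤ 1, Dx l j' = nd n n' wr l j'
  Dxu : ∀ j' ≤ 1, Dx (v + 1) j' = Dn (v + 1) j'
  Dd0 : ∀ l, r₀ ≤ l → l ≤ v → ∀ j' ≤ 1, Dd l j' = nd n n' wr l j'
  Ddu : ∀ j' ≤ 1, Dd (v + 1) j' = Df (v + 1) j'
  Dfv : ∀ j' ≤ 1, nd n n' wr v j' ≤ Df v j'
  -- the code of `u`
  NP0 : γ (v + 1) + q + 2 * K₁ ≤ NP
  NP1 : NP ≤ nc' (v + 1)
  NP2 : (NP : ℝ) ≤ Df (v + 1) 0 * J
  NP3 : (NP : ℝ) ≤ Df (v + 1) 1 * J + w + 1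
  NP4 : (NP : ℝ) ≤ Mu * J + (2 * K₁ : ℕ)
  NP5 : Dn (v + 1) 0 * J ≤ NP + 1
  NP6 : Dn (v + 1) 1 * J + w ≤ NP + 1
  -- the code of `v`
  NV1 : NV ≤ nc' v
  NV2 : (NV : ℝ) ≤ Df v 0 * J
  NV3 : (NV : ℝ) ≤ Df v 1 * J + w + 1
  NV4 : (NV : ℝ) ≤ Dx v 0 * J
  NV5 : (NV : ℝ) ≤ Dx v 1 * J + w + 1
  NV6 : (NV : ℝ) ≤ Nv 0 * J
  NV7 : (NV : ℝ) ≤ Nv 1 * J + w + 1
  NV8 : (NV : ℝ) ≤ nt v * J
  -- the code of the target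
  NR1 : NR ≤ γ (v + 2) + q + X
  NR2 : (NR : ℝ) ≤ Ef 0 * J
  ρ0 : 0 ≤ ρ
  NR3 : (2 : ℝ) ^ NR ≤ ρ * 2 ^ (Nt * J)
  NR4 : (2 : ℝ) ^ (γ (v + 2) + q) ≤ ρ * 2 ^ (Nt * J)
  -- the digits of the lower places
  nt0 : ∀ l, r₀ ≤ l → l < v → nt l ≤ n l
  nt1 : nt v * J ≤ NV + 1
  nt2 : nt (v + 1) * J ≤ NP + 1
  -- the inputs of `PrN`
  n0 : Dn v 0 * J ≤ (γ v + q : ℕ)
  n1 : Dn v 1 * J + W ≤ (γ v + q + (X + mm) : ℕ)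
  x0 : Dx v 0 * J ≤ (γ v + q : ℕ)
  x1 : Dx v 1 * J + W ≤ (γ v + q + (X + mm) : ℕ)
  u0 : nt v * J ≤ (γ v + q : ℕ)
  u1 : (nt v - wr) * J + W ≤ (γ v + q + (X + mm) : ℕ)
  m0 : En 0 * J ≤ (γ (v + 2) + q : ℕ)
  m1 : En 1 * J + W ≤ (γ (v + 2) + q : ℕ)
  mf : ((γ (v + 2) + q + X : ℕ) : ℝ) ≤ Ef 0 * J
  f0 : ((γ v + q + (X + mm) : ℕ) : ℝ) ≤ Df v 0 * J
  f1 : ((γ v + q + (X + mm) : ℕ) : ℝ) ≤ Df v 1 * J + W
  g0 : ((γ (v + 1) + q + (X + mm) : ℕ) : ℝ) ≤ Df (v + 1) 0 * J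
  g1 : ((γ (v + 1) + q + (X + mm) : ℕ) : ℝ) ≤ Df (v + 1) 1 * J + W
  v0 : ((γ v + q : ℕ) : ℝ) ≤ Nv 0 * J
  v1 : ((γ v + q + (X + mm) : ℕ) : ℝ) ≤ Nv 1 * J + W
  fu0 : 0 ≤ fu
  fu1 : Mu * J - (γ (v + 1) + q : ℕ) ≤ fu
  -- the gradient in the direction of `u`
  Um0 : 0 ≤ Um
  eL0 : 0 ≤ eL
  mz : ∀ ω ν, F.T1 W ω = F.T1 W ν → Lp ω = Lp ν → mC ω = mC ν
  md : ∀ ω, (mC ω).natDegree ≤ K₁
  mb : ∀ ω a, |(mC ω).coeff a| ≤ Um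
  mg : ∀ ω, B ω → |gnh F c (v + 2) γ (G 0) (G nn) ω (v + 1) - (mC ω).eval (rt F W ω)| ≤
    (U + 1) / 2 ^ X
  Ls : Det p (slam F W) Lp
  Lf : ∀ (𝓦 : Type) (Z : F.Ω → 𝓦), (∀ ω ν, 0 < p ω → 0 < p ν → Z ω = Z ν →
    F.T ω = F.T ν ∧ F.Z ω = F.Z ν ∧ zw ω = zw ν ∧
      sdL F c v w K H nc nc' ω = sdL F c v w K H nc nc' ν ∧
      cod F w (fun s => H s v) (c v) NV 0 K ω = cod F w (fun s => H s v) (c v) NV 0 K ν ∧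
      cod F w (fun s => H s (v + 1)) (c (v + 1)) NP 0 K₁ ω =
        cod F w (fun s => H s (v + 1)) (c (v + 1)) NP 0 K₁ ν ∧
      cod F w (fun s => H s (v + 2)) (c (v + 2)) NR 0 K ω =
        cod F w (fun s => H s (v + 2)) (c (v + 2)) NR 0 K ν) → CH p Lp Z ≤ eL

section

variable {F : Fam m J} {c : ℕ → Fin m} {w W K D : ℕ}
  {H : LnT F → ℕ → MvPolynomial (Option (Fin m)) ℝ} {p : F.Ω → ℝ}

/-- The jets of the orders `0`, `1` from the coefficients. -/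
theorem jt1_cod (hp : IsLaw p) (hw : w ≤ J) (hH : ∀ s l, (H s l).totalDegree ≤ D)
    (hK : D + 1 ≤ K) {l n : ℕ} {N : ℕ → ℝ} (h0 : N 0 * J ≤ n + 1) (h1 : N 1 * J + w ≤ n + 1)
    {𝓦 : Type} (Z : F.Ω → 𝓦)
    (hZ : ∀ ω ν, 0 < p ω → 0 < p ν → Z ω = Z ν → F.T ω = F.T ν ∧ ∀ b ≤ K,
      |(dv w (fun s (_ : Fin m) => H s l) (c l) (slam F w ω)).coeff b -
        (dv w (fun s (_ : Fin m) => H s l) (c l) (slam F w ν)).coeff b| ≤ 1 / 2 ^ n) :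
    CH p (jt1 F c l w H N) Z ≤ 2 * cS K := by
  have key := CH_near hp (jt1 F c l w H N) Z (D := 2 * ((K + 1) * 2 ^ K) + 1) (by positivity)
    fun ω ν hω hν e i => ?_
  · rw [Fintype.card_prod, Fintype.card_fin, Fintype.card_fin] at key
    norm_num at key
    exact key
  · obtain ⟨z1, z2⟩ := hZ ω ν hω hν e
    obtain ⟨i, ⟨a, ha⟩⟩ := i
    show |((⌊(2 : ℝ) ^ (N a * J) * ojet F (c l) a (H (slam F w ω) l) ω⌋ : ℤ) : ℝ) -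
      ⌊(2 : ℝ) ^ (N a * J) * ojet F (c l) a (H (slam F w ν) l) ν⌋| ≤ _
    refine floor_near' ?_
    have p3 : (0 : ℝ) < (2 : ℝ) ^ (N a * J) := Real.rpow_pos_of_pos two_pos _
    rw [← mul_sub, abs_mul, abs_of_pos p3]
    have pK : (0 : ℝ) ≤ (K + 1) * 2 ^ K := by positivity
    have g1 := ojet_near F hw (natDegree_dvH (c := c) (w := w) hH hK l) (rt_of F hw z1)
      (a := a) (δ := 1 / 2 ^ n) (by positivity) fun b _ hbK => z2 b hbK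
    have g2 : (2 : ℝ) ^ (N a * J) * (a.factorial * (2 ^ w) ^ a) ≤ 2 ^ n * 2 := by
      rcases Nat.eq_zero_or_pos a with ha0 | ha0
      · subst ha0
        rw [Nat.factorial_zero, pow_zero, Nat.cast_one, mul_one, mul_one, ← pow_succ,
          ← Real.rpow_natCast]
        refine Real.rpow_le_rpow_of_exponent_le one_le_two ?_
        push_cast
        exact h0
      · have ha1 : a = 1 := by omega
        subst ha1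
        rw [Nat.factorial_one, pow_one, Nat.cast_one, one_mul, ← pow_succ,
          ← Real.rpow_natCast 2 w, ← Real.rpow_natCast 2 (n + 1), ← Real.rpow_add two_pos]
        refine Real.rpow_le_rpow_of_exponent_le one_le_two ?_
        push_cast
        exact h1
    calc _ ≤ (2 : ℝ) ^ (N a * J) * ((a.factorial * (2 ^ w) ^ a) *
          ((K + 1) * 2 ^ K * (1 / 2 ^ n))) := mul_le_mul_of_nonneg_left g1 p3.le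
      _ = (2 : ℝ) ^ (N a * J) * (a.factorial * (2 ^ w) ^ a) * ((K + 1) * 2 ^ K * (1 / 2 ^ n)) := by
          ring
      _ ≤ 2 ^ n * 2 * ((K + 1) * 2 ^ K * (1 / 2 ^ n)) :=
          mul_le_mul_of_nonneg_right g2 (by positivity)
      _ = 2 * ((K + 1) * 2 ^ K) := by field_simp

/-- The jets of the last place, conversely. -/
theorem jt1_fl {l : ℕ} {N : ℕ → ℝ} {ω ν : F.Ω} (h : jt1 F c l w H N ω = jt1 F c l w H N ν)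
    {j' : ℕ} (hj : j' ≤ 1) : ⌊(2 : ℝ) ^ (N j' * J) * ojet F (c l) j' (H (slam F w ω) l) ω⌋ =
      ⌊(2 : ℝ) ^ (N j' * J) * ojet F (c l) j' (H (slam F w ν) l) ν⌋ :=
  congrFun h (0, ⟨j', by omega⟩)

theorem jet2_fl {r₀ r l : ℕ} {N : ℕ → ℕ → ℝ} {ω ν : F.Ω}
    (h : jet2 F c w H r₀ r N ω = jet2 F c w H r₀ r N ν) {j' : ℕ} (h0 : r₀ ≤ l) (h1 : l < r)
    (hj : j' ≤ 1) : ⌊(2 : ℝ) ^ (N l j' * J) * ojet F (c l) j' (H (slam F w ω) l) ω⌋ =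
      ⌊(2 : ℝ) ^ (N l j' * J) * ojet F (c l) j' (H (slam F w ν) l) ν⌋ := by
  have h2 := congrFun (congrFun h l) j'
  unfold jet2 at h2
  rw [if_pos ⟨h0, h1, hj⟩, if_pos ⟨h0, h1, hj⟩] at h2
  exact h2

theorem fl_jt1 {l : ℕ} {N : ℕ → ℝ} {ω ν : F.Ω} (h : ∀ j' ≤ 1,
    ⌊(2 : ℝ) ^ (N j' * J) * ojet F (c l) j' (H (slam F w ω) l) ω⌋ =
      ⌊(2 : ℝ) ^ (N j' * J) * ojet F (c l) j' (H (slam F w ν) l) ν⌋) :
    jt1 F c l w H N ω = jt1 F c l w H N ν := by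
  funext i
  exact h i.2 (by have := i.2.2; omega)

end

end Pool.AVG57
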