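import Pool.Agent.H57.AVN.Pnb

/-!
# Codes and jets in the contexts of `PrN`
-/

set_option autoImplicit false

namespace Pool.AVG57

open Finset Real MvPolynomial
open Pool.Agent.H49.Ent Pool.Agent.H32.Dense Pool.STK Pool.KA Pool.KSAT Pool.K2S Pool.PB Pool.S6C
open Pool.GEN Pool.CHT Pool.CHX Pool.ISO Pool.RCD Pool.LA91 Pool.AVG71 Pool.AVG5 Pool.D2F2
open Pool.PB.Trl (rt rt_mem t_rt)
open Pool.D2R (hgt gnh GrdE chs)
open Pool.KVA (MI)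
open Pool.KAF (rs Pr)
open Pool.BFL (Pb)
open Pool.AVG66 (RU cRU)

variable {m J : ℕ} {F : Fam m J} {c : ℕ → Fin m} {r₀ v K₁ K M q w W X mm D ks nn : ℕ} {wr : ℝ}
  {γ nc nc' : ℕ → ℕ} {B : F.Ω → Prop} {G : ℕ → PtT F → ℕ → MvPolynomial (Option (Fin m)) ℝ}
  {H : LnT F → ℕ → MvPolynomial (Option (Fin m)) ℝ} {ζ ρ₁ ρ₂ υ Λ : Type} {zw : F.Ω → ζ}
  {zj : F.Ω → ρ₁} {zx : F.Ω → ρ₂} {y : F.Ω → υ} {p : F.Ω → ℝ} {Lp : F.Ω → Λ}
  {mC : F.Ω → Polynomial ℝ} {n n' nt : ℕ → ℝ} {Nt nb nbu Mu : ℝ} {Df Dn Dx Dd : ℕ → ℕ → ℝ}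
  {Ef En Nv : ℕ → ℝ} {NP NV NR : ℕ} {U Um ρ fu eL η : ℝ}

/-- The side information. -/
noncomputable def ycN (F : Fam m J) (c : ℕ → Fin m) (r₀ v w K K₁ : ℕ)
    (H : LnT F → ℕ → MvPolynomial (Option (Fin m)) ℝ) (nc nc' : ℕ → ℕ) (N : ℕ → ℕ → ℝ)
    (Nn : ℕ → ℝ) (NP : ℕ) {υ Λ : Type} (y : F.Ω → υ) (Lp : F.Ω → Λ) (ω : F.Ω) :
    (((ℕ × F.ζ) × ((Fin m → ℤ) × (Fin m → ℤ))) × (υ × ((Fin (v + 1) → (Fin (K + 1) → ℤ) ×
      (Fin (K + 1) → ℤ)) × (ℕ → ℕ → ℤ)))) × ((Fin 1 × Fin 2 → ℤ) × ((Fin (K₁ + 1) → ℤ) × Λ)) :=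
  (ycL F c r₀ v w K H nc nc' N y ω, (jt1 F c (v + 1) w H Nn ω,
    (cod F w (fun s => H s (v + 1)) (c (v + 1)) NP 0 K₁ ω, Lp ω)))

/-- The context. -/
noncomputable def zN (F : Fam m J) (c : ℕ → Fin m) (v w W K K₁ : ℕ)
    (H : LnT F → ℕ → MvPolynomial (Option (Fin m)) ℝ) (nc nc' : ℕ → ℕ) (NP : ℕ) {ζ Λ : Type}
    (zw : F.Ω → ζ) (Lp : F.Ω → Λ) (ω : F.Ω) :
    (ζ × ((F.ζ × ℕ) × ((Fin 0 → ℝ × ℝ) × (Fin (v + 1) → (Fin (K + 1) → ℤ) ×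
      (Fin (K + 1) → ℤ))))) × ((Fin (K₁ + 1) → ℤ) × Λ) :=
  (zxs F c 0 W zw (sdL F c v w K H nc nc') ω,
    (cod F w (fun s => H s (v + 1)) (c (v + 1)) NP 0 K₁ ω, Lp ω))

theorem zN_eq {ω ν : F.Ω} (h : zN F c v w W K K₁ H nc nc' NP zw Lp ω =
    zN F c v w W K K₁ H nc nc' NP zw Lp ν) : F.T1 W ω = F.T1 W ν ∧ F.Z ω = F.Z ν ∧ zw ω = zw ν ∧
      sdL F c v w K H nc nc' ω = sdL F c v w K H nc nc' ν ∧
      cod F w (fun s => H s (v + 1)) (c (v + 1)) NP 0 K₁ ω =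
        cod F w (fun s => H s (v + 1)) (c (v + 1)) NP 0 K₁ ν ∧ Lp ω = Lp ν := by
  obtain ⟨e1, e2⟩ := Prod.ext_iff.mp h
  obtain ⟨e3, e4⟩ := Prod.ext_iff.mp e2
  obtain ⟨e5, e6⟩ := AvL.eqz e1
  have e7 : zw ω = zw ν := (Prod.ext_iff.mp e1).1
  have e8 : F.Z ω = F.Z ν :=
    (Prod.ext_iff.mp (Prod.ext_iff.mp (Prod.ext_iff.mp e1).2).1).1
  exact ⟨e5, e8, e7, e6, e3, e4⟩

namespace N2E

/-- Equal side information. -/
theorem yc_of (hyW : ∀ ω ν, y ω = y ν → F.Z ω = F.Z ν ∧ F.T ω = F.T ν) {N : ℕ → ℕ → ℝ}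
    {Nn : ℕ → ℝ} {ω ν : F.Ω} (e1 : sdL F c v w K H nc nc' ω = sdL F c v w K H nc nc' ν)
    (e2 : jet2 F c w H r₀ v N ω = jet2 F c w H r₀ v N ν) (e3 : y ω = y ν)
    (e4 : jt1 F c (v + 1) w H Nn ω = jt1 F c (v + 1) w H Nn ν)
    (e5 : cod F w (fun s => H s (v + 1)) (c (v + 1)) NP 0 K₁ ω =
        cod F w (fun s => H s (v + 1)) (c (v + 1)) NP 0 K₁ ν) (e6 : Lp ω = Lp ν) :
    ycN F c r₀ v w K K₁ H nc nc' N Nn NP y Lp ω = ycN F c r₀ v w K K₁ H nc nc' N Nn NP y Lp ν := by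
  unfold ycN ycL
  have e7 : yv c 0 J F ω = yv c 0 J F ν := by
    obtain ⟨z1, z2⟩ := hyW ω ν e3
    unfold yv
    refine Prod.ext (Prod.ext z2 z1) (Prod.ext ?_ ?_)
    · funext i
      simp
    · funext i
      simp
  rw [e1, e2, e3, e4, e5, e6, e7]

theorem of_yc {N : ℕ → ℕ → ℝ} {Nn : ℕ → ℝ} {ω ν : F.Ω}
    (h : ycN F c r₀ v w K K₁ H nc nc' N Nn NP y Lp ω =
      ycN F c r₀ v w K K₁ H nc nc' N Nn NP y Lp ν) :
    sdL F c v w K H nc nc' ω = sdL F c v w K H nc nc' ν ∧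
    jet2 F c w H r₀ v N ω = jet2 F c w H r₀ v N ν ∧ y ω = y ν ∧
    jt1 F c (v + 1) w H Nn ω = jt1 F c (v + 1) w H Nn ν ∧
    cod F w (fun s => H s (v + 1)) (c (v + 1)) NP 0 K₁ ω =
      cod F w (fun s => H s (v + 1)) (c (v + 1)) NP 0 K₁ ν ∧ Lp ω = Lp ν := by
  unfold ycN ycL at h
  obtain ⟨e0, e7⟩ := Prod.ext_iff.mp h
  obtain ⟨e1, e2⟩ := Prod.ext_iff.mp e0
  obtain ⟨e3, e4⟩ := Prod.ext_iff.mp e2
  obtain ⟨e5, e6⟩ := Prod.ext_iff.mp e4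
  obtain ⟨e8, e9⟩ := Prod.ext_iff.mp e7
  obtain ⟨e10, e11⟩ := Prod.ext_iff.mp e9
  exact ⟨e5, e6, e3, e8, e10, e11⟩

section

variable (P : N2E F c r₀ v K₁ K M q w W X mm D ks nn wr γ nc nc' B G H zw zj zx y p Lp mC n n' nt
  Nt nb nbu Mu Df Dn Dx Dd Ef En Nv NP NV NR U Um ρ fu eL η)

include P

theorem wJ : w ≤ J := P.wW.trans P.WJ

theorem DK' : D + 1 ≤ K := by
  have h1 := P.DK
  have h2 := P.KK
  omega

theorem K1K : K₁ ≤ K := by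
  have h2 := P.KK
  omega

theorem wl : wr * J ≤ w + 1 := by
  rw [P.we]
  exact (Nat.lt_floor_add_one _).le

/-- The codes of the places `≤ v`. -/
theorem sd {𝓦 : Type} (Z : F.Ω → 𝓦) (hZ : ∀ ω ν, 0 < p ω → 0 < p ν → Z ω = Z ν →
    jet2 F c w H r₀ v (nd n n' wr) ω = jet2 F c w H r₀ v (nd n n' wr) ν ∧ zw ω = zw ν ∧
      y ω = y ν) : CH p (sdL F c v w K H nc nc') Z ≤ (v + 1) * (2 * η + 2 * cD K) := by
  have h0 := P.law.nonneg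
  refine sd_few P.law P.wJ P.deg P.DK' (N := nd n n' wr) (r₀ := r₀) (fun l l0 l1 => ?_) _
    (fun ω ν a b e => ?_) P.η0 (fun l hl => ?_) (fun l hl => ?_) (fun l l0 l1 => ?_) P.rv
  · have e1 := P.nce' l l0 l1
    refine ⟨(P.nce l l0 l1).symm, ?_, ?_⟩
    · unfold nd
      rw [if_pos rfl]
      exact P.ncl l l1
    · unfold nd
      rw [if_neg one_ne_zero, e1]
      have := P.ncl l l1
      have := P.wl
      push_cast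
      linarith
  · obtain ⟨e1, e2, e3⟩ := hZ ω ν a b e
    exact ⟨(P.ev.yW ω ν e3).2, e1⟩
  · exact (CH_mono_cond h0 fun ω ν a b e => by
      obtain ⟨e1, e2, e3⟩ := hZ ω ν a b e
      exact Prod.ext e2 e3).trans (P.ev.y0 l hl)
  · exact (CH_mono_cond h0 fun ω ν a b e => by
      obtain ⟨e1, e2, e3⟩ := hZ ω ν a b e
      exact Prod.ext e2 e3).trans (P.ev.y1 l hl)
  · refine (CH_mono_cond h0 fun ω ν a b e => ?_).trans (P.ev.cd l l0 (by omega))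
    obtain ⟨e1, e2, e3⟩ := hZ ω ν a b e
    exact Prod.ext (jet2_eq l1 (fun _ _ _ _ _ => rfl) e1) (Prod.ext e2 e3)

/-- The jets of the places `< v` in the context. -/
theorem js {a b : ℕ} (hb : b ≤ v) : CH p (jet2 F c w H a b (nd n n' wr))
    (fun ω => (rt F W ω, zN F c v w W K K₁ H nc nc' NP zw Lp ω)) ≤ 2 * v * cS K := by
  refine jet2_sd (nc := nc) (nc' := nc') P.law P.wJ P.deg P.DK' hb (fun l _ _ => ?_)
    (fun l _ _ => ?_) _ fun ω ν _ _ e => ?_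
  · unfold nd
    rw [if_pos rfl]
    exact P.ncu l
  · unfold nd
    rw [if_neg one_ne_zero]
    have h1 := P.ncu' l
    have h2 : (w : ℝ) ≤ wr * J := by
      rw [P.we]
      exact Nat.floor_le (mul_nonneg P.wr0 (Nat.cast_nonneg J))
    push_cast
    linarith
  · obtain ⟨e1, e2⟩ := Prod.ext_iff.mp e
    obtain ⟨e3, -, -, e4, -⟩ := zN_eq e2
    exact ⟨(time_eq F P.WJ e3 e1).1, e4⟩

/-- The near path of the base in the context. -/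
theorem yf' : CH p y (fun ω => (rt F W ω, zN F c v w W K K₁ H nc nc' NP zw Lp ω)) ≤
    2 * v * cS K + η := by
  refine CH_via P.law.nonneg _ (jet2 F c w H 0 r₀ (nd n n' wr)) (P.js P.rv) P.ev.yf
    fun ω ν _ _ e => ?_
  obtain ⟨e1, e2⟩ := Prod.ext_iff.mp e
  obtain ⟨e3, e4⟩ := Prod.ext_iff.mp e2
  obtain ⟨e5, e6, e7, e8, e9, e10⟩ := zN_eq e4
  refine Prod.ext e1 (Prod.ext e7 ?_)
  exact Prod.ext (time_eq F P.WJ e5 e3).1 e6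

/-- The deep jets of `v` from the far jets. -/
theorem vd {𝓦 : Type} (Z : F.Ω → 𝓦) (hZ : ∀ ω ν, 0 < p ω → 0 < p ν → Z ω = Z ν →
    jt1 F c v w H (Df v) ω = jt1 F c v w H (Df v) ν) :
    CH p (jt1 F c v w H (nd n n' wr v)) Z ≤ 2 * Real.log 5 :=
  jt1_low P.law (N' := Df v) P.Dfv Z fun ω ν a b e j' hj => jt1_fl (hZ ω ν a b e) hj

/-- The code of `u` of the orders `≥ 2`. -/
theorem cu2 {𝓦 : Type} (Z : F.Ω → 𝓦) (hZ : ∀ ω ν, 0 < p ω → 0 < p ν → Z ω = Z ν →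
    jt1 F c v w H (Df v) ω = jt1 F c v w H (Df v) ν ∧
    jet2 F c w H r₀ v (nd n n' wr) ω = jet2 F c w H r₀ v (nd n n' wr) ν ∧ zw ω = zw ν ∧
      y ω = y ν) : CH p (cod F w (fun s => H s (v + 1)) (c (v + 1)) (nc' (v + 1)) 2 K) Z ≤
        2 * Real.log 5 + η := by
  refine CH_via P.law.nonneg _ (jt1 F c v w H (nd n n' wr v)) (P.vd Z fun ω ν a b e =>
    (hZ ω ν a b e).1) (P.ev.cd (v + 1) (Nat.le_succ_of_le P.rv) le_rfl) fun ω ν a b e => ?_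
  obtain ⟨e1, e2⟩ := Prod.ext_iff.mp e
  obtain ⟨e3, e4, e5, e6⟩ := hZ ω ν a b e2
  exact Prod.ext (jet2_join (fun _ _ _ _ _ => rfl) (fun _ _ => rfl) e4 e1) (Prod.ext e5 e6)

/-- The code of `u` from the far jets. -/
theorem pf {𝓦 : Type} (Z : F.Ω → 𝓦) (hZ : ∀ ω ν, 0 < p ω → 0 < p ν → Z ω = Z ν →
    jt1 F c v w H (Df v) ω = jt1 F c v w H (Df v) ν ∧
    jt1 F c (v + 1) w H (Df (v + 1)) ω = jt1 F c (v + 1) w H (Df (v + 1)) ν ∧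
    jet2 F c w H r₀ v (nd n n' wr) ω = jet2 F c w H r₀ v (nd n n' wr) ν ∧ zw ω = zw ν ∧
      y ω = y ν) : CH p (cod F w (fun s => H s (v + 1)) (c (v + 1)) NP 0 K₁) Z ≤
        2 * Real.log 5 + η + cD K₁ := by
  refine CH_via P.law.nonneg _ (cod F w (fun s => H s (v + 1)) (c (v + 1)) (nc' (v + 1)) 2 K)
    (P.cu2 Z fun ω ν a b e => ?_) (W' := fun ω =>
      (cod F w (fun s => H s (v + 1)) (c (v + 1)) (nc' (v + 1)) 2 K ω, Z ω))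
    (cod_jets P.law P.wJ P.deg P.DK (N := Df (v + 1)) P.NP2 P.NP3 _ fun ω ν a b e => ?_)
    fun _ _ _ _ e => e
  · obtain ⟨e1, e2, e3, e4, e5⟩ := hZ ω ν a b e
    exact ⟨e1, e3, e4, e5⟩
  · obtain ⟨e1, e2⟩ := Prod.ext_iff.mp e
    obtain ⟨e3, e4, e5, e6, e7⟩ := hZ ω ν a b e2
    exact ⟨(P.ev.yW ω ν e7).2, fun j' hj => jt1_fl e4 hj, cod_low P.NP1 le_rfl P.K1K e1⟩

/-- The code of `v`. -/
theorem cv' {𝓦 : Type} (Z : F.Ω → 𝓦) {N : ℕ → ℝ} (h0 : (NV : ℝ) ≤ N 0 * J)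
    (h1 : (NV : ℝ) ≤ N 1 * J + w + 1) (hZ : ∀ ω ν, 0 < p ω → 0 < p ν → Z ω = Z ν →
    F.T ω = F.T ν ∧ (∀ j' ≤ 1, ⌊(2 : ℝ) ^ (N j' * J) * ojet F (c v) j' (H (slam F w ω) v) ω⌋ =
      ⌊(2 : ℝ) ^ (N j' * J) * ojet F (c v) j' (H (slam F w ν) v) ν⌋) ∧
      sdL F c v w K H nc nc' ω = sdL F c v w K H nc nc' ν) :
    CH p (cod F w (fun s => H s v) (c v) NV 0 K) Z ≤ cD K := by
  refine cod_jets P.law P.wJ P.deg P.DK' (N := N) h0 h1 Z fun ω ν a b e => ?_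
  obtain ⟨e1, e2, e3⟩ := hZ ω ν a b e
  refine ⟨e1, e2, ?_⟩
  have h1 := (Prod.ext_iff.mp (congrFun e3 (Fin.last v))).2
  simp only [sdL, Fin.val_last, if_true] at h1
  exact cod_low P.NV1 le_rfl le_rfl h1

/-- The code of the target from the far jets. -/
theorem rf {𝓦 : Type} (Z : F.Ω → 𝓦) (hZ : ∀ ω ν, 0 < p ω → 0 < p ν → Z ω = Z ν →
    (jt1 F c v w H (Df v) ω = jt1 F c v w H (Df v) ν ∧
    jt1 F c (v + 1) w H (Df (v + 1)) ω = jt1 F c (v + 1) w H (Df (v + 1)) ν ∧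
    jet2 F c w H r₀ v (nd n n' wr) ω = jet2 F c w H r₀ v (nd n n' wr) ν ∧ zw ω = zw ν ∧
      y ω = y ν)) : CH p (cod F w (fun s => H s (v + 2)) (c (v + 2)) (γ (v + 2) + q + X) 1 K) Z ≤
        2 * Real.log 5 + η := by
  refine CH_via P.law.nonneg _ (jt1 F c v w H (nd n n' wr v)) (P.vd Z fun ω ν a b e =>
    (hZ ω ν a b e).1) P.ev.dj fun ω ν a b e => ?_
  obtain ⟨e1, e2⟩ := Prod.ext_iff.mp e
  obtain ⟨e3, e4, e5, e6, e7⟩ := hZ ω ν a b e2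
  refine Prod.ext ?_ (Prod.ext e6 e7)
  have h1 : jet2 F c w H r₀ (v + 1) Dd ω = jet2 F c w H r₀ (v + 1) Dd ν :=
    jet2_join (N' := nd n n' wr) (Nn := nd n n' wr v) (fun l l0 l1 j' hj =>
      P.Dd0 l l0 l1.le j' hj) (fun j' hj => P.Dd0 v P.rv le_rfl j' hj) e5 e1
  exact jet2_join (v := v + 1) (N' := Dd) (Nn := Df (v + 1)) (fun _ _ _ _ _ => rfl) P.Ddu h1 e4

/-- The code of the target of all orders, from the far data. -/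
theorem rf0 {𝓦 : Type} (Z : F.Ω → 𝓦) (hZ : ∀ ω ν, 0 < p ω → 0 < p ν → Z ω = Z ν →
    (jt1 F c v w H (Df v) ω = jt1 F c v w H (Df v) ν ∧
    jt1 F c (v + 1) w H (Df (v + 1)) ω = jt1 F c (v + 1) w H (Df (v + 1)) ν ∧
    jet2 F c w H r₀ v (nd n n' wr) ω = jet2 F c w H r₀ v (nd n n' wr) ν ∧ zw ω = zw ν ∧
      y ω = y ν) ∧ pr2 F c w H (v + 2) Ef ω = pr2 F c w H (v + 2) Ef ν) :
    CH p (cod F w (fun s => H s (v + 2)) (c (v + 2)) NR 0 K) Z ≤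
      2 * Real.log 5 + η + cD K := by
  refine CH_via P.law.nonneg _ (cod F w (fun s => H s (v + 2)) (c (v + 2))
    (γ (v + 2) + q + X) 1 K) (P.rf Z fun ω ν a b e => (hZ ω ν a b e).1) (W' := fun ω =>
      (cod F w (fun s => H s (v + 2)) (c (v + 2)) (γ (v + 2) + q + X) 1 K ω, Z ω))
    (cod_pos P.law P.wJ P.deg P.DK' (N := Ef 0) P.NR2 _ fun ω ν a b e => ?_)
    fun _ _ _ _ e => e
  obtain ⟨e1, e2⟩ := Prod.ext_iff.mp e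
  obtain ⟨⟨-, -, -, -, e7⟩, e8⟩ := hZ ω ν a b e2
  exact ⟨(P.ev.yW ω ν e7).2, (Prod.ext_iff.mp e8).1, cod_low P.NR1 le_rfl le_rfl e1⟩

/-- The code of the target at the ball `x`. -/
theorem rx {𝓦 : Type} (Z : F.Ω → 𝓦) (hZ : ∀ ω ν, 0 < p ω → 0 < p ν → Z ω = Z ν →
    zx ω = zx ν ∧ y ω = y ν ∧ sdL F c v w K H nc nc' ω = sdL F c v w K H nc nc' ν ∧
      cod F w (fun s => H s v) (c v) NV 0 K ω = cod F w (fun s => H s v) (c v) NV 0 K ν ∧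
      cod F w (fun s => H s (v + 1)) (c (v + 1)) NP 0 K₁ ω =
        cod F w (fun s => H s (v + 1)) (c (v + 1)) NP 0 K₁ ν) {N : ℕ}
    (hN : (2 : ℝ) ^ N ≤ ρ * 2 ^ (Nt * J)) :
    CH p (cod F w (fun s => H s (v + 2)) (c (v + 2)) N 0 K) Z ≤
      (v + 2 : ℕ) * (M + 1) * cM K₁ M + η + (K + 1) * Real.log (2 * (ρ + 1) + 1) := by
  have h0 := P.law.nonneg
  have b0 := cod_prec P.law (w := w) (K := K) (N := N) (s := 2 ^ (Nt * J))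
    (Real.rpow_pos_of_pos two_pos _) P.ρ0 hN (Hl := fun s => H s (v + 2)) (κ := c (v + 2))
    (a₀ := 0) Z
  have b1 := jetM_cod (F := F) (c := c) (w := w) (K := K₁) (D := D) (H := H) P.law P.wr0 P.we P.wJ
    P.deg P.DK (r₀ := r₀) (r := v + 2) (M := M) (nt := nt) Z fun ω ν a b e => ?_
  · have b2 := CH_via h0 (Pool.AVG71.cod F w 0 K (2 ^ (Nt * J)) (c (v + 2))
      (fun s => H s (v + 2)) (fun P => P)) (jetM F c w H r₀ (v + 2) M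
        (fun l j' => nt l - (j' : ℝ) * wr)) b1 P.ev.jt fun ω ν a b e => ?_
    · linarith
    · obtain ⟨e1, e2⟩ := Prod.ext_iff.mp e
      obtain ⟨e3, e4, -⟩ := hZ ω ν a b e2
      exact Prod.ext e1 (Prod.ext e3 e4)
  · obtain ⟨e1, e2, e3, e4, e5⟩ := hZ ω ν a b e
    refine ⟨(P.ev.yW ω ν e2).2, fun l l0 l1 j' => ?_⟩
    have hKK := P.K1K
    rcases Nat.lt_or_ge l v with hlv | hlv
    · refine ⟨nc l, ?_, fun b' _ hbK => cod_near (sdL_fst e3 hlv) (Nat.zero_le b')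
        (hbK.trans hKK)⟩
      exact (mul_le_mul_of_nonneg_right (P.nt0 l l0 hlv) (Nat.cast_nonneg J)).trans (P.ncu l)
    · have hlv' : l = v ∨ l = v + 1 := by omega
      rcases hlv' with h | h
      · subst h
        exact ⟨NV, P.nt1, fun b' _ hbK => cod_near e4 (Nat.zero_le b') (hbK.trans hKK)⟩
      · subst h
        exact ⟨NP, P.nt2, fun b' _ hbK => cod_near e5 (Nat.zero_le b') hbK⟩

end

end N2E

end Pool.AVG57
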