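import Pool.Agent.H57.AVN.Pnc

/-!
# The inputs `PrN` on one event: two near places

`N2E.prn`: the inputs `PrN` of the average, for the path of the target minus `RU`.
-/

set_option autoImplicit false

namespace Pool.AVG57

open Finset Real MvPolynomial
open Pool.Agent.H49.Ent Pool.Agent.H32.Dense Pool.STK Pool.KA Pool.KSAT Pool.K2S Pool.PB Pool.S6C
open Pool.GEN Pool.CHT Pool.CHX Pool.ISO Pool.RCD Pool.LA91 Pool.AVG71 Pool.AVG5 Pool.D2F2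
open Pool.PB.Trl (rt rt_mem t_rt)
open Pool.D2R (hgt gnh GrdE chs)
open Pool.KVA (MI)
open Pool.KAF (rs Pr)
open Pool.BFL (Pb)
open Pool.OWN68 (CH_chain2)
open Pool.AVG66 (RU cRU cRU_nonneg RU_deg RU_coeff RU_slam RU_cR RU_V Vu_few ac_u GrdN grdN_RU adN_ti
  PrN)

variable {m J : ℕ} {F : Fam m J} {c : ℕ → Fin m} {r₀ v K₁ K M q w W X mm D ks nn : ℕ} {wr : ℝ}
  {γ nc nc' : ℕ → ℕ} {B : F.Ω → Prop} {G : ℕ → PtT F → ℕ → MvPolynomial (Option (Fin m)) ℝ}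
  {H : LnT F → ℕ → MvPolynomial (Option (Fin m)) ℝ} {ζ ρ₁ ρ₂ υ Λ : Type} {zw : F.Ω → ζ}
  {zj : F.Ω → ρ₁} {zx : F.Ω → ρ₂} {y : F.Ω → υ} {p : F.Ω → ℝ} {Lp : F.Ω → Λ}
  {mC : F.Ω → Polynomial ℝ} {n n' nt : ℕ → ℝ} {Nt nb nbu Mu : ℝ} {Df Dn Dx Dd : ℕ → ℕ → ℝ}
  {Ef En Nv : ℕ → ℝ} {NP NV NR : ℕ} {U Um ρ fu eL η : ℝ}

/-- The total error. -/
noncomputable def eN (v K₁ K M : ℕ) (ρ η eL eR fu : ℝ) : ℝ :=
  12 * (η + (v + 1) * (2 * η + 2 * cD K) + cD K₁ + cD K + 4 * v * cS K + 2 * cS K₁ + cL K₁ +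
    cL K + (v + 2 : ℕ) * (M + 1) * cM K₁ M + (K + 1) * Real.log (2 * (ρ + 1) + 1) +
    cQ K₁ (2 * K₁) + 2 * Real.log 5 + eL + eR + fu)

/-- The jets of one place. -/
theorem jet2_at {r r' l : ℕ} {N : ℕ → ℕ → ℝ} {ω ν : F.Ω}
    (h : jet2 F c w H r' r N ω = jet2 F c w H r' r N ν) (h0 : r' ≤ l) (h1 : l < r) :
    jt1 F c l w H (N l) ω = jt1 F c l w H (N l) ν :=
  fl_jt1 fun _ hj => jet2_fl h h0 h1 hj

namespace N2E

section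

variable (P : N2E F c r₀ v K₁ K M q w W X mm D ks nn wr γ nc nc' B G H zw zj zx y p Lp mC n n' nt
  Nt nb nbu Mu Df Dn Dx Dd Ef En Nv NP NV NR U Um ρ fu eL η)

include P

/-- The data of the context from the far data. -/
theorem cf {𝓦 : Type} (Z : F.Ω → 𝓦) (hZ : ∀ ω ν, 0 < p ω → 0 < p ν → Z ω = Z ν →
    (jt1 F c v w H (Df v) ω = jt1 F c v w H (Df v) ν ∧
    jt1 F c (v + 1) w H (Df (v + 1)) ω = jt1 F c (v + 1) w H (Df (v + 1)) ν ∧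
    jet2 F c w H r₀ v (nd n n' wr) ω = jet2 F c w H r₀ v (nd n n' wr) ν ∧ zw ω = zw ν ∧
      y ω = y ν) ∧ pr2 F c w H (v + 2) Ef ω = pr2 F c w H (v + 2) Ef ν) :
    CH p (fun ω => (sdL F c v w K H nc nc' ω,
      (cod F w (fun s => H s (v + 1)) (c (v + 1)) NP 0 K₁ ω, Lp ω))) Z ≤
      (v + 1) * (2 * η + 2 * cD K) + ((2 * Real.log 5 + η + cD K₁) +
        ((cD K + (2 * Real.log 5 + η + cD K)) + eL)) := by
  have h0 := P.law.nonneg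
  have b1 := P.sd Z fun ω ν a b e => by
    obtain ⟨⟨e1, e2, e3, e4, e5⟩, e6⟩ := hZ ω ν a b e
    exact ⟨e3, e4, e5⟩
  rw [CH_chain2 h0, CH_chain2 h0]
  have b2 := P.pf (fun ω => (sdL F c v w K H nc nc' ω, Z ω)) fun ω ν a b e =>
    (hZ ω ν a b (Prod.ext_iff.mp e).2).1
  obtain ⟨Z', hZ'⟩ : ∃ Z' : F.Ω → _, Z' = fun ω =>
    (cod F w (fun s => H s (v + 1)) (c (v + 1)) NP 0 K₁ ω, (sdL F c v w K H nc nc' ω, Z ω)) :=
    ⟨_, rfl⟩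
  rw [← hZ']
  have hZ2 : ∀ ω ν, Z' ω = Z' ν → cod F w (fun s => H s (v + 1)) (c (v + 1)) NP 0 K₁ ω =
      cod F w (fun s => H s (v + 1)) (c (v + 1)) NP 0 K₁ ν ∧
      sdL F c v w K H nc nc' ω = sdL F c v w K H nc nc' ν ∧ Z ω = Z ν := by
    intro ω ν e
    rw [hZ'] at e
    obtain ⟨e1, e2⟩ := Prod.ext_iff.mp e
    obtain ⟨e3, e4⟩ := Prod.ext_iff.mp e2
    exact ⟨e1, e3, e4⟩
  have b3 := P.cv' Z' P.NV2 P.NV3 fun ω ν a b e => by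
    obtain ⟨e1, e2, e3⟩ := hZ2 ω ν e
    obtain ⟨⟨f1, f2, f3, f4, f5⟩, f6⟩ := hZ ω ν a b e3
    exact ⟨(P.ev.yW ω ν f5).2, fun j' hj => jt1_fl f1 hj, e2⟩
  have b4 := P.rf0 Z' fun ω ν a b e => hZ ω ν a b (hZ2 ω ν e).2.2
  have b5 := CH_subadd h0 (cod F w (fun s => H s v) (c v) NV 0 K)
    (cod F w (fun s => H s (v + 2)) (c (v + 2)) NR 0 K) Z'
  have b6 := CH_via h0 Lp (fun ω => (cod F w (fun s => H s v) (c v) NV 0 K ω,
    cod F w (fun s => H s (v + 2)) (c (v + 2)) NR 0 K ω)) (W := Z') (W' := fun ω =>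
      ((cod F w (fun s => H s v) (c v) NV 0 K ω,
    cod F w (fun s => H s (v + 2)) (c (v + 2)) NR 0 K ω), Z' ω)) (e₂ := eL)
    (b5.trans (add_le_add b3 b4)) (P.Lf _ _ fun ω ν a b e => by
      obtain ⟨e0, e7⟩ := Prod.ext_iff.mp e
      obtain ⟨e8, e9⟩ := Prod.ext_iff.mp e0
      obtain ⟨e1, e2, e3⟩ := hZ2 ω ν e7
      obtain ⟨⟨f1, f2, f3, f4, f5⟩, f6⟩ := hZ ω ν a b e3
      obtain ⟨f7, f8⟩ := P.ev.yW ω ν f5
      exact ⟨f8, f7, f4, e2, e8, e1, e9⟩) fun _ _ _ _ e => e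
  linarith

/-- The data of the gradient in the direction of `u` at the ball `x`. -/
theorem lx {𝓦 : Type} (Z : F.Ω → 𝓦) {N : ℕ → ℝ} (h1 : (NV : ℝ) ≤ N 0 * J)
    (h2 : (NV : ℝ) ≤ N 1 * J + w + 1) (hZ : ∀ ω ν, 0 < p ω → 0 < p ν → Z ω = Z ν →
    zx ω = zx ν ∧ y ω = y ν ∧ zw ω = zw ν ∧
      (∀ j' ≤ 1, ⌊(2 : ℝ) ^ (N j' * J) * ojet F (c v) j' (H (slam F w ω) v) ω⌋ =
      ⌊(2 : ℝ) ^ (N j' * J) * ojet F (c v) j' (H (slam F w ν) v) ν⌋) ∧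
      sdL F c v w K H nc nc' ω = sdL F c v w K H nc nc' ν ∧
      cod F w (fun s => H s (v + 1)) (c (v + 1)) NP 0 K₁ ω =
        cod F w (fun s => H s (v + 1)) (c (v + 1)) NP 0 K₁ ν) :
    CH p Lp Z ≤ (cD K + ((v + 2 : ℕ) * (M + 1) * cM K₁ M + η +
      (K + 1) * Real.log (2 * (ρ + 1) + 1))) + eL := by
  have h0 := P.law.nonneg
  have b3 := P.cv' Z h1 h2 fun ω ν a b e => by
    obtain ⟨e1, e2, e3, e4, e5, e6⟩ := hZ ω ν a b e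
    exact ⟨(P.ev.yW ω ν e2).2, e4, e5⟩
  have b4 := P.rx (fun ω => (cod F w (fun s => H s v) (c v) NV 0 K ω, Z ω))
    (fun ω ν a b e => by
      obtain ⟨e7, e8⟩ := Prod.ext_iff.mp e
      obtain ⟨e1, e2, e3, e4, e5, e6⟩ := hZ ω ν a b e8
      exact ⟨e1, e2, e5, e7, e6⟩) P.NR3
  refine CH_via h0 Lp (fun ω => (cod F w (fun s => H s v) (c v) NV 0 K ω,
    cod F w (fun s => H s (v + 2)) (c (v + 2)) NR 0 K ω)) (W := Z) (W' := fun ω =>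
      ((cod F w (fun s => H s v) (c v) NV 0 K ω,
    cod F w (fun s => H s (v + 2)) (c (v + 2)) NR 0 K ω), Z ω)) ?_
    (P.Lf _ _ fun ω ν a b e => by
      obtain ⟨e0, e7⟩ := Prod.ext_iff.mp e
      obtain ⟨e8, e9⟩ := Prod.ext_iff.mp e0
      obtain ⟨e1, e2, e3, e4, e5, e6⟩ := hZ ω ν a b e7
      obtain ⟨f7, f8⟩ := P.ev.yW ω ν e2
      exact ⟨f8, f7, e3, e5, e8, e6, e9⟩) fun _ _ _ _ e => e
  rw [CH_chain2 h0]
  exact add_le_add b3 b4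

/-- **The field `mj`.** -/
theorem fmj : MI p zj (fun ω => ((jt1 F c v w H (Df v) ω, jt1 F c (v + 1) w H (Df (v + 1)) ω),
      pr2 F c w H (v + 2) Ef ω))
    (fun ω => ((jt1 F c v w H (Dn v) ω, pr2 F c w H (v + 2) En ω), (zw ω,
      ycN F c r₀ v w K K₁ H nc nc' (nd n n' wr) (Dn (v + 1)) NP y Lp ω))) ≤
    η + ((v + 1) * (2 * η + 2 * cD K) + ((2 * Real.log 5 + η + cD K₁) +
        ((cD K + (2 * Real.log 5 + η + cD K)) + eL))) := by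
  have h0 := P.law.nonneg
  have b1 := MI_mono h0 zj (X := fun ω => (jet2 F c w H r₀ (v + 2) Df ω,
    pr2 F c w H (v + 2) Ef ω)) (X' := fun ω => ((jt1 F c v w H (Df v) ω,
      jt1 F c (v + 1) w H (Df (v + 1)) ω), pr2 F c w H (v + 2) Ef ω))
    (fun ω => ((jt1 F c v w H (Dn v) ω, pr2 F c w H (v + 2) En ω), (zw ω,
      ycN F c r₀ v w K K₁ H nc nc' (nd n n' wr) (Dn (v + 1)) NP y Lp ω)))
    (fun ω ν _ _ e => by
      obtain ⟨e1, -⟩ := Prod.ext_iff.mp e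
      obtain ⟨e2, e3⟩ := Prod.ext_iff.mp e1
      exact Prod.ext (Prod.ext (jet2_at e2 P.rv (by omega))
        (jet2_at e2 (Nat.le_succ_of_le P.rv) (by omega))) e3)
  have b2 := MI_add2 h0 zj (fun ω => (jet2 F c w H r₀ (v + 2) Df ω, pr2 F c w H (v + 2) Ef ω))
    (Z := fun ω => ((jet2 F c w H r₀ (v + 2) Dn ω, pr2 F c w H (v + 2) En ω), (zw ω, y ω)))
    (Z' := fun ω => ((jt1 F c v w H (Dn v) ω, pr2 F c w H (v + 2) En ω), (zw ω,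
      ycN F c r₀ v w K K₁ H nc nc' (nd n n' wr) (Dn (v + 1)) NP y Lp ω)))
    (C := fun ω => (sdL F c v w K H nc nc' ω,
      (cod F w (fun s => H s (v + 1)) (c (v + 1)) NP 0 K₁ ω, Lp ω))) (fun ω ν _ _ e => by
      obtain ⟨e1, e2⟩ := Prod.ext_iff.mp e
      obtain ⟨e3, e4⟩ := Prod.ext_iff.mp e1
      obtain ⟨e5, e6⟩ := Prod.ext_iff.mp e2
      obtain ⟨f1, f2, f3, f4, f5, f6⟩ := of_yc e6
      exact Prod.ext (Prod.ext (jet2_join (v := v + 1) (N' := Dn) (fun _ _ _ _ _ => rfl)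
        (fun _ _ => rfl) (jet2_join P.Dn0 (fun _ _ => rfl) f2 e3) f4) e4) (Prod.ext e5 f3))
    (fun ω ν _ _ e => by
      obtain ⟨e1, e2⟩ := Prod.ext_iff.mp e
      obtain ⟨c1, c2⟩ := Prod.ext_iff.mp e1
      obtain ⟨c3, c4⟩ := Prod.ext_iff.mp c2
      obtain ⟨e3, e4⟩ := Prod.ext_iff.mp e2
      obtain ⟨e5, e6⟩ := Prod.ext_iff.mp e3
      obtain ⟨e7, e8⟩ := Prod.ext_iff.mp e4
      exact Prod.ext (Prod.ext (jet2_at e5 P.rv (by omega)) e6) (Prod.ext e7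
        (yc_of P.ev.yW c1 (jet2_eq (by omega) P.Dn0 e5) e8
          (jet2_at e5 (Nat.le_succ_of_le P.rv) (by omega)) c3 c4)))
  have b3 := P.cf (fun ω => ((jet2 F c w H r₀ (v + 2) Df ω, pr2 F c w H (v + 2) Ef ω),
    ((jet2 F c w H r₀ (v + 2) Dn ω, pr2 F c w H (v + 2) En ω), (zw ω, y ω))))
    (fun ω ν _ _ e => by
      obtain ⟨e1, e2⟩ := Prod.ext_iff.mp e
      obtain ⟨c1, c2⟩ := Prod.ext_iff.mp e1
      obtain ⟨e3, e4⟩ := Prod.ext_iff.mp e2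
      obtain ⟨e5, e6⟩ := Prod.ext_iff.mp e3
      obtain ⟨e7, e8⟩ := Prod.ext_iff.mp e4
      exact ⟨⟨jet2_at c1 P.rv (by omega), jet2_at c1 (Nat.le_succ_of_le P.rv) (by omega),
        jet2_eq (by omega) P.Dn0 e5, e7, e8⟩, c2⟩)
  have b4 := P.ev.mj
  linarith

/-- **The field `mx`.** -/
theorem fmx : MI p zx (fun ω => (jt1 F c v w H (Df v) ω, jt1 F c (v + 1) w H (Df (v + 1)) ω))
    (fun ω => (jt1 F c v w H (Dx v) ω, (zw ω,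
      ycN F c r₀ v w K K₁ H nc nc' (nd n n' wr) (Dn (v + 1)) NP y Lp ω))) ≤
    η + ((v + 1) * (2 * η + 2 * cD K) + (2 * Real.log 5 + η + cD K₁)) +
      ((cD K + ((v + 2 : ℕ) * (M + 1) * cM K₁ M + η +
      (K + 1) * Real.log (2 * (ρ + 1) + 1))) + eL) := by
  have h0 := P.law.nonneg
  have hxu : ∀ {ω ν : F.Ω}, jt1 F c (v + 1) w H (Dn (v + 1)) ω =
      jt1 F c (v + 1) w H (Dn (v + 1)) ν → jt1 F c (v + 1) w H (Dx (v + 1)) ω =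
      jt1 F c (v + 1) w H (Dx (v + 1)) ν := fun {ω ν} h => fl_jt1 fun j' hj => by
    rw [P.Dxu j' hj]
    exact jt1_fl h hj
  have hxu' : ∀ {ω ν : F.Ω}, jt1 F c (v + 1) w H (Dx (v + 1)) ω =
      jt1 F c (v + 1) w H (Dx (v + 1)) ν → jt1 F c (v + 1) w H (Dn (v + 1)) ω =
      jt1 F c (v + 1) w H (Dn (v + 1)) ν := fun {ω ν} h => fl_jt1 fun j' hj => by
    rw [← P.Dxu j' hj]
    exact jt1_fl h hj
  have b1 := MI_mono h0 zx (X := jet2 F c w H r₀ (v + 2) Df) (X' := fun ω =>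
    (jt1 F c v w H (Df v) ω, jt1 F c (v + 1) w H (Df (v + 1)) ω))
    (fun ω => (jt1 F c v w H (Dx v) ω, (zw ω,
      ycN F c r₀ v w K K₁ H nc nc' (nd n n' wr) (Dn (v + 1)) NP y Lp ω)))
    (fun ω ν _ _ e => by
      obtain ⟨e2, -⟩ := Prod.ext_iff.mp e
      exact Prod.ext (jet2_at e2 P.rv (by omega))
        (jet2_at e2 (Nat.le_succ_of_le P.rv) (by omega)))
  have b2 := MI_add3 h0 zx (jet2 F c w H r₀ (v + 2) Df)
    (Z := fun ω => (jet2 F c w H r₀ (v + 2) Dx ω, (zw ω, y ω)))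
    (Z' := fun ω => (jt1 F c v w H (Dx v) ω, (zw ω,
      ycN F c r₀ v w K K₁ H nc nc' (nd n n' wr) (Dn (v + 1)) NP y Lp ω)))
    (C₁ := fun ω => (sdL F c v w K H nc nc' ω,
      cod F w (fun s => H s (v + 1)) (c (v + 1)) NP 0 K₁ ω)) (C₂ := Lp) (fun ω ν _ _ e => by
      obtain ⟨e3, e2⟩ := Prod.ext_iff.mp e
      obtain ⟨e5, e6⟩ := Prod.ext_iff.mp e2
      obtain ⟨f1, f2, f3, f4, f5, f6⟩ := of_yc e6
      exact Prod.ext (Prod.ext f1 f5) (Prod.ext (jet2_join (v := v + 1) (N' := Dx)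
        (fun _ _ _ _ _ => rfl) (fun _ _ => rfl) (jet2_join P.Dx0 (fun _ _ => rfl) f2 e3)
          (hxu f4)) (Prod.ext e5 f3)))
    (fun ω ν _ _ e => by
      obtain ⟨c4, e1⟩ := Prod.ext_iff.mp e
      obtain ⟨c2, e2⟩ := Prod.ext_iff.mp e1
      obtain ⟨c1, c3⟩ := Prod.ext_iff.mp c2
      obtain ⟨e5, e4⟩ := Prod.ext_iff.mp e2
      obtain ⟨e7, e8⟩ := Prod.ext_iff.mp e4
      exact Prod.ext (jet2_at e5 P.rv (by omega)) (Prod.ext e7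
        (yc_of P.ev.yW c1 (jet2_eq (by omega) P.Dx0 e5) e8
          (hxu' (jet2_at e5 (Nat.le_succ_of_le P.rv) (by omega))) c3 c4)))
  have b3 : CH p (fun ω => (sdL F c v w K H nc nc' ω,
      cod F w (fun s => H s (v + 1)) (c (v + 1)) NP 0 K₁ ω)) (fun ω =>
      (jet2 F c w H r₀ (v + 2) Df ω, (jet2 F c w H r₀ (v + 2) Dx ω, (zw ω, y ω)))) ≤
      (v + 1) * (2 * η + 2 * cD K) + (2 * Real.log 5 + η + cD K₁) := by
    rw [CH_chain2 h0]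
    refine add_le_add (P.sd _ fun ω ν _ _ e => ?_) (P.pf _ fun ω ν _ _ e => ?_)
    · obtain ⟨c1, e2⟩ := Prod.ext_iff.mp e
      obtain ⟨e5, e4⟩ := Prod.ext_iff.mp e2
      obtain ⟨e7, e8⟩ := Prod.ext_iff.mp e4
      exact ⟨jet2_eq (by omega) P.Dx0 e5, e7, e8⟩
    · obtain ⟨-, e1⟩ := Prod.ext_iff.mp e
      obtain ⟨c1, e2⟩ := Prod.ext_iff.mp e1
      obtain ⟨e5, e4⟩ := Prod.ext_iff.mp e2
      obtain ⟨e7, e8⟩ := Prod.ext_iff.mp e4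
      exact ⟨jet2_at c1 P.rv (by omega), jet2_at c1 (Nat.le_succ_of_le P.rv) (by omega),
        jet2_eq (by omega) P.Dx0 e5, e7, e8⟩
  have b4 := P.lx (fun ω => (zx ω, ((sdL F c v w K H nc nc' ω,
      cod F w (fun s => H s (v + 1)) (c (v + 1)) NP 0 K₁ ω),
      (jet2 F c w H r₀ (v + 2) Dx ω, (zw ω, y ω))))) P.NV4 P.NV5 (fun ω ν _ _ e => by
      obtain ⟨c4, e1⟩ := Prod.ext_iff.mp e
      obtain ⟨c2, e2⟩ := Prod.ext_iff.mp e1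
      obtain ⟨c1, c3⟩ := Prod.ext_iff.mp c2
      obtain ⟨e5, e4⟩ := Prod.ext_iff.mp e2
      obtain ⟨e7, e8⟩ := Prod.ext_iff.mp e4
      exact ⟨c4, e8, e7, fun j' hj => jet2_fl e5 P.rv (by omega) hj, c1, c3⟩)
  have b5 := P.ev.mx
  linarith

/-- **The field `dj`.** -/
theorem fdj : CH p (cod F w (fun s => H s (v + 2)) (c (v + 2)) (γ (v + 2) + q + X) 1 K)
    (fun ω => ((jt1 F c v w H (Df v) ω, jt1 F c (v + 1) w H (Df (v + 1)) ω), (zw ω,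
      ycN F c r₀ v w K K₁ H nc nc' (nd n n' wr) (Dn (v + 1)) NP y Lp ω))) ≤
    2 * Real.log 5 + η :=
  P.rf _ fun ω ν _ _ e => by
    obtain ⟨e1, e2⟩ := Prod.ext_iff.mp e
    obtain ⟨e3, e4⟩ := Prod.ext_iff.mp e1
    obtain ⟨e5, e6⟩ := Prod.ext_iff.mp e2
    obtain ⟨f1, f2, f3, f4, f5, f6⟩ := of_yc e6
    exact ⟨e3, e4, f2, e5, f3⟩

/-- **The field `jt`.** -/
theorem fjt : CH p (cod F w (fun s => H s (v + 2)) (c (v + 2)) (γ (v + 2) + q) 0 K)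
    (fun ω => (jt1 F c v w H (fun j' => nt v - (j' : ℝ) * wr) ω, (zx ω,
      ycN F c r₀ v w K K₁ H nc nc' (nd n n' wr) (Dn (v + 1)) NP y Lp ω))) ≤
    cD K + ((v + 2 : ℕ) * (M + 1) * cM K₁ M + η + (K + 1) * Real.log (2 * (ρ + 1) + 1)) := by
  have h0 := P.law.nonneg
  have a1 : (NV : ℝ) ≤ (fun j' : ℕ => nt v - (j' : ℝ) * wr) 0 * J := by
    simpa using P.NV8
  have a2 : (NV : ℝ) ≤ (fun j' : ℕ => nt v - (j' : ℝ) * wr) 1 * J + w + 1 := by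
    have h1 := P.NV8
    have h2 := P.wl
    simp only
    push_cast
    linarith
  obtain ⟨Z, hZd⟩ : ∃ Z : F.Ω → _, Z = fun ω => (jt1 F c v w H (fun j' => nt v - (j' : ℝ) * wr) ω,
    (zx ω, ycN F c r₀ v w K K₁ H nc nc' (nd n n' wr) (Dn (v + 1)) NP y Lp ω)) := ⟨_, rfl⟩
  have hZ : ∀ ω ν, Z ω = Z ν → jt1 F c v w H (fun j' => nt v - (j' : ℝ) * wr) ω =
      jt1 F c v w H (fun j' => nt v - (j' : ℝ) * wr) ν ∧ zx ω = zx ν ∧ y ω = y ν ∧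
      sdL F c v w K H nc nc' ω = sdL F c v w K H nc nc' ν ∧
      cod F w (fun s => H s (v + 1)) (c (v + 1)) NP 0 K₁ ω =
        cod F w (fun s => H s (v + 1)) (c (v + 1)) NP 0 K₁ ν := by
    intro ω ν e
    rw [hZd] at e
    obtain ⟨e3, e2⟩ := Prod.ext_iff.mp e
    obtain ⟨e5, e6⟩ := Prod.ext_iff.mp e2
    obtain ⟨f1, f2, f3, f4, f5, f6⟩ := of_yc e6
    exact ⟨e3, e5, f3, f1, f5⟩
  rw [← hZd]
  have b1 : CH p (cod F w (fun s => H s v) (c v) NV 0 K) Z ≤ cD K :=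
    P.cv' Z (N := fun j' : ℕ => nt v - (j' : ℝ) * wr) a1 a2 fun ω ν _ _ e => by
      obtain ⟨e1, e2, e3, e4, e5⟩ := hZ ω ν e
      refine ⟨(P.ev.yW ω ν e3).2, fun j' hj => ?_, e4⟩
      exact jt1_fl (N := fun j' : ℕ => nt v - (j' : ℝ) * wr) e1 hj
  have b2 := P.rx (fun ω => (cod F w (fun s => H s v) (c v) NV 0 K ω, Z ω)) (fun ω ν _ _ e => by
      obtain ⟨e0, e⟩ := Prod.ext_iff.mp e
      obtain ⟨e1, e2, e3, e4, e5⟩ := hZ ω ν e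
      exact ⟨e2, e3, e4, e0, e5⟩) P.NR4
  exact CH_via h0 _ (cod F w (fun s => H s v) (c v) NV 0 K) b1 b2 fun _ _ _ _ e => e

/-- **The field `vf`.** -/
theorem fvf : (nb * J - Nv 0 * J) * Real.log 2 + (nbu * J - (γ (v + 1) + q : ℕ)) * Real.log 2 -
    (η + fu + (((v + 1) * (2 * η + 2 * cD K) + (cQ K₁ (2 * K₁) + 2 * cS K₁)) +
      ((cD K + ((v + 2 : ℕ) * (M + 1) * cM K₁ M + η +
      (K + 1) * Real.log (2 * (ρ + 1) + 1))) + eL))) ≤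
    CH p (fun ω => (Vh F c v w H (nb * J) ω, Vh F c (v + 1) w H (nbu * J) ω))
      (fun ω => (jt1 F c v w H Nv ω, (zx ω,
      ycN F c r₀ v w K K₁ H nc nc' (nd n n' wr) (Dn (v + 1)) NP y Lp ω))) := by
  have h0 := P.law.nonneg
  obtain ⟨Z, hZd⟩ : ∃ Z : F.Ω → _, Z = fun ω =>
    (⌊(2 : ℝ) ^ (Nv 0 * J) * ojet F (c v) 0 (H (slam F w ω) v) ω⌋,
      (⌊(2 : ℝ) ^ (Nv 1 * J) * ojet F (c v) 1 (H (slam F w ω) v) ω⌋,
        (jetM F c w H (v + 1) (v + 2) M (fun _ j' => Mu - (j' : ℝ) * wr) ω,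
          (zx ω, (zw ω, (jet2 F c w H r₀ v (nd n n' wr) ω, y ω)))))) := ⟨_, rfl⟩
  have hZ : ∀ ω ν, Z ω = Z ν → (∀ j' ≤ 1,
      ⌊(2 : ℝ) ^ (Nv j' * J) * ojet F (c v) j' (H (slam F w ω) v) ω⌋ =
      ⌊(2 : ℝ) ^ (Nv j' * J) * ojet F (c v) j' (H (slam F w ν) v) ν⌋) ∧
      (∀ j' ≤ K₁, ⌊(2 : ℝ) ^ ((Mu - (j' : ℕ) * wr) * J) * ojet F (c (v + 1)) j'
        (H (slam F w ω) (v + 1)) ω⌋ = ⌊(2 : ℝ) ^ ((Mu - (j' : ℕ) * wr) * J) *
          ojet F (c (v + 1)) j' (H (slam F w ν) (v + 1)) ν⌋) ∧ zx ω = zx ν ∧ zw ω = zw ν ∧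
      jet2 F c w H r₀ v (nd n n' wr) ω = jet2 F c w H r₀ v (nd n n' wr) ν ∧ y ω = y ν := by
    intro ω ν e
    rw [hZd] at e
    simp only [Prod.mk.injEq] at e
    obtain ⟨e1, e2, e3, e4, e5, e6, e7⟩ := e
    refine ⟨fun j' hj => ?_, fun j' hj => ?_, e4, e5, e6, e7⟩
    · have : j' = 0 ∨ j' = 1 := by omega
      rcases this with h | h
      · subst h
        exact e1
      · subst h
        exact e2
    · have h1 := congrFun (congrFun e3 (v + 1)) j'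
      unfold jetM at h1
      have h2 : v + 1 ≤ v + 1 ∧ v + 1 < v + 2 ∧ j' ≤ M := ⟨le_rfl, by omega, hj.trans P.KM⟩
      rw [if_pos h2, if_pos h2] at h1
      exact h1
  have b0 := P.ev.vf
  rw [← hZd] at b0
  have b1 := P.sd Z fun ω ν a b e => by
    obtain ⟨e1, e2, e3, e4, e5, e6⟩ := hZ ω ν e
    exact ⟨e5, e4, e6⟩
  have b2 : CH p (cod F w (fun s => H s (v + 1)) (c (v + 1)) NP 0 K₁)
      (fun ω => (sdL F c v w K H nc nc' ω, Z ω)) ≤ cQ K₁ (2 * K₁) :=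
    cod_js P.law P.wr0 P.we P.wJ P.deg P.DK (N := Mu) P.NP4 _ fun ω ν a b e => by
      obtain ⟨e1, e2, e3, e4, e5, e6⟩ := hZ ω ν (Prod.ext_iff.mp e).2
      exact ⟨(P.ev.yW ω ν e6).2, e2⟩
  have b3 : CH p (jt1 F c (v + 1) w H (Dn (v + 1))) (fun ω =>
      (cod F w (fun s => H s (v + 1)) (c (v + 1)) NP 0 K₁ ω,
        (sdL F c v w K H nc nc' ω, Z ω))) ≤ 2 * cS K₁ :=
    jt1_cod P.law P.wJ P.deg P.DK (n := NP) P.NP5 P.NP6 _ fun ω ν a b e => by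
      obtain ⟨c1, c2⟩ := Prod.ext_iff.mp e
      obtain ⟨e1, e2, e3, e4, e5, e6⟩ := hZ ω ν (Prod.ext_iff.mp c2).2
      exact ⟨(P.ev.yW ω ν e6).2, fun b' hb => cod_near c1 (Nat.zero_le b') hb⟩
  have b4 := P.lx (fun ω => (jt1 F c (v + 1) w H (Dn (v + 1)) ω,
      (cod F w (fun s => H s (v + 1)) (c (v + 1)) NP 0 K₁ ω,
        (sdL F c v w K H nc nc' ω, Z ω)))) P.NV6 P.NV7 fun ω ν a b e => by
      obtain ⟨c3, c4⟩ := Prod.ext_iff.mp e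
      obtain ⟨c1, c2⟩ := Prod.ext_iff.mp c4
      obtain ⟨c5, c6⟩ := Prod.ext_iff.mp c2
      obtain ⟨e1, e2, e3, e4, e5, e6⟩ := hZ ω ν c6
      exact ⟨e3, e6, e4, e1, c5, c1⟩
  have b5 := CH_via h0 (fun ω => (Vh F c v w H (nb * J) ω, Vh F c (v + 1) w H (nbu * J) ω))
    (fun ω => (sdL F c v w K H nc nc' ω, (cod F w (fun s => H s (v + 1)) (c (v + 1)) NP 0 K₁ ω,
      (jt1 F c (v + 1) w H (Dn (v + 1)) ω, Lp ω)))) (W := Z) (W' := fun ω =>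
      (jt1 F c v w H Nv ω, (zx ω,
      ycN F c r₀ v w K K₁ H nc nc' (nd n n' wr) (Dn (v + 1)) NP y Lp ω)))
      le_rfl le_rfl fun ω ν a b e => ?_
  · have b6 : CH p (fun ω => (sdL F c v w K H nc nc' ω, (cod F w (fun s => H s (v + 1))
      (c (v + 1)) NP 0 K₁ ω, (jt1 F c (v + 1) w H (Dn (v + 1)) ω, Lp ω)))) Z =
        CH p (sdL F c v w K H nc nc') Z + (CH p (cod F w (fun s => H s (v + 1)) (c (v + 1)) NP 0
          K₁) (fun ω => (sdL F c v w K H nc nc' ω, Z ω)) + (CH p (jt1 F c (v + 1) w H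
            (Dn (v + 1))) (fun ω => (cod F w (fun s => H s (v + 1)) (c (v + 1)) NP 0 K₁ ω,
              (sdL F c v w K H nc nc' ω, Z ω))) + CH p Lp (fun ω =>
                (jt1 F c (v + 1) w H (Dn (v + 1)) ω,
                  (cod F w (fun s => H s (v + 1)) (c (v + 1)) NP 0 K₁ ω,
                    (sdL F c v w K H nc nc' ω, Z ω)))))) := by
      rw [CH_chain2 h0, CH_chain2 h0, CH_chain2 h0]
    have l2 : Real.log 2 ≤ 1 := log2_le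
    have l3 : 0 < Real.log 2 := Real.log_pos one_lt_two
    have c1 : (Mu * J - (γ (v + 1) + q : ℕ)) * Real.log 2 ≤ fu := by
      have h1 := P.fu1
      have h2 := P.fu0
      calc _ ≤ fu * Real.log 2 := mul_le_mul_of_nonneg_right h1 l3.le
        _ ≤ fu * 1 := mul_le_mul_of_nonneg_left l2 h2
        _ = fu := mul_one _
    have c2 : ((nb - Nv 0) + (nbu - Mu)) * Real.log 2 * J = (nb * J - Nv 0 * J) * Real.log 2 +
        (nbu * J - (γ (v + 1) + q : ℕ)) * Real.log 2 - (Mu * J - (γ (v + 1) + q : ℕ)) *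
          Real.log 2 := by ring
    rw [c2] at b0
    linarith
  · obtain ⟨c1, c2⟩ := Prod.ext_iff.mp e
    obtain ⟨c3, c4⟩ := Prod.ext_iff.mp c1
    obtain ⟨c5, c6⟩ := Prod.ext_iff.mp c4
    obtain ⟨c7, c8⟩ := Prod.ext_iff.mp c6
    obtain ⟨e1, e2, e3, e4, e5, e6⟩ := hZ ω ν c2
    exact Prod.ext (fl_jt1 e1) (Prod.ext e3 (yc_of P.ev.yW c3 e5 e6 c7 c5 c8))

end

end N2E

end Pool.AVG57
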