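import Pool.Agent.H57.AVN.Pnd

/-!
# Closed gradients on one event: two near places

`N2E.prn`: the inputs `PrN`. `n2_ev`: the gradient of the target in the direction of the moved place is
closed.
-/

set_option autoImplicit false

namespace Pool.AVG57

open Finset Real MvPolynomial
open Pool.Agent.H49.Ent Pool.Agent.H32.Dense Pool.STK Pool.KA Pool.KSAT Pool.K2S Pool.PB Pool.S6C
open Pool.GEN Pool.CHT Pool.CHX Pool.ISO Pool.RCD Pool.LA91 Pool.AVG71 Pool.AVG5 Pool.D2F2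
open Pool.PB.Trl (rt rt_mem t_rt)
open Pool.D2R (hgt gnh GrdE chs)
open Pool.KVA (MI)
open Pool.KAF (rs Pr)
open Pool.BFL (Pb)
open Pool.OWN68 (CH_chain2)
open Pool.AVG66 (RU cRU cRU_nonneg RU_deg RU_coeff RU_slam RU_cR RU_V Vu_few ac_u GrdN grdN_RU adN
  adN_ti adN_L PrN av1_evN cN)

variable {m J : ℕ} {F : Fam m J} {c : ℕ → Fin m} {r₀ v K₁ K M q w W X mm D ks nn : ℕ} {wr : ℝ}
  {γ nc nc' : ℕ → ℕ} {B : F.Ω → Prop} {G : ℕ → PtT F → ℕ → MvPolynomial (Option (Fin m)) ℝ}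
  {H : LnT F → ℕ → MvPolynomial (Option (Fin m)) ℝ} {ζ ρ₁ ρ₂ υ Λ : Type} {zw : F.Ω → ζ}
  {zj : F.Ω → ρ₁} {zx : F.Ω → ρ₂} {y : F.Ω → υ} {p : F.Ω → ℝ} {Lp : F.Ω → Λ}
  {mC : F.Ω → Polynomial ℝ} {n n' nt : ℕ → ℝ} {Nt nb nbu Mu : ℝ} {Df Dn Dx Dd : ℕ → ℕ → ℝ}
  {Ef En Nv : ℕ → ℝ} {NP NV NR : ℕ} {U Um ρ fu eL η : ℝ}

namespace N2E

section

variable (P : N2E F c r₀ v K₁ K M q w W X mm D ks nn wr γ nc nc' B G H zw zj zx y p Lp mC n n' nt
  Nt nb nbu Mu Df Dn Dx Dd Ef En Nv NP NV NR U Um ρ fu eL η)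

include P

theorem zc {ω ν : F.Ω} (h : zN F c v w W K K₁ H nc nc' NP zw Lp ω =
    zN F c v w W K K₁ H nc nc' NP zw Lp ν) : F.T1 W ω = F.T1 W ν ∧ mC ω = mC ν ∧
      cod F w (fun s => H s (v + 1)) (c (v + 1)) NP 0 K₁ ω =
        cod F w (fun s => H s (v + 1)) (c (v + 1)) NP 0 K₁ ν := by
  obtain ⟨e1, e2, e3, e4, e5, e6⟩ := zN_eq h
  exact ⟨e1, P.mz ω ν e1 e6, e5⟩

theorem zs : Det p (slam F W) (zN F c v w W K K₁ H nc nc' NP zw Lp) := by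
  intro ω ν hω hν e
  have e1 : slam F w ω = slam F w ν := by
    rw [← upw_slam F P.wW P.WJ ω, ← upw_slam F P.wW P.WJ ν, e]
  have h1 : Det p (slam F W) zw := fun ω ν a b e => P.zL ω ν a b (by
    rw [← upw_slam F P.wW P.WJ ω, ← upw_slam F P.wW P.WJ ν, e])
  have h2 := zxs_L (c := c) (k₀ := 0) h1 (sdL_L (c := c) (v := v) (K := K) (H := H) (nc := nc)
    (nc' := nc') P.wW P.WJ p) ω ν hω hν e
  refine Prod.ext h2 (Prod.ext ?_ (P.Ls ω ν hω hν e))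
  show cod F w (fun s => H s (v + 1)) (c (v + 1)) NP 0 K₁ ω =
    cod F w (fun s => H s (v + 1)) (c (v + 1)) NP 0 K₁ ν
  unfold cod
  rw [e1]

theorem mCs : Det p (slam F W) mC := fun ω ν hω hν e =>
  P.mz ω ν (Prod.ext_iff.mp (Prod.ext_iff.mp e).2).2 (P.Ls ω ν hω hν e)

theorem Rs : Det p (slam F W) (RU F c (v + 1) q w W K₁ NP γ H mC) :=
  RU_slam p P.wW P.WJ P.mCs

/-- **The gradient.** -/
theorem grN : GrdN F c (fun _ : Fin 1 => v) (v + 2) q W X γ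
    (U + (v + 2 : ℕ) * U + 4 * (U + 1)) B (G 0)
    (fun ω _ => gnh F c (v + 2) γ (G 0) (G nn) ω v) (zN F c v w W K K₁ H nc nc' NP zw Lp)
    (RU F c (v + 1) q w W K₁ NP γ H mC) (chs F (v + 2) ks G) (chs F (v + 2) nn G) := by
  have hU := P.grd.U0
  refine grdN_RU P.grd (by omega) (by omega) (by omega) P.wW P.WJ P.deg P.DK P.NP0
    (fun ω hω => P.cls ω hω (v + 1) (by omega)) (fun ω ν h => P.zc h) (u₀ := 1) (e₁ := U + 1)
    zero_le_one (by linarith) (fun ω ν hω hν ht hz l hl hlv hlu => ?_) P.mg (by rw [mul_one])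
  have h1 : l < v := by omega
  obtain ⟨-, -, -, e4, -⟩ := zN_eq hz
  have h2 := hgt_sd (P.wW.trans P.WJ) P.deg P.DK' (fun ω hω l hl => P.cls ω hω l (by omega))
    hω hν (T_of_t F ht) e4 h1 (P.cn l h1)
  have p1 : (0 : ℝ) < 2 ^ X := by positivity
  have p2 : (0 : ℝ) < 2 ^ (γ l + q) := by positivity
  have e1 : (2 : ℝ) ^ (γ l + (q + X)) = 2 ^ (γ l + q) * 2 ^ X := by
    rw [← pow_add]
    congr 1
    omega
  rw [e1] at h2
  constructor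
  · refine h2.trans ?_
    rw [div_le_div_iff₀ (by positivity) p2]
    have h3 : (1 : ℝ) ≤ 2 ^ X := one_le_pow₀ (by norm_num)
    nlinarith
  · rw [abs_mul, abs_of_pos p2]
    calc _ ≤ (2 : ℝ) ^ (γ l + q) * (1 / (2 ^ (γ l + q) * 2 ^ X)) :=
          mul_le_mul_of_nonneg_left h2 p2.le
      _ = 1 / 2 ^ X := by field_simp

theorem czy' : CH p (fun ω => (rt F W ω, zN F c v w W K K₁ H nc nc' NP zw Lp ω))
    (fun ω => (zw ω, ycN F c r₀ v w K K₁ H nc nc' (nd n n' wr) (Dn (v + 1)) NP y Lp ω)) = 0 := by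
  refine CH_eq_zero P.law.nonneg fun ω ν _ _ e => ?_
  obtain ⟨e1, e2⟩ := Prod.ext_iff.mp e
  obtain ⟨f1, f2, f3, f4, f5, f6⟩ := of_yc e2
  obtain ⟨z1, z2⟩ := P.ev.yW ω ν f3
  refine Prod.ext (rt_of F P.WJ z2) (Prod.ext (Prod.ext e1 (Prod.ext ?_ (Prod.ext ?_ f1)))
    (Prod.ext f5 f6))
  · show (F.Z ω, F.T1 W ω) = (F.Z ν, F.T1 W ν)
    unfold Fam.T1
    rw [z1, z2]
  · funext l
    exact Fin.elim0 l

theorem cyz' : CH p (fun ω => (zw ω,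
      ycN F c r₀ v w K K₁ H nc nc' (nd n n' wr) (Dn (v + 1)) NP y Lp ω))
    (fun ω => (rt F W ω, zN F c v w W K K₁ H nc nc' NP zw Lp ω)) ≤
    (2 * v * cS K + η) + (2 * v * cS K + 2 * cS K₁) := by
  have h0 := P.law.nonneg
  obtain ⟨Z, hZd⟩ : ∃ Z : F.Ω → _, Z = fun ω =>
    (rt F W ω, zN F c v w W K K₁ H nc nc' NP zw Lp ω) := ⟨_, rfl⟩
  have a1 := P.yf'
  have a2 := P.js (a := r₀) le_rfl
  have a3 := jt1_cod (F := F) (c := c) (w := w) (K := K₁) (D := D) (H := H) P.law P.wJ P.deg P.DK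
    (l := v + 1) (n := NP) (N := Dn (v + 1)) P.NP5 P.NP6
    (fun ω => (rt F W ω, zN F c v w W K K₁ H nc nc' NP zw Lp ω)) fun ω ν a b e => by
      obtain ⟨e1, e2⟩ := Prod.ext_iff.mp e
      obtain ⟨e3, e4, e5, e6, e7, e8⟩ := zN_eq e2
      exact ⟨(time_eq F P.WJ e3 e1).1, fun b' hb => cod_near e7 (Nat.zero_le b') hb⟩
  have a4 := CH_subadd h0 (jet2 F c w H r₀ v (nd n n' wr)) (jt1 F c (v + 1) w H (Dn (v + 1)))
    (fun ω => (rt F W ω, zN F c v w W K K₁ H nc nc' NP zw Lp ω))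
  have a5 := CH_subadd h0 y (fun ω => (jet2 F c w H r₀ v (nd n n' wr) ω,
    jt1 F c (v + 1) w H (Dn (v + 1)) ω))
    (fun ω => (rt F W ω, zN F c v w W K K₁ H nc nc' NP zw Lp ω))
  rw [← hZd] at a1 a2 a3 a4 a5 ⊢
  have a6 : CH p (fun ω => (zw ω,
      ycN F c r₀ v w K K₁ H nc nc' (nd n n' wr) (Dn (v + 1)) NP y Lp ω)) Z ≤
      CH p (fun ω => (y ω, (jet2 F c w H r₀ v (nd n n' wr) ω,
        jt1 F c (v + 1) w H (Dn (v + 1)) ω))) Z := by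
    refine CH_mono_left h0 fun ω ν hω hν e => ?_
    obtain ⟨e1, e2⟩ := Prod.ext_iff.mp e
    obtain ⟨e3, e4⟩ := Prod.ext_iff.mp e1
    obtain ⟨e5, e6⟩ := Prod.ext_iff.mp e4
    have e7 : Z ω = Z ν := e2
    rw [hZd] at e7
    obtain ⟨f1, f2⟩ := Prod.ext_iff.mp e7
    obtain ⟨g1, g2, g3, g4, g5, g6⟩ := zN_eq f2
    exact Prod.ext g3 (yc_of P.ev.yW g4 e5 e3 e6 g5 g6)
  linarith

/-- **The inputs `PrN`.** -/
theorem prn {j₀ : ℕ} {ε₀ ψ : ℝ} (hT : TimW F p W j₀ ε₀ ψ)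
    (hψ : ψ * J ≤ eN v K₁ K M ρ η eL (cRU K K₁ Um) fu) :
    PrN F c (fun _ : Fin 1 => v) (v + 2) q w W X mm D K γ B (G 0) H
      (fun ω _ => gnh F c (v + 2) γ (G 0) (G nn) ω v) (zN F c v w W K K₁ H nc nc' NP zw Lp)
      (RU F c (v + 1) q w W K₁ NP γ H mC) zw
      (ycN F c r₀ v w K K₁ H nc nc' (nd n n' wr) (Dn (v + 1)) NP y Lp)
      (jt1 F c (v + 1) w H (Df (v + 1))) (chs F (v + 2) ks G) (chs F (v + 2) nn G) zj zx
      (fun ω => (Vh F c v w H (nb * J) ω, Vh F c (v + 1) w H (nbu * J) ω)) p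
      (fun _ => Df v) (fun _ => Dn v) (fun _ => Dx v) (fun _ j' => nt v - (j' : ℝ) * wr)
      (fun _ => Nv) Ef En (U + (v + 2 : ℕ) * U + 4 * (U + 1)) ((K₁ + 1) * Um)
      ((nb * J - Nv 0 * J) * Real.log 2 + (nbu * J - (γ (v + 1) + q : ℕ)) * Real.log 2)
      (eN v K₁ K M ρ η eL (cRU K K₁ Um) fu) := by
  have h0 := P.law.nonneg
  have hη := P.η0
  have heL := P.eL0
  have hfu := P.fu0
  have hcS := cS_nonneg K
  have hcS₁ := cS_nonneg K₁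
  have hcD := cD_nonneg K
  have hcD₁ := cD_nonneg K₁
  have hcL := cL_nonneg K
  have hcL₁ := cL_nonneg K₁
  have hcM := cM_nonneg K₁ M
  have hcQ := cQ_nonneg K₁ (2 * K₁)
  have hcR := cRU_nonneg K K₁ P.Um0
  have hρl : 0 ≤ Real.log (2 * (ρ + 1) + 1) := Real.log_nonneg (by have := P.ρ0; linarith)
  have h5 : 0 ≤ Real.log 5 := Real.log_nonneg (by norm_num)
  have hv0 : (0 : ℝ) ≤ v := Nat.cast_nonneg v
  have hK0 : (0 : ℝ) ≤ K := Nat.cast_nonneg K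
  have hM0 : (0 : ℝ) ≤ M := Nat.cast_nonneg M
  obtain ⟨t1, ht1⟩ : ∃ t, t = ((v : ℝ) + 1) * (2 * η + 2 * cD K) := ⟨_, rfl⟩
  obtain ⟨t2, ht2⟩ : ∃ t, t = 2 * (v : ℝ) * cS K := ⟨_, rfl⟩
  obtain ⟨t3, ht3⟩ : ∃ t, t = ((v + 2 : ℕ) : ℝ) * (M + 1) * cM K₁ M := ⟨_, rfl⟩
  obtain ⟨t4, ht4⟩ : ∃ t, t = ((K : ℝ) + 1) * Real.log (2 * (ρ + 1) + 1) := ⟨_, rfl⟩
  have p1 : 0 ≤ t1 := by rw [ht1]; positivity
  have p2 : 0 ≤ t2 := by rw [ht2]; positivity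
  have p3 : 0 ≤ t3 := by rw [ht3]; positivity
  have p4 : 0 ≤ t4 := by rw [ht4]; positivity
  have heN : eN v K₁ K M ρ η eL (cRU K K₁ Um) fu = 12 * (η + t1 + cD K₁ + cD K + 2 * t2 +
      2 * cS K₁ + cL K₁ + cL K + t3 + t4 + cQ K₁ (2 * K₁) + 2 * Real.log 5 + eL +
        cRU K K₁ Um + fu) := by
    unfold eN
    rw [ht1, ht2, ht3, ht4]
    ring
  obtain ⟨e, he⟩ : ∃ e, e = eN v K₁ K M ρ η eL (cRU K K₁ Um) fu := ⟨_, rfl⟩
  rw [← he] at hψ heN ⊢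
  refine ⟨P.law, P.sup, P.wW, P.WJ, P.deg, P.DK', P.KX, fun ω hω => ⟨P.cls ω hω (v + 2)
    (by omega), fun _ => P.cls ω hω v (by omega)⟩, P.grN, fun ω _ => ?_, fun ω _ a => ?_, ?_,
    ?_, P.mU, fun ω ν _ _ h => (zN_eq h).1, ?_, ?_, ?_, ?_, ?_, ?_, ?_, ?_, fun _ => P.n0,
    fun _ => P.n1, fun _ => P.x0, fun _ => P.x1, fun _ => ?_, fun _ => ?_, P.m0, P.m1, P.mf, ?_,
    ?_, ?_, ?_, ?_⟩
  · -- dR
    have h1 := RU_deg (F := F) (c := c) (u := v + 1) (q := q) (N := NP) (γ := γ) P.wW P.WJ P.deg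
      P.DK (P.md ω)
    exact h1.trans P.KK
  · -- bR
    exact RU_coeff P.wW P.WJ P.deg P.DK P.NP0 (P.mb ω) a
  · exact mul_nonneg (by positivity) P.Um0
  · -- cR
    have b1 := ac_u (F := F) (c := c) (u := v + 1) (q := q) (w := w) (W := W) (K := K₁) (D := D)
      (γ := γ) (H := H) P.law P.wW P.WJ P.deg P.DK (i := v + 2) (X := X) (mm := mm)
      (Nc := nc' (v + 1)) (gg := fun ω _ => gnh F c (v + 2) γ (G 0) (G nn) ω v)
      (z := zN F c v w W K K₁ H nc nc' NP zw Lp) P.cu (Nf := Df (v + 1)) P.g0 P.g1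
      (fun ω => ((jetm F c (fun _ : Fin 1 => v) w H (fun _ => Df v) ω,
        jt1 F c (v + 1) w H (Df (v + 1)) ω), (rt F W ω,
          zN F c v w W K K₁ H nc nc' NP zw Lp ω))) fun ω ν _ _ e => by
        obtain ⟨e1, e2⟩ := Prod.ext_iff.mp e
        obtain ⟨e3, e4⟩ := Prod.ext_iff.mp e2
        exact ⟨(zN_eq e4).1, e3, (Prod.ext_iff.mp e1).2⟩
    obtain ⟨Z, hZd⟩ : ∃ Z : F.Ω → _, Z = fun ω =>
      ((jetm F c (fun _ : Fin 1 => v) w H (fun _ => Df v) ω,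
        jt1 F c (v + 1) w H (Df (v + 1)) ω), (rt F W ω,
          zN F c v w W K K₁ H nc nc' NP zw Lp ω)) := ⟨_, rfl⟩
    have hZ : ∀ ω ν, Z ω = Z ν → jt1 F c v w H (Df v) ω = jt1 F c v w H (Df v) ν ∧
        (rt F W ω, zN F c v w W K K₁ H nc nc' NP zw Lp ω) =
          (rt F W ν, zN F c v w W K K₁ H nc nc' NP zw Lp ν) := by
      intro ω ν e
      rw [hZd] at e
      obtain ⟨e1, e2⟩ := Prod.ext_iff.mp e
      exact ⟨(Prod.ext_iff.mp e1).1, e2⟩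
    rw [← hZd] at b1
    have b2 : CH p (fun ω => (y ω, jet2 F c w H r₀ v (nd n n' wr) ω)) Z ≤
        (2 * v * cS K + η) + 2 * v * cS K := by
      refine (CH_subadd h0 y (jet2 F c w H r₀ v (nd n n' wr)) Z).trans (add_le_add ?_ ?_)
      · exact (CH_mono_cond h0 fun ω ν _ _ e => (hZ ω ν e).2).trans P.yf'
      · exact (CH_mono_cond h0 fun ω ν _ _ e => (hZ ω ν e).2).trans (P.js le_rfl)
    have b3 := P.cu2 (fun ω => ((y ω, jet2 F c w H r₀ v (nd n n' wr) ω), Z ω))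
      fun ω ν _ _ e => by
        obtain ⟨e1, e2⟩ := Prod.ext_iff.mp e
        obtain ⟨e3, e4⟩ := Prod.ext_iff.mp e1
        obtain ⟨e5, e6⟩ := hZ ω ν e2
        obtain ⟨-, e7⟩ := Prod.ext_iff.mp e6
        exact ⟨e5, e4, (zN_eq e7).2.2.1, e3⟩
    have b4 := CH_via h0 (cod F w (fun s => H s (v + 1)) (c (v + 1)) (nc' (v + 1)) 2 K)
      (fun ω => (y ω, jet2 F c w H r₀ v (nd n n' wr) ω)) (W := Z) (W' := fun ω =>
        ((y ω, jet2 F c w H r₀ v (nd n n' wr) ω), Z ω)) b2 b3 fun _ _ _ _ e => e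
    have b5 : CH p (cod F w (fun s => H s (v + 1)) (c (v + 1)) (nc' (v + 1)) 2 K₁) Z ≤
        CH p (cod F w (fun s => H s (v + 1)) (c (v + 1)) (nc' (v + 1)) 2 K) Z :=
      CH_mono_left h0 fun ω ν _ _ e => cod_low le_rfl le_rfl P.K1K (Prod.ext_iff.mp e).1
    have b6 := RU_cR (F := F) (c := c) (u := v + 1) (q := q) (w := w) (W := W) (K := K₁)
      (N := NP) (γ := γ) (H := H) (mC := mC) P.law P.wW P.WJ P.deg P.DK (i := v + 2) (X := X)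
      (mm := mm) (K' := K) (gg := fun ω _ => gnh F c (v + 2) γ (G 0) (G nn) ω v)
      (z := zN F c v w W K K₁ H nc nc' NP zw Lp) P.Um0 (fun ω _ => P.mb ω) Z
      (fun ω ν _ _ e => P.zc (Prod.ext_iff.mp (hZ ω ν e).2).2) b1
    rw [← ht2] at b4
    rw [heN]
    rw [hZd] at b6 b4 b5
    linarith
  · -- czy
    rw [P.czy', heN]
    linarith
  · -- cyz
    have b1 := P.cyz'
    rw [← ht2] at b1
    rw [heN]
    linarith
  · exact (adN_ti P.law hT P.zs P.Rs (fun ω ν _ _ h => (zN_eq h).1) K).trans hψ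
  · -- mj
    have b1 := P.fmj
    rw [← ht1] at b1
    rw [heN]
    refine le_trans b1 ?_
    linarith
  · -- mx
    have b1 := P.fmx
    rw [← ht1, ← ht3, ← ht4] at b1
    rw [heN]
    refine le_trans b1 ?_
    linarith
  · rw [CH_eq_zero h0 P.chj, heN]
    linarith
  · rw [CH_eq_zero h0 P.chx, heN]
    linarith
  · rw [CH_eq_zero h0 P.zwx, heN]
    linarith
  · simpa using P.u0
  · simpa using P.u1
  · -- ac
    have b1 := ac_sd (F := F) (c := c) (v := v) (w := w) (W := W) (K := K) (D := D) (H := H)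
      (nc := nc) (nc' := nc') (i := v + 2) (q := q) (X := X) (mm := mm) (γ := γ)
      (gg := fun ω _ => gnh F c (v + 2) γ (G 0) (G nn) ω v)
      (z := zN F c v w W K K₁ H nc nc' NP zw Lp) P.law P.wW P.WJ P.deg P.DK' P.cv
      (fun ω ν _ _ h => ⟨(zN_eq h).1, (zN_eq h).2.2.2.1⟩) P.f0 P.f1
    rw [heN]
    refine le_trans b1 ?_
    linarith
  · -- va
    have b1 := va_sd (F := F) (c := c) (v := v) (w := w) (W := W) (K := K) (D := D) (H := H)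
      (nc := nc) (nc' := nc') (i := v + 2) (q := q) (X := X) (mm := mm) (γ := γ)
      (gg := fun ω _ => gnh F c (v + 2) γ (G 0) (G nn) ω v)
      (z := zN F c v w W K K₁ H nc nc' NP zw Lp) P.law P.wW P.WJ P.deg P.DK' P.cv
      (fun ω ν _ _ h => ⟨(zN_eq h).1, (zN_eq h).2.2.2.1⟩) P.v0 P.v1
    rw [heN]
    refine le_trans b1 ?_
    linarith
  · -- dj
    have b1 := P.fdj
    rw [heN]
    refine le_trans b1 ?_
    linarith
  · -- jt
    have b1 := P.fjt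
    rw [← ht3, ← ht4] at b1
    rw [heN]
    refine le_trans b1 ?_
    linarith
  · -- vf
    have b1 := P.fvf
    rw [← ht1, ← ht3, ← ht4] at b1
    rw [heN]
    refine le_trans ?_ b1
    linarith

end

end N2E

end Pool.AVG57
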